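import Mathlib
import Pool.Agent.H588R2.Ram

/-!
# A small language with variables and arrays, to be compiled to the word RAM

The state has variables `var 0, var 1, ...` and arrays `arr 0, arr 1, ...` of natural numbers. All
indices of arrays which are used must be smaller than `N`, all values which are used smaller than
`W`. The running time of a command is the number of elementary commands and tests.
-/

set_option autoImplicit false

namespace Pool.Agent.L7h11.UM

/-- Expressions: constants, variables, entries of arrays, sums, truncated differences, and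
`ifLt a b t e` with the value `t` if `a < b` and `e` otherwise. -/
inductive Ex where
  | c (k : ℕ)
  | v (x : ℕ)
  | get (q : ℕ) (i : Ex)
  | add (a b : Ex)
  | sub (a b : Ex)
  | ifLt (a b t e : Ex)

/-- States. -/
structure S where
  var : ℕ → ℕ
  arr : ℕ → ℕ → ℕ

/-- Values of expressions. -/
def Ex.ev : Ex → S → ℕ
  | .c k, _ => k
  | .v x, s => s.var x
  | .get q i, s => s.arr q (i.ev s)
  | .add a b, s => a.ev s + b.ev s
  | .sub a b, s => a.ev s - b.ev s
  | .ifLt a b t e, s => if a.ev s < b.ev s then t.ev s else e.ev s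

/-- The evaluation uses only indices `< N` and values `< W`. -/
def Ex.ok (N W : ℕ) : Ex → S → Prop
  | .c k, _ => k < W
  | .v x, s => s.var x < W
  | .get q i, s => i.ok N W s ∧ i.ev s < N ∧ i.ev s < W ∧ s.arr q (i.ev s) < W
  | .add a b, s => a.ok N W s ∧ b.ok N W s ∧ a.ev s + b.ev s < W
  | .sub a b, s => a.ok N W s ∧ b.ok N W s
  | .ifLt a b t e, s => a.ok N W s ∧ b.ok N W s ∧ (a.ev s < b.ev s → t.ok N W s) ∧
      (¬ a.ev s < b.ev s → e.ok N W s)

/-- Commands. -/
inductive Cm where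
  | skip
  | set (x : ℕ) (e : Ex)
  | put (q : ℕ) (i e : Ex)
  | seq (c₁ c₂ : Cm)
  | ite (a b : Ex) (c₁ c₂ : Cm)
  | loop (a b : Ex) (c : Cm)

/-- Change a variable. -/
def S.setV (s : S) (x k : ℕ) : S := ⟨Function.update s.var x k, s.arr⟩

/-- Change an entry of an array. -/
def S.putA (s : S) (q i k : ℕ) : S :=
  ⟨s.var, Function.update s.arr q (Function.update (s.arr q) i k)⟩

/-- Execution with running time. `ite a b c₁ c₂`: if `a < b` then `c₁` else `c₂`; `loop a b c`:
while `a < b` do `c`. -/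
inductive Run (N W : ℕ) : Cm → S → S → ℕ → Prop
  | skip (s : S) : Run N W .skip s s 0
  | set (x : ℕ) (e : Ex) (s : S) : e.ok N W s → Run N W (.set x e) s (s.setV x (e.ev s)) 1
  | put (q : ℕ) (i e : Ex) (s : S) : i.ok N W s → i.ev s < N → i.ev s < W → e.ok N W s →
      e.ev s < W → Run N W (.put q i e) s (s.putA q (i.ev s) (e.ev s)) 1
  | seq {c₁ c₂ : Cm} {s s' s'' : S} {t t' : ℕ} : Run N W c₁ s s' t → Run N W c₂ s' s'' t' →
      Run N W (.seq c₁ c₂) s s'' (t + t')
  | iteT {a b : Ex} {c₁ c₂ : Cm} {s s' : S} {t : ℕ} : a.ok N W s → b.ok N W s →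
      a.ev s < b.ev s → Run N W c₁ s s' t → Run N W (.ite a b c₁ c₂) s s' (t + 1)
  | iteF {a b : Ex} {c₁ c₂ : Cm} {s s' : S} {t : ℕ} : a.ok N W s → b.ok N W s →
      ¬ a.ev s < b.ev s → Run N W c₂ s s' t → Run N W (.ite a b c₁ c₂) s s' (t + 1)
  | loopT {a b : Ex} {c : Cm} {s s' s'' : S} {t t' : ℕ} : a.ok N W s → b.ok N W s →
      a.ev s < b.ev s → Run N W c s s' t → Run N W (.loop a b c) s' s'' t' →
      Run N W (.loop a b c) s s'' (t + t' + 1)
  | loopF {a b : Ex} {c : Cm} {s : S} : a.ok N W s → b.ok N W s → ¬ a.ev s < b.ev s →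
      Run N W (.loop a b c) s s 1

/-- Total correctness: started in `s`, the command ends after at most `T` steps in a state with
`Q`. -/
def Ht (N W : ℕ) (c : Cm) (s : S) (T : ℕ) (Q : S → Prop) : Prop :=
  ∃ (s' : S) (t : ℕ), Run N W c s s' t ∧ t ≤ T ∧ Q s'

theorem Ht.mono {N W : ℕ} {c : Cm} {s : S} {T T' : ℕ} {Q Q' : S → Prop} (h : Ht N W c s T Q)
    (hT : T ≤ T') (hQ : ∀ s', Q s' → Q' s') : Ht N W c s T' Q' := by
  obtain ⟨s', t, h1, h2, h3⟩ := h
  exact ⟨s', t, h1, h2.trans hT, hQ _ h3⟩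

theorem Ht.skip {N W : ℕ} {s : S} {Q : S → Prop} (h : Q s) : Ht N W .skip s 0 Q :=
  ⟨s, 0, .skip s, le_rfl, h⟩

theorem Ht.set {N W : ℕ} {x : ℕ} {e : Ex} {s : S} {Q : S → Prop} (he : e.ok N W s)
    (h : Q (s.setV x (e.ev s))) : Ht N W (.set x e) s 1 Q :=
  ⟨_, 1, .set x e s he, le_rfl, h⟩

theorem Ht.put {N W : ℕ} {q : ℕ} {i e : Ex} {s : S} {Q : S → Prop} (hi : i.ok N W s)
    (hN : i.ev s < N) (hW : i.ev s < W) (he : e.ok N W s) (heW : e.ev s < W)
    (h : Q (s.putA q (i.ev s) (e.ev s))) : Ht N W (.put q i e) s 1 Q :=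
  ⟨_, 1, .put q i e s hi hN hW he heW, le_rfl, h⟩

theorem Ht.seq {N W : ℕ} {c₁ c₂ : Cm} {s : S} {T₁ T₂ : ℕ} {Q : S → Prop}
    (h : Ht N W c₁ s T₁ (fun s' => Ht N W c₂ s' T₂ Q)) : Ht N W (.seq c₁ c₂) s (T₁ + T₂) Q := by
  obtain ⟨s', t, h1, h2, s'', t', h1', h2', h3⟩ := h
  exact ⟨s'', t + t', .seq h1 h1', by omega, h3⟩

theorem Ht.ite {N W : ℕ} {a b : Ex} {c₁ c₂ : Cm} {s : S} {T : ℕ} {Q : S → Prop}
    (ha : a.ok N W s) (hb : b.ok N W s) (h1 : a.ev s < b.ev s → Ht N W c₁ s T Q)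
    (h2 : ¬ a.ev s < b.ev s → Ht N W c₂ s T Q) : Ht N W (.ite a b c₁ c₂) s (T + 1) Q := by
  by_cases h : a.ev s < b.ev s
  · obtain ⟨s', t, h3, h4, h5⟩ := h1 h
    exact ⟨s', t + 1, .iteT ha hb h h3, by omega, h5⟩
  · obtain ⟨s', t, h3, h4, h5⟩ := h2 h
    exact ⟨s', t + 1, .iteF ha hb h h3, by omega, h5⟩

/-- Loops: `I k` holds after `k` rounds, there are `M` rounds, round `k` costs at most `T k`. -/
theorem Ht.loop {N W : ℕ} {a b : Ex} {c : Cm} {Q : S → Prop} (M : ℕ) (I : ℕ → S → Prop)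
    (T : ℕ → ℕ)
    (hstep : ∀ k < M, ∀ s, I k s → a.ok N W s ∧ b.ok N W s ∧ a.ev s < b.ev s ∧
      Ht N W c s (T k) (I (k + 1)))
    (hend : ∀ s, I M s → a.ok N W s ∧ b.ok N W s ∧ ¬ a.ev s < b.ev s ∧ Q s) {s : S}
    (h0 : I 0 s) : Ht N W (.loop a b c) s (∑ k ∈ Finset.range M, (T k + 1) + 1) Q := by
  have key : ∀ m, m ≤ M → ∀ s, I (M - m) s →
      Ht N W (.loop a b c) s (∑ k ∈ Finset.Ico (M - m) M, (T k + 1) + 1) Q := by
    intro m
    induction m with
    | zero =>
      intro _ s hs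
      obtain ⟨h1, h2, h3, h4⟩ := hend s (by simpa using hs)
      exact ⟨s, 1, .loopF h1 h2 h3, by simp, h4⟩
    | succ m ih =>
      intro hm s hs
      obtain ⟨h1, h2, h3, s', t, h4, h5, h6⟩ := hstep (M - (m + 1)) (by omega) s hs
      have e : M - (m + 1) + 1 = M - m := by omega
      rw [e] at h6
      obtain ⟨s'', t', h7, h8, h9⟩ := ih (by omega) s' h6
      refine ⟨s'', t + t' + 1, .loopT h1 h2 h3 h4 h7, ?_, h9⟩
      rw [Finset.sum_eq_sum_Ico_succ_bot (by omega : M - (m + 1) < M), e]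
      omega
  have := key M le_rfl s (by simpa using h0)
  simpa using this

/-- A list of commands, one after the other. -/
def Cm.list : List Cm → Cm
  | [] => .skip
  | c :: l => .seq c (Cm.list l)

/-- Lists of commands: `I k` holds before the command number `k`. -/
theorem Ht.list {N W : ℕ} {Q : S → Prop} (T : ℕ) : ∀ (l : List Cm) (I : ℕ → S → Prop) (s : S),
    I 0 s → (∀ (k : ℕ) (hk : k < l.length) (s : S), I k s → Ht N W l[k] s T (I (k + 1))) →
    (∀ s, I l.length s → Q s) → Ht N W (Cm.list l) s (l.length * T) Q := by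
  intro l
  induction l with
  | nil => intro I s h0 _ h2; simpa [Cm.list] using Ht.skip (h2 s h0)
  | cons c l ih =>
    intro I s h0 h1 h2
    have e : (c :: l).length * T = T + l.length * T := by simp; ring
    rw [e]
    apply Ht.seq
    refine (h1 0 (by simp) s h0).mono le_rfl fun s' hs' => ?_
    exact ih (fun k => I (k + 1)) s' hs' (fun k hk s hs =>
      h1 (k + 1) (by simpa using hk) s hs) (fun s hs => h2 s (by simpa using hs))

/-- Initial state with input `n` in the variable `0` and the input `I` in the array `0`. -/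
def Init (n : ℕ) (I : ℕ → ℕ) : S :=
  ⟨fun x => if x = 0 then n else 0, fun q i => if q = 0 then I i else 0⟩

/-- COMPILER: every command is simulated by a program of the word RAM, with a constant factor in the
time; all arrays have indices `< 64 (n + 1)`; the output is the variable `0`. (Memory layout:
`arr q i` is the memory cell `q * (64 * (n + 1)) + i`.) -/
def S_COMP : Prop :=
  ∀ c : Cm, ∃ (P : List Pool.Agent.H588R2.Instr) (C : ℕ), ∀ (n w : ℕ) (mem : ℕ → ℕ),
    C * (n + 1) ≤ 2 ^ w → (∀ i, mem i < 2 ^ w) → (∀ i, 64 * (n + 1) ≤ i → mem i = 0) →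
    ∀ (s' : S) (t : ℕ), Run (64 * (n + 1)) (2 ^ w) c (Init n mem) s' t →
      Pool.Agent.H588R2.HaltsWithin w P ⟨0, ⟨fun r => if r = 0 then n else 0, mem⟩⟩
        (C * (t + 1)) (s'.var 0)

end Pool.Agent.L7h11.UM
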