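import Mathlib

/-!
# Upper minus domination in trees: definitions and the mathematical statements

All functions `f` with values `-1, 0, 1` are shifted to the values `0, 1, 2`. Tables hold encoded
numbers: `0` means minus infinity and `m + 1` means `m`.
-/

set_option autoImplicit false

namespace Pool.Agent.L7h11.UM

/-! ### The problem -/

/-- `f[v]`: the sum of `f` over the closed neighbourhood of `v`. -/
noncomputable def closedSum {n : ℕ} (G : SimpleGraph (Fin n)) (f : Fin n → ℤ) (v : Fin n) : ℤ :=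
  open Classical in f v + ∑ u ∈ Finset.univ.filter (fun u => G.Adj v u), f u

/-- Minus dominating functions. -/
def IsMinusDominating {n : ℕ} (G : SimpleGraph (Fin n)) (f : Fin n → ℤ) : Prop :=
  (∀ v, f v = -1 ∨ f v = 0 ∨ f v = 1) ∧ ∀ v, 1 ≤ closedSum G f v

/-- Minimal minus dominating functions. -/
def IsMinimalMinusDominating {n : ℕ} (G : SimpleGraph (Fin n)) (f : Fin n → ℤ) : Prop :=
  IsMinusDominating G f ∧ ∀ g, IsMinusDominating G g → (∀ v, g v ≤ f v) → g = f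

/-- `m` is the upper minus domination number of `G`. -/
def IsUpperMinus {n : ℕ} (G : SimpleGraph (Fin n)) (m : ℤ) : Prop :=
  IsGreatest {w : ℤ | ∃ f, IsMinimalMinusDominating G f ∧ w = ∑ v, f v} m

/-- The list of the neighbours of `v` in the input array `I`: the entries `I k` with
`I v ≤ k < I (v + 1)`. -/
def adjL (I : ℕ → ℕ) (v : ℕ) : List ℕ := (List.range' (I v) (I (v + 1) - I v)).map I

/-- `I` consists of adjacency lists of `G`: the cells `0, ..., n` hold the places at which the lists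
of the vertices begin (the cell `n` holds the end of the last list), the lists start at the cell
`n + 1`. -/
structure IsAdjacencyList (n : ℕ) (G : SimpleGraph (Fin n)) (I : ℕ → ℕ) : Prop where
  first : I 0 = n + 1
  mono : ∀ v < n, I v ≤ I (v + 1)
  nodup : ∀ v < n, (adjL I v).Nodup
  mem : ∀ (v : Fin n) (u : ℕ), u ∈ adjL I v ↔ ∃ h : u < n, G.Adj v ⟨u, h⟩

/-! ### Rooted trees given by arrays -/

/-- `ord` lists the vertices `0, ..., n - 1`, beginning with the root `0`, and every other vertex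
comes after its parent; the parent of the root is the number `n`. -/
structure Rooting (n : ℕ) (ord par : ℕ → ℕ) : Prop where
  pos : 0 < n
  ord_lt : ∀ i < n, ord i < n
  ord_inj : ∀ i < n, ∀ j < n, ord i = ord j → i = j
  ord_zero : ord 0 = 0
  par_zero : par 0 = n
  par_ord : ∀ i, 0 < i → i < n → ∃ j < i, par (ord i) = ord j

/-- The edges of `G` are the pairs of a vertex and its parent. -/
def AdjPar (n : ℕ) (G : SimpleGraph (Fin n)) (par : ℕ → ℕ) : Prop :=
  ∀ u v : Fin n, G.Adj u v ↔ par u = v ∨ par v = u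

/-- The children of `v`. -/
def kids (n : ℕ) (par : ℕ → ℕ) (v : ℕ) : Finset ℕ := (Finset.range n).filter (fun c => par c = v)

/-- `Desc n par v u`: `u` is a descendant of `v` (or `v` itself). -/
inductive Desc (n : ℕ) (par : ℕ → ℕ) (v : ℕ) : ℕ → Prop
  | refl : Desc n par v v
  | step {u : ℕ} : u < n → Desc n par v (par u) → Desc n par v u

/-- The set of the descendants of `v`. -/
noncomputable def descF (n : ℕ) (par : ℕ → ℕ) (v : ℕ) : Finset ℕ :=
  open Classical in (Finset.range n).filter (Desc n par v)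

/-- Number of descendants (with `v`). -/
noncomputable def sz (n : ℕ) (par : ℕ → ℕ) (v : ℕ) : ℕ := (descF n par v).card

/-- Sum over the closed neighbourhood; the root has the neighbour `n` in addition. -/
def nb (n : ℕ) (par f : ℕ → ℕ) (v : ℕ) : ℕ := f v + f (par v) + ∑ c ∈ kids n par v, f c

/-- `f[v] ≥ 1` in shifted terms. -/
def Good (n : ℕ) (par f : ℕ → ℕ) (v : ℕ) : Prop := (kids n par v).card + 3 ≤ nb n par f v

/-- `f[v] = 1` in shifted terms. -/
def Tight (n : ℕ) (par f : ℕ → ℕ) (v : ℕ) : Prop := nb n par f v = (kids n par v).card + 3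

/-- `v` or its parent or a child of `v` is tight. -/
def Covd (n : ℕ) (par f : ℕ → ℕ) (u : ℕ) : Prop :=
  Tight n par f u ∨ (par u < n ∧ Tight n par f (par u)) ∨ ∃ c ∈ kids n par u, Tight n par f c

/-- The conditions below `v`: all conditions at the descendants of `v`, except the covering of `v`
itself; `f v = a`, `f (par v) = b`. -/
def Below (n : ℕ) (par : ℕ → ℕ) (v a b : ℕ) (f : ℕ → ℕ) : Prop :=
  f v = a ∧ f (par v) = b ∧
    ∀ u, Desc n par v u → f u ≤ 2 ∧ Good n par f u ∧ (u ≠ v → 1 ≤ f u → Covd n par f u)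

/-- Weight of the subtree of `v`. -/
noncomputable def wt (n : ℕ) (par : ℕ → ℕ) (v : ℕ) (f : ℕ → ℕ) : ℕ := ∑ u ∈ descF n par v, f u

/-- Encoded maximum of a bounded set of natural numbers (`0` for the empty set). -/
noncomputable def encS (A : Set ℕ) : ℕ := sSup {m | ∃ a ∈ A, m = a + 1}

/-- Best weight of the subtree of `v` with `f v = a`, `f (par v) = b` and `v` tight. -/
noncomputable def tabP (n : ℕ) (par : ℕ → ℕ) (v a b : ℕ) : ℕ :=
  encS {m | ∃ f, Below n par v a b f ∧ Tight n par f v ∧ m = wt n par v f}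

/-- Best weight of the subtree of `v` with `f v = a`, `f (par v) = b` and `v` not tight; for `r = 0`
the vertex `v` has to be covered from below if its value is not `-1`. -/
noncomputable def tabQ (n : ℕ) (par : ℕ → ℕ) (r v a b : ℕ) : ℕ :=
  encS {m | ∃ f, Below n par v a b f ∧ ¬ Tight n par f v ∧
    (r = 0 → 1 ≤ a → ∃ c ∈ kids n par v, Tight n par f c) ∧ m = wt n par v f}

/-- Addition of encoded numbers. -/
def eadd (x y : ℕ) : ℕ := if x = 0 ∨ y = 0 then 0 else x + y - 1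

/-- Best total of a choice `x c ≤ 2` for the members `c` of the list with sum `X`, if the choice
`x` at `c` is worth `M c x`. -/
def optF (M : ℕ → ℕ → ℕ) : List ℕ → ℕ → ℕ
  | [], X => if X = 0 then 1 else 0
  | c :: cs, X => (Finset.range 3).sup fun x => if x ≤ X then eadd (M c x) (optF M cs (X - x)) else 0

/-- The same, if for one member `c` the worth must be `C c x`. -/
def optC (M C : ℕ → ℕ → ℕ) : List ℕ → ℕ → ℕ
  | [], _ => 0
  | c :: cs, X => (Finset.range 3).sup fun x => if x ≤ X then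
      max (eadd (M c x) (optC M C cs (X - x))) (eadd (C c x) (optF M cs (X - x))) else 0

/-- Worth of the child `c` with value `x` for a parent of value `a` which is tight (`T = 1`) or not
(`T = 0`). -/
noncomputable def MM (n : ℕ) (par : ℕ → ℕ) (a T c x : ℕ) : ℕ :=
  max (tabP n par c x a) (tabQ n par T c x a)

/-- RECURSION. -/
def S_REC : Prop :=
  ∀ (n : ℕ) (ord par : ℕ → ℕ), Rooting n ord par → ∀ v < n, ∀ cs : List ℕ, cs.Nodup →
    (∀ c, c ∈ cs ↔ c < n ∧ par c = v) → ∀ a ≤ 2, ∀ b ≤ 2,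
    tabP n par v a b = eadd (a + 1)
      (if a + b ≤ cs.length + 3 then optF (MM n par a 1) cs (cs.length + 3 - (a + b)) else 0) ∧
    tabQ n par 1 v a b = eadd (a + 1)
      ((Finset.Icc (cs.length + 4 - (a + b)) (2 * cs.length)).sup (optF (MM n par a 0) cs)) ∧
    tabQ n par 0 v a b = eadd (a + 1)
      (if a = 0 then
        (Finset.Icc (cs.length + 4 - (a + b)) (2 * cs.length)).sup (optF (MM n par a 0) cs)
      else (Finset.Icc (cs.length + 4 - (a + b)) (2 * cs.length)).sup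
        (optC (MM n par a 0) (fun c x => tabP n par c x a) cs))

/-- ROOT: the answer is read off the tables of the root. (The characterization of the minimal
functions: every `v` with `f v ≥ 0` has a tight vertex in its closed neighbourhood; a maximal
independent set gives a minimal function of weight `≥ 0`.) -/
def S_ROOT : Prop :=
  ∀ (n : ℕ) (G : SimpleGraph (Fin n)) (ord par : ℕ → ℕ), Rooting n ord par → AdjPar n G par →
    n + 1 ≤ (Finset.range 3).sup (fun a => max (tabP n par 0 a 1) (tabQ n par 0 0 a 1)) ∧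
    IsUpperMinus G ((((Finset.range 3).sup fun a => max (tabP n par 0 a 1) (tabQ n par 0 0 a 1)) -
      1 - n : ℕ) : ℤ)

/-- SIZES: elementary facts about the sizes of the subtrees and bounds for the tables. -/
def S_SIZ : Prop :=
  ∀ (n : ℕ) (ord par : ℕ → ℕ), Rooting n ord par →
    (∀ v < n, sz n par v = 1 + ∑ c ∈ kids n par v, sz n par c) ∧ sz n par 0 = n ∧
    (∀ v < n, 1 ≤ sz n par v ∧ sz n par v ≤ n) ∧
    (∀ v < n, ∀ c ∈ kids n par v, sz n par c < sz n par v) ∧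
    (∀ v < n, ∀ j, sz n par v < 2 ^ (j + 1) → ∀ c ∈ kids n par v, ∀ c' ∈ kids n par v,
      2 ^ j ≤ sz n par c → 2 ^ j ≤ sz n par c' → c = c') ∧
    (∀ v < n, ∀ a b, tabP n par v a b ≤ 2 * sz n par v + 1) ∧
    (∀ v < n, ∀ r a b, tabQ n par r v a b ≤ 2 * sz n par v + 1)

/-- ADJACENCY LISTS: the input of a tree has length `3 n - 1`; the list of the children. -/
def S_ADJ : Prop :=
  ∀ (n : ℕ) (G : SimpleGraph (Fin n)) (I : ℕ → ℕ), 1 ≤ n → G.IsTree → IsAdjacencyList n G I →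
    I n = 3 * n - 1 ∧ ∀ ord par : ℕ → ℕ, Rooting n ord par → AdjPar n G par → ∀ v < n,
      ((adjL I v).filter (fun c => c ≠ par v)).Nodup ∧
      (∀ c, c ∈ (adjL I v).filter (fun c => c ≠ par v) ↔ c < n ∧ par c = v) ∧
      (∀ u ∈ adjL I v, u < n) ∧
      ((adjL I v).filter (fun c => c ≠ par v)).length =
        (I (v + 1) - I v) - (if 0 < v then 1 else 0)

/-! ### The window -/

/-- Radius of the window. -/
def R : ℕ := 40

/-- One step of the window, free part. The index `i` stands for the deviation `i - (R + 2)` from the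
sum of the base choices `y`. -/
def stepF (m : ℕ → ℕ) (y : ℕ) (F : ℕ → ℕ) : ℕ → ℕ := fun i =>
  if 2 ≤ i ∧ i ≤ 2 * R + 2 then (Finset.range 3).sup (fun x => eadd (F (i + y - x)) (m x)) else 0

/-- One step of the window, covered part. -/
def stepC (m c : ℕ → ℕ) (y : ℕ) (F C : ℕ → ℕ) : ℕ → ℕ := fun i =>
  if 2 ≤ i ∧ i ≤ 2 * R + 2 then
    (Finset.range 3).sup (fun x => max (eadd (C (i + y - x)) (m x)) (eadd (F (i + y - x)) (c x)))
  else 0

/-- The steps of the window for the list of the children. -/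
def win (M C : ℕ → ℕ → ℕ) (y : ℕ → ℕ) : List ℕ → (ℕ → ℕ) → (ℕ → ℕ) → (ℕ → ℕ) × (ℕ → ℕ)
  | [], F, D => (F, D)
  | c :: cs, F, D => win M C y cs (stepF (M c) (y c) F) (stepC (M c) (C c) (y c) F D)

/-- Start of the window. -/
def F0 : ℕ → ℕ := fun i => if i = R + 2 then 1 else 0

/-- Value of the window at the sum `X`, if the base choice has the sum `Y`. -/
def finE (F : ℕ → ℕ) (Y X : ℕ) : ℕ :=
  (Finset.Icc 2 (2 * R + 2)).sup (fun i => if Y + i = X + R + 2 then F i else 0)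

/-- Best value of the window at the sums `≥ X`. -/
def finG (F : ℕ → ℕ) (Y X : ℕ) : ℕ :=
  (Finset.Icc 2 (2 * R + 2)).sup (fun i => if X + R + 2 ≤ Y + i then F i else 0)

/-- `y` is a good base choice: optimal for a Lagrange multiplier `μ / 2`, except perhaps at one
member `h`, and the sum of the base choice is either near the wanted sum `k + 1` (`k` the length of
the list), or as large as possible, or (for `T = 0`) large and `μ = 0`, or (for `T = 1`) as small
as possible. (If a member of the list has no possible value at all, everything is allowed.) -/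
def BaseProp (T : ℕ) (M : ℕ → ℕ → ℕ) (cs : List ℕ) (y : ℕ → ℕ) : Prop :=
  (∀ c ∈ cs, y c ≤ 2) ∧
  ((∃ c ∈ cs, ∀ x ≤ 2, M c x = 0) ∨ ∃ (h : ℕ) (μ : ℤ),
    (∀ c ∈ cs, c ≠ h → M c (y c) ≠ 0 ∧ ∀ x ≤ 2, M c x ≠ 0 →
      2 * (M c x : ℤ) - μ * x ≤ 2 * (M c (y c) : ℤ) - μ * (y c : ℤ)) ∧
    ((cs.length + 1 ≤ (cs.map y).sum ∧ (cs.map y).sum ≤ cs.length + 2 ∧ (T = 0 → μ ≤ 0)) ∨
     ((cs.map y).sum ≤ cs.length + 2 ∧ (T = 0 → μ ≤ 0) ∧
        ∀ c ∈ cs, c ≠ h → ∀ x ≤ 2, M c x ≠ 0 → x ≤ y c) ∨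
     (cs.length + 3 ≤ (cs.map y).sum ∧ T = 0 ∧ μ = 0) ∨
     (cs.length + 3 ≤ (cs.map y).sum ∧ T = 1 ∧
        ∀ c ∈ cs, c ≠ h → ∀ x ≤ 2, M c x ≠ 0 → y c ≤ x)))

/-- LOCAL: the window finds the optimum. -/
def S_LOC : Prop :=
  ∀ (T : ℕ) (M C : ℕ → ℕ → ℕ) (cs : List ℕ) (y : ℕ → ℕ), cs.Nodup →
    (∀ c ∈ cs, ∀ x ≤ 2, C c x ≤ M c x) → BaseProp T M cs y →
    (T = 1 → ∀ X, cs.length ≤ X + 1 → X ≤ cs.length + 3 →
      finE (win M C y cs F0 (fun _ => 0)).1 (cs.map y).sum X = optF M cs X) ∧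
    (T = 0 → ∀ X, cs.length ≤ X → X ≤ cs.length + 4 →
      finG (win M C y cs F0 (fun _ => 0)).1 (cs.map y).sum X =
        (Finset.Icc X (2 * cs.length)).sup (optF M cs) ∧
      finG (win M C y cs F0 (fun _ => 0)).2 (cs.map y).sum X =
        (Finset.Icc X (2 * cs.length)).sup (optC M C cs))

/-- Least optimal value for the multiplier `μ / 2` (`0` if `m` vanishes on `{0, 1, 2}`). -/
def am (m : ℕ → ℕ) (μ : ℤ) : ℕ :=
  if m 0 ≠ 0 ∧ (m 1 ≠ 0 → 2 * (m 1 : ℤ) - μ ≤ 2 * m 0) ∧ (m 2 ≠ 0 → 2 * (m 2 : ℤ) - 2 * μ ≤ 2 * m 0)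
  then 0
  else if m 1 ≠ 0 ∧ (m 2 ≠ 0 → 2 * (m 2 : ℤ) - 2 * μ ≤ 2 * m 1 - μ) then 1
  else if m 2 ≠ 0 then 2 else 0

/-- `y` is an optimal value for the multiplier `μ / 2`. -/
def IsOpt (m : ℕ → ℕ) (μ : ℤ) (y : ℕ) : Prop :=
  y ≤ 2 ∧ m y ≠ 0 ∧ ∀ x ≤ 2, m x ≠ 0 → 2 * (m x : ℤ) - μ * x ≤ 2 * (m y : ℤ) - μ * (y : ℤ)

/-- BREAKPOINTS of `am m`: for `B`-bounded differences. -/
def S_BRK : Prop :=
  ∀ m : ℕ → ℕ, (∃ x ≤ 2, m x ≠ 0) →
    (∀ μ, IsOpt m μ (am m μ) ∧ ∀ y, IsOpt m μ y → am m μ ≤ y) ∧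
    (∀ μ, IsOpt m μ (am m (μ - 1))) ∧
    (∀ μ, am m μ ≤ am m (μ - 1)) ∧
    (∀ μ, am m μ ≠ am m (μ - 1) →
      (m 0 ≠ 0 ∧ m 1 ≠ 0 ∧ μ = 2 * ((m 1 : ℤ) - m 0)) ∨
      (m 1 ≠ 0 ∧ m 2 ≠ 0 ∧ μ = 2 * ((m 2 : ℤ) - m 1)) ∨
      (m 0 ≠ 0 ∧ m 2 ≠ 0 ∧ μ = (m 2 : ℤ) - m 0)) ∧
    (∀ B : ℕ, (∀ x ≤ 2, m x ≤ B + 1) → ∀ x ≤ 2, m x ≠ 0 →
      (∀ μ : ℤ, μ < -(2 * B) → x ≤ am m μ) ∧ (∀ μ : ℤ, 2 * B ≤ μ → am m μ ≤ x))

end Pool.Agent.L7h11.UM
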