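import Mathlib
import Pool.Agent.L7h11.UM.Lang
import Pool.Agent.L7h11.UM.Tree

/-!
# The algorithm: contracts of its parts, and the final statement

Variables: `0`: `n` (at the end: the output); `1`: `t = 2 ^ j`; `2`: `j`; `3`: a vertex; `4, ..., 9`:
main loop; parts use variables `≥ 10` for themselves.

Arrays: `0`: input; `1`: `ord`; `2`: `par`; `3`: sizes; `6`: heads of the lists of the classes;
`7`: links of these lists; `10 + 3 a + b`: `tabP`; `20 + 3 a + b`: `tabQ 0`; `30 + 3 a + b`: `tabQ 1`;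
`40 + 2 a + T`: base choices for the parent value `a` and the tightness `T` of the parent;
`50 + 2 a + T`: their sums; `60 + q`: heads of the buckets, `63 + q`: links of the buckets
(`q = 0, 1, 2`); `70, 71, 72, 73`: windows.

Linked lists store `v + 1` for the vertex `v`, and `0` for the end.
-/

set_option autoImplicit false

namespace Pool.Agent.L7h11.UM

/-- `Chain nx h l`: the linked list with head `h` and links `nx` is `l`. -/
def Chain (nx : ℕ → ℕ) : ℕ → List ℕ → Prop
  | h, [] => h = 0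
  | h, c :: l => h = c + 1 ∧ Chain nx (nx c) l

/-- The children of `v` in the order of the adjacency list. -/
def chl (I par : ℕ → ℕ) (v : ℕ) : List ℕ := (adjL I v).filter (fun c => c ≠ par v)

/-- The vertices of the class `j` (subtree size in `[2 ^ j, 2 ^ (j + 1))`), in the reverse of the
order `ord`. -/
noncomputable def clsL (n : ℕ) (ord par : ℕ → ℕ) (j : ℕ) : List ℕ :=
  ((List.range n).map (fun i => ord (n - 1 - i))).filter
    (fun v => decide (2 ^ j ≤ sz n par v ∧ sz n par v < 2 ^ (j + 1)))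

/-- Static facts on the data (given by `S_ADJ`). -/
structure Dat (n : ℕ) (I ord par : ℕ → ℕ) : Prop where
  root : Rooting n ord par
  first : I 0 = n + 1
  mono : ∀ v < n, I v ≤ I (v + 1)
  last : I n = 3 * n - 1
  lt : ∀ v < n, ∀ u ∈ adjL I v, u < n
  nodup : ∀ v < n, (chl I par v).Nodup
  mem : ∀ v < n, ∀ c, c ∈ chl I par v ↔ c < n ∧ par c = v
  len : ∀ v < n, (chl I par v).length = (I (v + 1) - I v) - (if 0 < v then 1 else 0)

/-- The state after the first two phases. -/
structure Ctx (n : ℕ) (I ord par : ℕ → ℕ) (s : S) : Prop where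
  v0 : s.var 0 = n
  a0 : s.arr 0 = I
  a1 : s.arr 1 = ord
  a2 : s.arr 2 = par
  a3 : ∀ v < n, s.arr 3 v = sz n par v
  cls : ∀ j, 2 ^ j ≤ n → Chain (s.arr 7) (s.arr 6 j) (clsL n ord par j)

/-- The tables of `v` are computed. -/
def TabOK (n : ℕ) (par : ℕ → ℕ) (s : S) (v : ℕ) : Prop :=
  ∀ a ≤ 2, ∀ b ≤ 2, s.arr (10 + 3 * a + b) v = tabP n par v a b ∧
    s.arr (20 + 3 * a + b) v = tabQ n par 0 v a b ∧ s.arr (30 + 3 * a + b) v = tabQ n par 1 v a b

/-- The base choices for `v` are computed. -/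
def BaseOK (n : ℕ) (I par : ℕ → ℕ) (a T : ℕ) (s : S) (v : ℕ) : Prop :=
  BaseProp T (MM n par a T) (chl I par v) (s.arr (40 + 2 * a + T)) ∧
    s.arr (50 + 2 * a + T) v = ((chl I par v).map (s.arr (40 + 2 * a + T))).sum

/-- Work at the class `j`. -/
noncomputable def work (n : ℕ) (I ord par : ℕ → ℕ) (j : ℕ) : ℕ :=
  2 ^ j + ((clsL n ord par j).map (fun v => (adjL I v).length + 1)).sum

/-- PHASE 1: breadth first search from `0`. `par 0 = n`. Loop: `i < cnt`; `v = ord i`; for all
`k` with `I v ≤ k < I (v + 1)`: `u = I k`; if `u ≠ par v` then `par u := v; ord cnt := u;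
cnt := cnt + 1`. (Invariants: the first `cnt` entries of `ord` are different; `par` of each of them
except `0` is an earlier entry and a neighbour; all neighbours of the first `i` entries are among
the first `cnt`. A new `u` is not among the first `cnt` entries because of acyclicity: `G` is a
tree, so the edges found so far form a tree on the visited vertices, and another edge would close a
cycle; with `n - 1` edges in all one may also count.) -/
def S_PH1 : Prop :=
  ∃ (c : Cm) (C : ℕ), ∀ (n : ℕ) (G : SimpleGraph (Fin n)) (I : ℕ → ℕ) (W : ℕ), 1 ≤ n →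
    G.IsTree → IsAdjacencyList n G I → C * (n + 1) ≤ W →
    Ht (64 * (n + 1)) W c (Init n I) (C * n) (fun s => s.var 0 = n ∧ s.arr 0 = I ∧
      Rooting n (s.arr 1) (s.arr 2) ∧ AdjPar n G (s.arr 2) ∧ ∀ q, 3 ≤ q → s.arr q = fun _ => 0)

/-- PHASE 2: sizes (in the reverse order of `ord`: `sz v` starts with `1` and is added to
`sz (par v)`), logarithms (array `5`: `lg i = j` for `2 ^ j ≤ i < 2 ^ (j + 1)`, `i ≤ n`), lists of
the classes (for `i = 0, ..., n - 1`: `v = ord i` is put in front of the list number `lg (sz v)`). -/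
def S_PH2 : Prop :=
  ∃ (c : Cm) (C : ℕ), ∀ (n W : ℕ) (s : S), 1 ≤ n → C * (n + 1) ≤ W → s.var 0 = n →
    Rooting n (s.arr 1) (s.arr 2) → (∀ q, 3 ≤ q → s.arr q = fun _ => 0) →
    Ht (64 * (n + 1)) W c s (C * n) (fun s' => s'.var 0 = n ∧ s'.arr 0 = s.arr 0 ∧
      s'.arr 1 = s.arr 1 ∧ s'.arr 2 = s.arr 2 ∧ (∀ v < n, s'.arr 3 v = sz n (s.arr 2) v) ∧
      ∀ j, 2 ^ j ≤ n → Chain (s'.arr 7) (s'.arr 6 j) (clsL n (s.arr 1) (s.arr 2) j))

/-- `c` is a light child of a vertex of the class `j`. -/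
def LightC (n : ℕ) (par : ℕ → ℕ) (j c : ℕ) : Prop :=
  c < n ∧ par c < n ∧ 2 ^ j ≤ sz n par (par c) ∧ sz n par (par c) < 2 ^ (j + 1) ∧
    sz n par c < 2 ^ j

/-- `κ` is the place (shifted by `4 t`) of the breakpoint of kind `q` of the table `m`. -/
def KeyAt (m : ℕ → ℕ) (q t κ : ℕ) : Prop :=
  (q = 0 ∧ m 0 ≠ 0 ∧ m 1 ≠ 0 ∧ κ + 2 * m 0 = 4 * t + 2 * m 1) ∨
  (q = 1 ∧ m 1 ≠ 0 ∧ m 2 ≠ 0 ∧ κ + 2 * m 1 = 4 * t + 2 * m 2) ∨
  (q = 2 ∧ m 0 ≠ 0 ∧ m 2 ≠ 0 ∧ κ + m 0 = 4 * t + m 2)

/-- State after the initialization for the class `j` and the pair `a, T`: base choices (as large as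
possible for light children, `1` for the heavy child), their sums, and the buckets. -/
structure Ini (n : ℕ) (I ord par : ℕ → ℕ) (a T j : ℕ) (s : S) : Prop where
  yl : ∀ c, LightC n par j c →
    s.arr (40 + 2 * a + T) c = am (MM n par a T c) (-(4 * 2 ^ j : ℕ) : ℤ)
  yh : ∀ v ∈ clsL n ord par j, ∀ c ∈ chl I par v, 2 ^ j ≤ sz n par c →
    s.arr (40 + 2 * a + T) c = 1
  sum : ∀ v ∈ clsL n ord par j,
    s.arr (50 + 2 * a + T) v = ((chl I par v).map (s.arr (40 + 2 * a + T))).sum
  bk : ∀ q < 3, ∀ κ ≤ 8 * 2 ^ j, ∃ l : List ℕ, Chain (s.arr (63 + q)) (s.arr (60 + q) κ) l ∧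
    l.Nodup ∧ ∀ c, c ∈ l ↔ LightC n par j c ∧ KeyAt (MM n par a T c) q (2 ^ j) κ

/-- The frame of the parts `INI` and `SWE`. -/
def Frame (a T : ℕ) (s s' : S) : Prop :=
  (∀ x < 10, s'.var x = s.var x) ∧
    ∀ q, q ≠ 40 + 2 * a + T → q ≠ 50 + 2 * a + T → ¬ (60 ≤ q ∧ q < 70) → s'.arr q = s.arr q

/-- INITIALIZATION for the class `j` and the pair `a, T`: clear the buckets `0, ..., 8 t`; for all
`v` in the list of the class (start `arr 6 j`, links `arr 7`): `Y v := 0`; for all `k` with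
`I v ≤ k < I (v + 1)`, `c = I k ≠ par v`: if `sz c < t` then, with `m x = max (tabP c x a)
(tabQ T c x a)` (expressions in the arrays `10 + 3 x + a`, `20 + 3 x + a` or `30 + 3 x + a` at `c`),
the base choice of `c` is the largest `x` with `m x ≠ 0` (else `0`), it is added to `Y v`, and `c`
is put into the buckets given by its keys (at most one for every `q`); otherwise the base choice is
`1`. Use `S_SIZ` for the bounds `m x ≤ 2 (t - 1) + 1` of the light children (so the keys are in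
`[0, 8 t]`) and `S_BRK` for `am (-4 t)`. -/
def S_INI : Prop :=
  ∀ a ≤ 2, ∀ T ≤ 1, ∃ (c : Cm) (C : ℕ), ∀ (n : ℕ) (I ord par : ℕ → ℕ) (W j : ℕ) (s : S),
    Dat n I ord par → C * (n + 1) ≤ W → Ctx n I ord par s → 2 ^ j ≤ n → s.var 1 = 2 ^ j →
    s.var 2 = j → (∀ v < n, sz n par v < 2 ^ j → TabOK n par s v) →
    Ht (64 * (n + 1)) W c s (C * work n I ord par j)
      (fun s' => Frame a T s s' ∧ Ini n I ord par a T j s')

/-- SWEEP: for `κ = 0, ..., 8 t`, for `q = 0, 1, 2`, for all `c` in the bucket `(q, κ)`: `v = par c`;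
if `Y v > k + 2` (`k` the number of children of `v`, which is `I (v + 1) - I v`, minus one if
`v > 0`) and (`T = 1` or `κ < 4 t`): `y' := am (m c) (κ - 4 t)` (compare the numbers
`2 m x + 4 t x + κ (2 - x)`), `Y v := Y v - (y c - y')`, `y c := y'`.
Invariant between the rounds: for every `v` of the class, either `v` is active (`Y v ≥ k + 3`, and
`T = 1` or `κ ≤ 4 t`) and `y c = am (m c) (κ - 1 - 4 t)` for all light children `c` of `v`, or `v` is
done: `BaseProp` holds. Inside the round `κ` every `y c` of an active `v` is `am (m c) (κ - 1 - 4 t)`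
(and equal to `am (m c) (κ - 4 t)` unless `c` is still in a bucket to be treated, by `S_BRK`) or
`am (m c) (κ - 4 t)`; both are optimal for `μ = κ - 4 t`, so `BaseProp` holds with this `μ` as soon
as `Y v ≤ k + 2` (then `Y v ≥ k + 1`, since one step lowers it by at most `2`). At the end: for
`T = 0` and `Y v ≥ k + 3` all `y c` are `am (m c) (-1)`, optimal for `μ = 0`; for `T = 1` they are
as small as possible. At the beginning (`Y v ≤ k + 2`): as large as possible, `μ = -4 t`. Children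
`c` without possible value (`m c = 0`) make `BaseProp` trivial. -/
def S_SWE : Prop :=
  ∀ a ≤ 2, ∀ T ≤ 1, ∃ (c : Cm) (C : ℕ), ∀ (n : ℕ) (I ord par : ℕ → ℕ) (W j : ℕ) (s : S),
    Dat n I ord par → C * (n + 1) ≤ W → Ctx n I ord par s → 2 ^ j ≤ n → s.var 1 = 2 ^ j →
    s.var 2 = j → (∀ v < n, sz n par v < 2 ^ j → TabOK n par s v) → Ini n I ord par a T j s →
    Ht (64 * (n + 1)) W c s (C * work n I ord par j)
      (fun s' => Frame a T s s' ∧ ∀ v ∈ clsL n ord par j, BaseOK n I par a T s' v)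

/-- TABLES OF ONE VERTEX `v = var 3`: for every `a ≤ 2`, `T ≤ 1`: windows `arr 70` (free) and
`arr 71` (covered), new values in `arr 72`, `arr 73`, by unrolled code over the indices
`0, ..., 2 R + 4` (`Cm.list`), for all `k` with `I v ≤ k < I (v + 1)`, `c = I k ≠ par v`; then the
tables by `S_REC` and `S_LOC` (the number of children is `I (v + 1) - I v`, minus one if `v > 0`). -/
def S_DPV : Prop :=
  ∃ (c : Cm) (C : ℕ), ∀ (n : ℕ) (I ord par : ℕ → ℕ) (W v : ℕ) (s : S),
    Dat n I ord par → C * (n + 1) ≤ W → Ctx n I ord par s → v < n → s.var 3 = v →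
    (∀ c ∈ chl I par v, TabOK n par s c) → (∀ a ≤ 2, ∀ T ≤ 1, BaseOK n I par a T s v) →
    Ht (64 * (n + 1)) W c s (C * ((adjL I v).length + 1)) (fun s' =>
      (∀ x < 10, s'.var x = s.var x) ∧
      (∀ q, ¬ (10 ≤ q ∧ q ≤ 38) → ¬ (70 ≤ q ∧ q < 80) → s'.arr q = s.arr q) ∧
      (∀ q u, u ≠ v → 10 ≤ q → q ≤ 38 → s'.arr q u = s.arr q u) ∧ TabOK n par s' v)

/-- PHASE 4: the main loop: `j := 0; t := 1;` while `t ≤ n`: the commands of `S_INI` and `S_SWE` for
the six pairs `a, T`; then `S_DPV` for all `v` in the list of the class `j` (the heavy child of `v`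
comes before `v` in this list, the other children have smaller classes); `t := t + t`,
`j := j + 1`. -/
def S_PH4 : Prop :=
  ∃ (c : Cm) (C : ℕ), ∀ (n : ℕ) (I ord par : ℕ → ℕ) (W : ℕ) (s : S),
    Dat n I ord par → C * (n + 1) ≤ W → Ctx n I ord par s →
    Ht (64 * (n + 1)) W c s (C * n) (fun s' => s'.var 0 = n ∧ TabOK n par s' 0)

/-- PHASE 5: the output. -/
def S_PH5 : Prop :=
  ∃ (c : Cm) (C : ℕ), ∀ (n : ℕ) (par : ℕ → ℕ) (W : ℕ) (s : S), 1 ≤ n →
    C * (n + 1) ≤ W → s.var 0 = n → TabOK n par s 0 →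
    (∀ r a b, tabP n par 0 a b ≤ 2 * n + 1 ∧ tabQ n par r 0 a b ≤ 2 * n + 1) →
    Ht (64 * (n + 1)) W c s C (fun s' => s'.var 0 =
      ((Finset.range 3).sup fun a => max (tabP n par 0 a 1) (tabQ n par 0 0 a 1)) - 1 - n)

/-- THE THEOREM: a program of the word RAM computes the upper minus domination number of every tree
with `n` vertices, given by adjacency lists, in at most `C n` steps, for every word length `w` with
`2 ^ w ≥ C (n + 1)`. The number `n` is in the register `0`, the memory holds the adjacency lists, all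
other registers and cells are zero; the output is in the register `0`. -/
def S_THM : Prop :=
  ∃ (P : List Pool.Agent.H588R2.Instr) (C : ℕ), ∀ (n w : ℕ) (G : SimpleGraph (Fin n))
    (mem : ℕ → ℕ), 1 ≤ n → G.IsTree → IsAdjacencyList n G mem →
    (∀ i, 3 * n - 1 ≤ i → mem i = 0) → C * (n + 1) ≤ 2 ^ w →
    ∃ out : ℕ, Pool.Agent.H588R2.HaltsWithin w P ⟨0, ⟨fun r => if r = 0 then n else 0, mem⟩⟩
      (C * n) out ∧ IsUpperMinus G out

/-- ASSEMBLY. -/
def S_ASM : Prop :=
  S_COMP → S_ROOT → S_SIZ → S_ADJ → S_PH1 → S_PH2 → S_PH4 → S_PH5 → S_THM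

end Pool.Agent.L7h11.UM
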