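import Mathlib
import Pool.Agent.L7h11.UM.Stm

set_option autoImplicit false

namespace Pool.Agent.L7h11.UM

theorem mono_le {n : ℕ} {G : SimpleGraph (Fin n)} {I : ℕ → ℕ} (h : IsAdjacencyList n G I) :
    ∀ v w, v ≤ w → w ≤ n → I v ≤ I w := by
  intro v w hvw
  induction w, hvw using Nat.le_induction with
  | base => intro _; exact le_rfl
  | succ w hvw ih => intro hw; exact (ih (by omega)).trans (h.mono w (by omega))

/-- All entries of the input are small. -/
theorem input_lt {n : ℕ} {G : SimpleGraph (Fin n)} {I : ℕ → ℕ} (hn : 1 ≤ n)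
    (h : IsAdjacencyList n G I) (hl : I n = 3 * n - 1) (h0 : ∀ i, 3 * n - 1 ≤ i → I i = 0) (i : ℕ) :
    I i ≤ 3 * n := by
  by_cases h1 : i ≤ n
  · have := mono_le h i n h1 le_rfl
    omega
  · by_cases h2 : 3 * n - 1 ≤ i
    · rw [h0 i h2]; omega
    · -- find the vertex
      have hex : ∃ v, v < n ∧ I v ≤ i ∧ i < I (v + 1) := by
        by_contra hcon
        push_neg at hcon
        have : ∀ v, v ≤ n → I v ≤ i := by
          intro v
          induction v with
          | zero => intro _; rw [h.first]; omega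
          | succ v ih => intro hv; exact hcon v (by omega) (ih (by omega))
        have := this n le_rfl
        omega
      obtain ⟨v, hv, h3, h4⟩ := hex
      have hmem : I i ∈ adjL I v := by
        unfold adjL
        refine List.mem_map.2 ⟨i, ?_, rfl⟩
        rw [List.mem_range'_1]
        omega
      obtain ⟨hlt, _⟩ := (h.mem ⟨v, hv⟩ (I i)).1 hmem
      omega

theorem s_asm : S_ASM := by
  intro hC hRoot hSiz hAdj ⟨c1, C1, h1⟩ ⟨c2, C2, h2⟩ ⟨c4, C4, h4⟩ ⟨c5, C5, h5⟩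
  obtain ⟨P, CP, hP⟩ := hC (.seq c1 (.seq c2 (.seq c4 c5)))
  refine ⟨P, CP * (C1 + C2 + C4 + C5 + 1) + (C1 + C2 + C4 + C5 + CP + 4), ?_⟩
  intro n w G mem hn hG hI h0 hw
  set K := C1 + C2 + C4 + C5 with hK
  have hbig : ∀ D, D ≤ K + CP + 4 → D * (n + 1) ≤ 2 ^ w := by
    intro D hD
    refine le_trans (Nat.mul_le_mul_right _ ?_) hw
    omega
  obtain ⟨hlast, hadj⟩ := hAdj n G mem hn hG hI
  have hmem : ∀ i, mem i < 2 ^ w := by
    intro i
    have := input_lt hn hI hlast h0 i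
    have h := hbig 4 (by omega)
    omega
  have hrun : Ht (64 * (n + 1)) (2 ^ w) (.seq c1 (.seq c2 (.seq c4 c5))) (Init n mem)
      (C1 * n + (C2 * n + (C4 * n + C5))) (fun s => ∃ par, IsUpperMinus G ((((Finset.range 3).sup
        fun a => max (tabP n par 0 a 1) (tabQ n par 0 0 a 1)) - 1 - n : ℕ) : ℤ) ∧ s.var 0 =
      ((Finset.range 3).sup fun a => max (tabP n par 0 a 1) (tabQ n par 0 0 a 1)) - 1 - n) := by
    apply Ht.seq
    refine (h1 n G mem (2 ^ w) hn hG hI (hbig _ (by omega))).mono le_rfl ?_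
    rintro s1 ⟨e1, e2, hR, hA, hz⟩
    apply Ht.seq
    refine (h2 n (2 ^ w) s1 hn (hbig _ (by omega)) e1 hR hz).mono le_rfl ?_
    rintro s2 ⟨f0, f1, f2, f3, f4, f5⟩
    apply Ht.seq
    have hdat : Dat n mem (s1.arr 1) (s1.arr 2) := by
      have := hadj (s1.arr 1) (s1.arr 2) hR hA
      exact ⟨hR, hI.first, hI.mono, hlast, fun v hv => (this v hv).2.2.1,
        fun v hv => (this v hv).1, fun v hv => (this v hv).2.1, fun v hv => (this v hv).2.2.2⟩
    have hctx : Ctx n mem (s1.arr 1) (s1.arr 2) s2 := by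
      refine ⟨f0, by rw [f1, e2], f2, f3, f4, f5⟩
    refine (h4 n mem (s1.arr 1) (s1.arr 2) (2 ^ w) s2 hdat (hbig _ (by omega)) hctx).mono le_rfl ?_
    rintro s4 ⟨g0, g1⟩
    have hS := hSiz n (s1.arr 1) (s1.arr 2) hR
    have hb : ∀ r a b, tabP n (s1.arr 2) 0 a b ≤ 2 * n + 1 ∧
        tabQ n (s1.arr 2) r 0 a b ≤ 2 * n + 1 := by
      obtain ⟨_, hz0, _, _, _, hbP, hbQ⟩ := hS
      intro r a b
      have e1 := hbP 0 (by omega) a b
      have e2 := hbQ 0 (by omega) r a b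
      rw [hz0] at e1 e2
      exact ⟨e1, e2⟩
    refine (h5 n (s1.arr 2) (2 ^ w) s4 hn (hbig _ (by omega)) g0 g1 hb).mono le_rfl ?_
    intro s5 h
    exact ⟨s1.arr 2, (hRoot n G (s1.arr 1) (s1.arr 2) hR hA).2, h⟩
  obtain ⟨s', t, hr, ht, par, hU, hv⟩ := hrun
  have := hP n w mem (hbig _ (by omega)) hmem (fun i hi => h0 i (by omega)) s' t hr
  rw [hv] at this
  refine ⟨_, ?_, hU⟩
  obtain ⟨T, hT, h3⟩ := this
  refine ⟨T, le_trans hT ?_, h3⟩
  have e : CP * (t + 1) ≤ (CP * (K + 1) + (K + CP + 4)) * n := by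
    have e1 : t + 1 ≤ (K + 1) * n := by
      have : C5 ≤ C5 * n := Nat.le_mul_of_pos_right _ hn
      have e2 : (K + 1) * n = C1 * n + C2 * n + C4 * n + C5 * n + n := by rw [hK]; ring
      omega
    calc CP * (t + 1) ≤ CP * ((K + 1) * n) := Nat.mul_le_mul_left _ e1
      _ = CP * (K + 1) * n := by ring
      _ ≤ (CP * (K + 1) + (K + CP + 4)) * n := Nat.mul_le_mul_right _ (by omega)
  exact_mod_cast e

end Pool.Agent.L7h11.UM
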