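import Mathlib
import Pool.Agent.L7h11.UM.Tree

set_option autoImplicit false

namespace Pool.Agent.L7h11.UM

theorem s_brk : S_BRK := by
  intro m hm
  have h3 : ∀ P : ℕ → Prop, (∀ x ≤ 2, P x) ↔ P 0 ∧ P 1 ∧ P 2 := by
    intro P
    constructor
    · intro h; exact ⟨h 0 (by omega), h 1 (by omega), h 2 (by omega)⟩
    · rintro ⟨h0, h1, h2⟩ x hx
      interval_cases x <;> assumption
  have hm' : m 0 ≠ 0 ∨ m 1 ≠ 0 ∨ m 2 ≠ 0 := by
    obtain ⟨x, hx, h⟩ := hm
    interval_cases x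
    · exact Or.inl h
    · exact Or.inr (Or.inl h)
    · exact Or.inr (Or.inr h)
  have hopt : ∀ μ y, IsOpt m μ y ↔ (y = 0 ∧ m 0 ≠ 0 ∧ (m 1 ≠ 0 → 2 * (m 1 : ℤ) - μ ≤ 2 * m 0) ∧
      (m 2 ≠ 0 → 2 * (m 2 : ℤ) - 2 * μ ≤ 2 * m 0)) ∨
      (y = 1 ∧ m 1 ≠ 0 ∧ (m 0 ≠ 0 → 2 * (m 0 : ℤ) ≤ 2 * m 1 - μ) ∧
      (m 2 ≠ 0 → 2 * (m 2 : ℤ) - 2 * μ ≤ 2 * m 1 - μ)) ∨
      (y = 2 ∧ m 2 ≠ 0 ∧ (m 0 ≠ 0 → 2 * (m 0 : ℤ) ≤ 2 * m 2 - 2 * μ) ∧
      (m 1 ≠ 0 → 2 * (m 1 : ℤ) - μ ≤ 2 * m 2 - 2 * μ)) := by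
    intro μ y
    unfold IsOpt
    rw [h3]
    constructor
    · rintro ⟨hy, hy0, g0, g1, g2⟩
      interval_cases y
      · left
        push_cast at g1 g2
        refine ⟨rfl, hy0, fun h => by have := g1 h; omega, fun h => by have := g2 h; omega⟩
      · right; left
        push_cast at g0 g2
        refine ⟨rfl, hy0, fun h => by have := g0 h; omega, fun h => by have := g2 h; omega⟩
      · right; right
        push_cast at g0 g1
        refine ⟨rfl, hy0, fun h => by have := g0 h; omega, fun h => by have := g1 h; omega⟩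
    · rintro (⟨rfl, g, g1, g2⟩ | ⟨rfl, g, g1, g2⟩ | ⟨rfl, g, g1, g2⟩)
      · refine ⟨by omega, g, fun h => le_rfl, fun h => ?_, fun h => ?_⟩
        · have := g1 h; push_cast; omega
        · have := g2 h; push_cast; omega
      · refine ⟨by omega, g, fun h => ?_, fun h => le_rfl, fun h => ?_⟩
        · have := g1 h; push_cast; omega
        · have := g2 h; push_cast; omega
      · refine ⟨by omega, g, fun h => ?_, fun h => ?_, fun h => le_rfl⟩
        · have := g1 h; push_cast; omega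
        · have := g2 h; push_cast; omega
  refine ⟨?_, ?_, ?_, ?_, ?_⟩
  · intro μ
    constructor
    · rw [hopt]
      unfold am
      split_ifs with c1 c2 c3 <;> by_cases z0 : m 0 = 0 <;> by_cases z1 : m 1 = 0 <;>
        by_cases z2 : m 2 = 0 <;> simp_all <;> omega
    · intro y hy
      rw [hopt] at hy
      unfold am
      split_ifs with c1 c2 c3 <;> by_cases z0 : m 0 = 0 <;> by_cases z1 : m 1 = 0 <;>
        by_cases z2 : m 2 = 0 <;> simp_all <;> omega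
  · intro μ
    rw [hopt]
    unfold am
    split_ifs with c1 c2 c3 <;> by_cases z0 : m 0 = 0 <;> by_cases z1 : m 1 = 0 <;>
      by_cases z2 : m 2 = 0 <;> simp_all <;> omega
  · intro μ
    unfold am
    split_ifs with c1 c2 c3 c4 c5 c6 c7 c8 c9 <;> by_cases z0 : m 0 = 0 <;>
      by_cases z1 : m 1 = 0 <;> by_cases z2 : m 2 = 0 <;> simp_all <;> omega
  · intro μ hne
    unfold am at hne
    split_ifs at hne with c1 c2 c3 c4 c5 c6 c7 c8 c9 <;> by_cases z0 : m 0 = 0 <;>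
      by_cases z1 : m 1 = 0 <;> by_cases z2 : m 2 = 0 <;> simp_all <;> omega
  · intro B hB
    rw [h3] at hB
    obtain ⟨b0, b1, b2⟩ := hB
    intro x hx hx0
    refine ⟨fun μ hμ => ?_, fun μ hμ => ?_⟩ <;> unfold am <;> interval_cases x <;>
      split_ifs with c1 c2 c3 <;> by_cases z0 : m 0 = 0 <;>
      by_cases z1 : m 1 = 0 <;> by_cases z2 : m 2 = 0 <;> simp_all <;> omega

end Pool.Agent.L7h11.UM
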