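import Mathlib
import Pool.Agent.L7h11.UM.Tree

set_option autoImplicit false

namespace Pool.Agent.L7h11.UM

theorem eadd_pos {x y m : ℕ} : eadd x y = m + 1 ↔ ∃ a b, x = a + 1 ∧ y = b + 1 ∧ m = a + b := by
  unfold eadd
  constructor
  · intro h
    split_ifs at h with h0
    push Not at h0
    exact ⟨x - 1, y - 1, by omega, by omega, by omega⟩
  · rintro ⟨a, b, rfl, rfl, rfl⟩
    rw [if_neg (by omega)]
    omega

theorem eadd_le {x y a b : ℕ} (hx : a + 1 ≤ x) (hy : b + 1 ≤ y) : a + b + 1 ≤ eadd x y := by
  unfold eadd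
  rw [if_neg (by omega)]
  omega

theorem eadd_zero_right (x : ℕ) : eadd x 0 = 0 := by simp [eadd]

theorem eadd_zero_left (x : ℕ) : eadd 0 x = 0 := by simp [eadd]

theorem eadd_mono {x x' y y' : ℕ} (hx : x ≤ x') (hy : y ≤ y') : eadd x y ≤ eadd x' y' := by
  unfold eadd
  split_ifs <;> omega

/-- Choices give lower bounds. -/
theorem le_optF {M : ℕ → ℕ → ℕ} : ∀ {cs : List ℕ} {x w : ℕ → ℕ}, (∀ c ∈ cs, x c ≤ 2) →
    (∀ c ∈ cs, w c + 1 ≤ M c (x c)) → (cs.map w).sum + 1 ≤ optF M cs (cs.map x).sum := by
  intro cs
  induction cs with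
  | nil => intro x w _ _; simp [optF]
  | cons c cs ih =>
    intro x w hx hw
    have h1 := ih (x := x) (w := w) (fun c hc => hx c (List.mem_cons_of_mem _ hc))
      (fun c hc => hw c (List.mem_cons_of_mem _ hc))
    have h2 := hw c List.mem_cons_self
    have h3 : (fun y => if y ≤ ((c :: cs).map x).sum then
        eadd (M c y) (optF M cs (((c :: cs).map x).sum - y)) else 0) (x c) ≤
        optF M (c :: cs) ((c :: cs).map x).sum := by
      rw [optF]
      exact Finset.le_sup (f := fun y => if y ≤ ((c :: cs).map x).sum then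
        eadd (M c y) (optF M cs (((c :: cs).map x).sum - y)) else 0)
        (Finset.mem_range.2 (by have := hx c List.mem_cons_self; omega))
    refine le_trans ?_ h3
    simp only [List.map_cons, List.sum_cons]
    rw [if_pos (by omega)]
    have e : x c + (cs.map x).sum - x c = (cs.map x).sum := by omega
    rw [e]
    have := eadd_le h2 h1
    omega

theorem le_optC {M C : ℕ → ℕ → ℕ} : ∀ {cs : List ℕ} {x w : ℕ → ℕ} {j : ℕ}, j ∈ cs →
    (∀ c ∈ cs, x c ≤ 2) → (∀ c ∈ cs, w c + 1 ≤ M c (x c)) → w j + 1 ≤ C j (x j) →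
    (cs.map w).sum + 1 ≤ optC M C cs (cs.map x).sum := by
  intro cs
  induction cs with
  | nil => intro x w j hj; simp at hj
  | cons c cs ih =>
    intro x w j hj hx hw hC
    have h2 := hw c List.mem_cons_self
    have h3 : (fun y => if y ≤ ((c :: cs).map x).sum then
        max (eadd (M c y) (optC M C cs (((c :: cs).map x).sum - y)))
          (eadd (C c y) (optF M cs (((c :: cs).map x).sum - y))) else 0) (x c) ≤
        optC M C (c :: cs) ((c :: cs).map x).sum := by
      rw [optC]
      exact Finset.le_sup (f := fun y => if y ≤ ((c :: cs).map x).sum then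
        max (eadd (M c y) (optC M C cs (((c :: cs).map x).sum - y)))
          (eadd (C c y) (optF M cs (((c :: cs).map x).sum - y))) else 0)
        (Finset.mem_range.2 (by have := hx c List.mem_cons_self; omega))
    refine le_trans ?_ h3
    simp only [List.map_cons, List.sum_cons]
    rw [if_pos (by omega)]
    have e : x c + (cs.map x).sum - x c = (cs.map x).sum := by omega
    rw [e]
    rcases List.mem_cons.1 hj with rfl | hj
    · have h1 := le_optF (M := M) (cs := cs) (x := x) (w := w)
        (fun c hc => hx c (List.mem_cons_of_mem _ hc))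
        (fun c hc => hw c (List.mem_cons_of_mem _ hc))
      have := eadd_le hC h1
      refine le_trans ?_ (le_max_right _ _)
      omega
    · have h1 := ih (x := x) (w := w) hj (fun c hc => hx c (List.mem_cons_of_mem _ hc))
        (fun c hc => hw c (List.mem_cons_of_mem _ hc)) hC
      have := eadd_le h2 h1
      refine le_trans ?_ (le_max_left _ _)
      omega

theorem map_update_sum {cs : List ℕ} {c : ℕ} (hc : c ∉ cs) (x : ℕ → ℕ) (y : ℕ) :
    (cs.map (Function.update x c y)).sum = (cs.map x).sum := by
  congr 1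
  refine List.map_congr_left fun d hd => ?_
  rw [Function.update_of_ne]
  rintro rfl
  exact hc hd

/-- The optimum is attained. -/
theorem optF_spec {M : ℕ → ℕ → ℕ} : ∀ {cs : List ℕ} {X m : ℕ}, cs.Nodup → optF M cs X = m + 1 →
    ∃ x w : ℕ → ℕ, (∀ c ∈ cs, x c ≤ 2) ∧ (∀ c ∈ cs, M c (x c) = w c + 1) ∧
      (cs.map x).sum = X ∧ (cs.map w).sum = m := by
  intro cs
  induction cs with
  | nil =>
    intro X m _ h
    simp only [optF] at h
    split_ifs at h with h0
    exact ⟨fun _ => 0, fun _ => 0, by simp, by simp, by simp [h0], by simp; omega⟩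
  | cons c cs ih =>
    intro X m hn h
    rw [List.nodup_cons] at hn
    rw [optF] at h
    obtain ⟨y, hy, he⟩ := Finset.exists_mem_eq_sup (Finset.range 3) (by simp)
      (fun y => if y ≤ X then eadd (M c y) (optF M cs (X - y)) else 0)
    rw [he] at h
    split_ifs at h with hyX
    obtain ⟨a, b, h1, h2, h3⟩ := eadd_pos.1 h
    obtain ⟨x, w, g1, g2, g3, g4⟩ := ih hn.2 h2
    have hne : ∀ d ∈ cs, d ≠ c := fun d hd hdc => hn.1 (hdc ▸ hd)
    refine ⟨Function.update x c y, Function.update w c a, ?_, ?_, ?_, ?_⟩
    · intro d hd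
      rcases List.mem_cons.1 hd with rfl | hd
      · rw [Function.update_self]; rw [Finset.mem_range] at hy; omega
      · rw [Function.update_of_ne (hne d hd)]; exact g1 d hd
    · intro d hd
      rcases List.mem_cons.1 hd with rfl | hd
      · rw [Function.update_self, Function.update_self]; exact h1
      · rw [Function.update_of_ne (hne d hd), Function.update_of_ne (hne d hd)]; exact g2 d hd
    · rw [List.map_cons, List.sum_cons, Function.update_self, map_update_sum hn.1, g3]; omega
    · rw [List.map_cons, List.sum_cons, Function.update_self, map_update_sum hn.1, g4]; omega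

theorem optC_spec {M C : ℕ → ℕ → ℕ} : ∀ {cs : List ℕ} {X m : ℕ}, cs.Nodup →
    optC M C cs X = m + 1 →
    ∃ (j : ℕ) (x w : ℕ → ℕ), j ∈ cs ∧ (∀ c ∈ cs, x c ≤ 2) ∧
      (∀ c ∈ cs, c ≠ j → M c (x c) = w c + 1) ∧ C j (x j) = w j + 1 ∧
      (cs.map x).sum = X ∧ (cs.map w).sum = m := by
  intro cs
  induction cs with
  | nil =>
    intro X m _ h
    simp [optC] at h
  | cons c cs ih =>
    intro X m hn h
    rw [List.nodup_cons] at hn
    rw [optC] at h
    obtain ⟨y, hy, he⟩ := Finset.exists_mem_eq_sup (Finset.range 3) (by simp)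
      (fun y => if y ≤ X then max (eadd (M c y) (optC M C cs (X - y)))
        (eadd (C c y) (optF M cs (X - y))) else 0)
    rw [he] at h
    split_ifs at h with hyX
    rw [Finset.mem_range] at hy
    have hne : ∀ d ∈ cs, d ≠ c := fun d hd hdc => hn.1 (hdc ▸ hd)
    rcases max_choice (eadd (M c y) (optC M C cs (X - y))) (eadd (C c y) (optF M cs (X - y)))
      with hm | hm
    · rw [hm] at h
      obtain ⟨a, b, h1, h2, h3⟩ := eadd_pos.1 h
      obtain ⟨j, x, w, g0, g1, g2, g2', g3, g4⟩ := ih hn.2 h2
      refine ⟨j, Function.update x c y, Function.update w c a, List.mem_cons_of_mem _ g0,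
        ?_, ?_, ?_, ?_, ?_⟩
      · intro d hd
        rcases List.mem_cons.1 hd with rfl | hd
        · rw [Function.update_self]; omega
        · rw [Function.update_of_ne (hne d hd)]; exact g1 d hd
      · intro d hd hdj
        rcases List.mem_cons.1 hd with rfl | hd
        · rw [Function.update_self, Function.update_self]; exact h1
        · rw [Function.update_of_ne (hne d hd), Function.update_of_ne (hne d hd)]
          exact g2 d hd hdj
      · rw [Function.update_of_ne (hne j g0), Function.update_of_ne (hne j g0)]; exact g2'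
      · rw [List.map_cons, List.sum_cons, Function.update_self, map_update_sum hn.1, g3]; omega
      · rw [List.map_cons, List.sum_cons, Function.update_self, map_update_sum hn.1, g4]; omega
    · rw [hm] at h
      obtain ⟨a, b, h1, h2, h3⟩ := eadd_pos.1 h
      obtain ⟨x, w, g1, g2, g3, g4⟩ := optF_spec hn.2 h2
      refine ⟨c, Function.update x c y, Function.update w c a, List.mem_cons_self,
        ?_, ?_, ?_, ?_, ?_⟩
      · intro d hd
        rcases List.mem_cons.1 hd with rfl | hd
        · rw [Function.update_self]; omega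
        · rw [Function.update_of_ne (hne d hd)]; exact g1 d hd
      · intro d hd hdj
        rcases List.mem_cons.1 hd with rfl | hd
        · exact absurd rfl hdj
        · rw [Function.update_of_ne (hne d hd), Function.update_of_ne (hne d hd)]
          exact g2 d hd
      · rw [Function.update_self, Function.update_self]; exact h1
      · rw [List.map_cons, List.sum_cons, Function.update_self, map_update_sum hn.1, g3]; omega
      · rw [List.map_cons, List.sum_cons, Function.update_self, map_update_sum hn.1, g4]; omega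

/-- Members give lower bounds for the encoded maximum. -/
theorem le_encS {A : Set ℕ} {B : ℕ} (hB : ∀ a ∈ A, a ≤ B) {a : ℕ} (ha : a ∈ A) :
    a + 1 ≤ encS A := by
  unfold encS
  refine le_csSup ⟨B + 1, ?_⟩ ⟨a, ha, rfl⟩
  rintro m ⟨a, ha, rfl⟩
  have := hB a ha
  omega

/-- The encoded maximum is attained. -/
theorem encS_spec {A : Set ℕ} {B : ℕ} (hB : ∀ a ∈ A, a ≤ B) {m : ℕ} (h : encS A = m + 1) :
    m ∈ A := by
  unfold encS at h
  have hne : {m | ∃ a ∈ A, m = a + 1}.Nonempty := by
    by_contra hcon
    rw [Set.not_nonempty_iff_eq_empty] at hcon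
    rw [hcon] at h
    simp at h
  have hbd : BddAbove {m | ∃ a ∈ A, m = a + 1} := by
    refine ⟨B + 1, ?_⟩
    rintro m ⟨a, ha, rfl⟩
    have := hB a ha
    omega
  have := Nat.sSup_mem hne hbd
  rw [h] at this
  obtain ⟨a, ha, h2⟩ := this
  have : a = m := by omega
  exact this ▸ ha

end Pool.Agent.L7h11.UM
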