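import Mathlib
import Pool.Agent.L7h11.UM.Tree

set_option autoImplicit false

namespace Pool.Agent.L7h11.UM

/-- The inverse of the order. -/
theorem Rooting.exists_idx {n : ℕ} {ord par : ℕ → ℕ} (h : Rooting n ord par) :
    ∃ idx : ℕ → ℕ, (∀ v < n, idx v < n ∧ ord (idx v) = v) ∧ (∀ i < n, idx (ord i) = i) := by
  have hs : ∀ v, v < n → ∃ i, i < n ∧ ord i = v := by
    have hinj : Function.Injective (fun i : Fin n => (⟨ord i, h.ord_lt i i.2⟩ : Fin n)) := by
      intro i j hij
      have : ord i = ord j := by simpa using hij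
      exact Fin.ext (h.ord_inj i i.2 j j.2 this)
    have hsur := Finite.surjective_of_injective hinj
    intro v hv
    obtain ⟨i, hi⟩ := hsur ⟨v, hv⟩
    exact ⟨i, i.2, by simpa using congrArg Fin.val hi⟩
  classical
  refine ⟨fun v => if hv : v < n then Classical.choose (hs v hv) else 0, ?_, ?_⟩
  · intro v hv
    have := Classical.choose_spec (hs v hv)
    simpa [hv] using this
  · intro i hi
    have hv := h.ord_lt i hi
    have := Classical.choose_spec (hs (ord i) hv)
    simp only [hv, dif_pos]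
    exact h.ord_inj _ this.1 _ hi this.2

/-- Parents come first. -/
theorem Rooting.par_idx {n : ℕ} {ord par : ℕ → ℕ} (h : Rooting n ord par) {idx : ℕ → ℕ}
    (h1 : ∀ v < n, idx v < n ∧ ord (idx v) = v) (h2 : ∀ i < n, idx (ord i) = i) {v : ℕ}
    (hv : v < n) (hp : par v < n ∨ v ≠ 0) : v ≠ 0 ∧ par v < n ∧ idx (par v) < idx v := by
  have hv0 : v ≠ 0 := by
    rcases hp with hp | hp
    · rintro rfl
      rw [h.par_zero] at hp
      omega
    · exact hp
  have hi : idx v ≠ 0 := by
    intro h0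
    have := (h1 v hv).2
    rw [h0, h.ord_zero] at this
    exact hv0 this.symm
  obtain ⟨j, hj, hj'⟩ := h.par_ord (idx v) (by omega) (h1 v hv).1
  rw [(h1 v hv).2] at hj'
  have hjn : j < n := hj.trans (h1 v hv).1
  refine ⟨hv0, ?_, ?_⟩
  · rw [hj']; exact h.ord_lt j hjn
  · rw [hj', h2 j hjn]; exact hj

theorem Desc.trans {n : ℕ} {par : ℕ → ℕ} {v w u : ℕ} (h1 : Desc n par v w) (h2 : Desc n par w u) :
    Desc n par v u := by
  induction h2 with
  | refl => exact h1
  | step hu _ ih => exact .step hu ih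

theorem Desc.lt {n : ℕ} {par : ℕ → ℕ} {v u : ℕ} (h : Desc n par v u) (hv : v < n) : u < n := by
  cases h with
  | refl => exact hv
  | step hu _ => exact hu

theorem Desc.idx_le {n : ℕ} {ord par : ℕ → ℕ} (h : Rooting n ord par) {idx : ℕ → ℕ}
    (h1 : ∀ v < n, idx v < n ∧ ord (idx v) = v) (h2 : ∀ i < n, idx (ord i) = i) {v u : ℕ}
    (hd : Desc n par v u) (hv : v < n) : idx v ≤ idx u := by
  induction hd with
  | refl => exact le_rfl
  | step hu hd ih =>
    have := (h.par_idx h1 h2 hu (Or.inl (hd.lt hv))).2.2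
    omega

theorem Desc.comparable {n : ℕ} {par : ℕ → ℕ} {c c' u : ℕ} (h : Desc n par c u)
    (h' : Desc n par c' u) : Desc n par c c' ∨ Desc n par c' c := by
  induction h with
  | refl => exact Or.inr h'
  | step hu hd ih =>
    cases h' with
    | refl => exact Or.inl (.step hu hd)
    | step _ hd' => exact ih hd'

theorem mem_kids {n : ℕ} {par : ℕ → ℕ} {v c : ℕ} : c ∈ kids n par v ↔ c < n ∧ par c = v := by
  simp [kids]

theorem desc_iff {n : ℕ} {par : ℕ → ℕ} {v u : ℕ} :
    Desc n par v u ↔ u = v ∨ ∃ c ∈ kids n par v, Desc n par c u := by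
  constructor
  · intro h
    induction h with
    | refl => exact Or.inl rfl
    | @step u hu hd ih =>
      right
      rcases ih with ih | ⟨c, hc, hcd⟩
      · exact ⟨u, mem_kids.2 ⟨hu, ih⟩, .refl⟩
      · exact ⟨c, hc, .step hu hcd⟩
  · rintro (rfl | ⟨c, hc, hcd⟩)
    · exact .refl
    · obtain ⟨h1, h2⟩ := mem_kids.1 hc
      refine Desc.trans ?_ hcd
      exact .step h1 (by rw [h2]; exact .refl)

theorem desc_unique {n : ℕ} {ord par : ℕ → ℕ} (h : Rooting n ord par) {v c c' u : ℕ} (hv : v < n)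
    (hc : c ∈ kids n par v) (hc' : c' ∈ kids n par v) (hd : Desc n par c u)
    (hd' : Desc n par c' u) : c = c' := by
  obtain ⟨idx, h1, h2⟩ := h.exists_idx
  by_contra hne
  obtain ⟨a1, a2⟩ := mem_kids.1 hc
  obtain ⟨b1, b2⟩ := mem_kids.1 hc'
  have ha := (h.par_idx h1 h2 a1 (Or.inl (by rw [a2]; exact hv))).2.2
  have hb := (h.par_idx h1 h2 b1 (Or.inl (by rw [b2]; exact hv))).2.2
  rw [a2] at ha
  rw [b2] at hb
  rcases hd.comparable hd' with h3 | h3
  · cases h3 with
    | refl => exact hne rfl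
    | step _ h4 =>
      rw [b2] at h4
      have := h4.idx_le h h1 h2 a1
      omega
  · cases h3 with
    | refl => exact hne rfl
    | step _ h4 =>
      rw [a2] at h4
      have := h4.idx_le h h1 h2 b1
      omega

theorem not_desc_kid {n : ℕ} {ord par : ℕ → ℕ} (h : Rooting n ord par) {v c : ℕ} (hv : v < n)
    (hc : c ∈ kids n par v) : ¬ Desc n par c v := by
  obtain ⟨idx, h1, h2⟩ := h.exists_idx
  obtain ⟨a1, a2⟩ := mem_kids.1 hc
  have ha := (h.par_idx h1 h2 a1 (Or.inl (by rw [a2]; exact hv))).2.2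
  rw [a2] at ha
  intro hd
  have := hd.idx_le h h1 h2 a1
  omega

theorem mem_descF {n : ℕ} {par : ℕ → ℕ} {v u : ℕ} : u ∈ descF n par v ↔ u < n ∧ Desc n par v u := by
  classical
  simp [descF]

theorem descF_eq {n : ℕ} {par : ℕ → ℕ} {v : ℕ} (hv : v < n) :
    descF n par v = insert v ((kids n par v).biUnion (descF n par)) := by
  ext u
  rw [mem_descF, Finset.mem_insert, Finset.mem_biUnion, desc_iff]
  constructor
  · rintro ⟨hu, h | ⟨c, hc, hd⟩⟩
    · exact Or.inl h
    · exact Or.inr ⟨c, hc, mem_descF.2 ⟨hu, hd⟩⟩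
  · rintro (rfl | ⟨c, hc, hd⟩)
    · exact ⟨hv, Or.inl rfl⟩
    · exact ⟨(mem_descF.1 hd).1, Or.inr ⟨c, hc, (mem_descF.1 hd).2⟩⟩

theorem not_mem_descF {n : ℕ} {ord par : ℕ → ℕ} (h : Rooting n ord par) {v : ℕ} (hv : v < n) :
    v ∉ (kids n par v).biUnion (descF n par) := by
  rw [Finset.mem_biUnion]
  rintro ⟨c, hc, hd⟩
  exact not_desc_kid h hv hc (mem_descF.1 hd).2

theorem descF_disj {n : ℕ} {ord par : ℕ → ℕ} (h : Rooting n ord par) {v : ℕ} (hv : v < n) :
    (kids n par v : Set ℕ).PairwiseDisjoint (descF n par) := by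
  intro c hc c' hc' hne
  rw [Function.onFun, Finset.disjoint_left]
  intro u hu hu'
  exact hne (desc_unique h hv (by simpa using hc) (by simpa using hc') (mem_descF.1 hu).2
    (mem_descF.1 hu').2)

/-- Sums over the descendants. -/
theorem sum_descF {n : ℕ} {ord par : ℕ → ℕ} (h : Rooting n ord par) {v : ℕ} (hv : v < n)
    (f : ℕ → ℕ) : ∑ u ∈ descF n par v, f u = f v + ∑ c ∈ kids n par v, ∑ u ∈ descF n par c, f u := by
  rw [descF_eq hv, Finset.sum_insert (not_mem_descF h hv), Finset.sum_biUnion (descF_disj h hv)]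

theorem desc_zero {n : ℕ} {ord par : ℕ → ℕ} (h : Rooting n ord par) : ∀ u < n, Desc n par 0 u := by
  obtain ⟨idx, h1, h2⟩ := h.exists_idx
  have : ∀ k u, u < n → idx u = k → Desc n par 0 u := by
    intro k
    induction k using Nat.strong_induction_on with
    | _ k ih =>
      intro u hu hk
      by_cases h0 : u = 0
      · subst h0; exact .refl
      · obtain ⟨_, h3, h4⟩ := h.par_idx h1 h2 hu (Or.inr h0)
        exact .step hu (ih _ (by omega) (par u) h3 rfl)
  intro u hu
  exact this _ u hu rfl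

theorem encS_le {A : Set ℕ} {B : ℕ} (h : ∀ a ∈ A, a ≤ B) : encS A ≤ B + 1 := by
  unfold encS
  refine csSup_le' ?_
  rintro m ⟨a, ha, rfl⟩
  have := h a ha
  omega

theorem wt_le {n : ℕ} {par : ℕ → ℕ} {v a b : ℕ} {f : ℕ → ℕ} (h : Below n par v a b f) :
    wt n par v f ≤ 2 * sz n par v := by
  unfold wt sz
  calc ∑ u ∈ descF n par v, f u ≤ ∑ u ∈ descF n par v, 2 :=
        Finset.sum_le_sum (fun u hu => (h.2.2 u (mem_descF.1 hu).2).1)
    _ = 2 * (descF n par v).card := by rw [Finset.sum_const, smul_eq_mul, mul_comm]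

theorem s_siz : S_SIZ := by
  intro n ord par h
  have hsz : ∀ v < n, sz n par v = 1 + ∑ c ∈ kids n par v, sz n par c := by
    intro v hv
    unfold sz
    have := sum_descF h hv (fun _ => 1)
    simpa using this
  have h0 : sz n par 0 = n := by
    unfold sz
    have : descF n par 0 = Finset.range n := by
      ext u
      rw [mem_descF, Finset.mem_range]
      exact ⟨fun hh => hh.1, fun hh => ⟨hh, desc_zero h u hh⟩⟩
    rw [this, Finset.card_range]
  have hle : ∀ v < n, 1 ≤ sz n par v ∧ sz n par v ≤ n := by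
    intro v hv
    refine ⟨by rw [hsz v hv]; omega, ?_⟩
    unfold sz
    calc (descF n par v).card ≤ (Finset.range n).card := Finset.card_le_card (fun u hu =>
          Finset.mem_range.2 (mem_descF.1 hu).1)
      _ = n := Finset.card_range n
  refine ⟨hsz, h0, hle, ?_, ?_, ?_, ?_⟩
  · intro v hv c hc
    rw [hsz v hv]
    have := Finset.single_le_sum (f := sz n par) (fun i _ => Nat.zero_le _) hc
    omega
  · intro v hv j hj c hc c' hc' h1 h2
    by_contra hne
    have h3 : sz n par c + sz n par c' ≤ ∑ c ∈ kids n par v, sz n par c := by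
      rw [← Finset.sum_pair hne]
      refine Finset.sum_le_sum_of_subset ?_
      intro x hx
      simp only [Finset.mem_insert, Finset.mem_singleton] at hx
      rcases hx with rfl | rfl <;> assumption
    have h4 := hsz v hv
    have h5 : (2 : ℕ) ^ (j + 1) = 2 * 2 ^ j := by ring
    omega
  · intro v hv a b
    unfold tabP
    refine encS_le ?_
    rintro m ⟨f, hf, _, rfl⟩
    exact wt_le hf
  · intro v hv r a b
    unfold tabQ
    refine encS_le ?_
    rintro m ⟨f, hf, _, _, rfl⟩
    exact wt_le hf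

end Pool.Agent.L7h11.UM
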