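import Mathlib
import Pool.Agent.L7h11.UM.Siz
import Pool.Agent.L7h11.UM.Opt

set_option autoImplicit false

namespace Pool.Agent.L7h11.UM

section Congr

variable {n : ℕ} {par : ℕ → ℕ} {c : ℕ} {f g : ℕ → ℕ}

theorem nb_congr (h : ∀ u, Desc n par c u → f u = g u) (hp : f (par c) = g (par c)) {u : ℕ}
    (hu : Desc n par c u) : nb n par f u = nb n par g u := by
  unfold nb
  have e2 : f (par u) = g (par u) := by
    cases hu with
    | refl => exact hp
    | step _ hd => exact h _ hd
  have e3 : ∑ d ∈ kids n par u, f d = ∑ d ∈ kids n par u, g d := by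
    refine Finset.sum_congr rfl fun d hd => h d ?_
    obtain ⟨h1, h2⟩ := mem_kids.1 hd
    exact .step h1 (by rw [h2]; exact hu)
  rw [h u hu, e2, e3]

theorem tight_congr (h : ∀ u, Desc n par c u → f u = g u) (hp : f (par c) = g (par c)) {u : ℕ}
    (hu : Desc n par c u) : Tight n par f u ↔ Tight n par g u := by
  unfold Tight
  rw [nb_congr h hp hu]

theorem good_congr (h : ∀ u, Desc n par c u → f u = g u) (hp : f (par c) = g (par c)) {u : ℕ}
    (hu : Desc n par c u) : Good n par f u ↔ Good n par g u := by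
  unfold Good
  rw [nb_congr h hp hu]

theorem desc_kid {u d : ℕ} (hu : Desc n par c u) (hd : d ∈ kids n par u) : Desc n par c d := by
  obtain ⟨h1, h2⟩ := mem_kids.1 hd
  exact .step h1 (by rw [h2]; exact hu)

theorem covd_congr (h : ∀ u, Desc n par c u → f u = g u) (hp : f (par c) = g (par c)) {u : ℕ}
    (hu : Desc n par c u) (hne : u ≠ c) : Covd n par f u ↔ Covd n par g u := by
  unfold Covd
  have hd : Desc n par c (par u) := by
    cases hu with
    | refl => exact absurd rfl hne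
    | step _ hd => exact hd
  rw [tight_congr h hp hu, tight_congr h hp hd]
  have : (∃ d ∈ kids n par u, Tight n par f d) ↔ ∃ d ∈ kids n par u, Tight n par g d := by
    constructor
    · rintro ⟨d, h1, h2⟩
      exact ⟨d, h1, (tight_congr h hp (desc_kid hu h1)).1 h2⟩
    · rintro ⟨d, h1, h2⟩
      exact ⟨d, h1, (tight_congr h hp (desc_kid hu h1)).2 h2⟩
  rw [this]

theorem wt_congr (h : ∀ u, Desc n par c u → f u = g u) : wt n par c f = wt n par c g := by
  unfold wt
  exact Finset.sum_congr rfl fun u hu => h u (mem_descF.1 hu).2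

end Congr

/-- Restriction to the subtree of a child. -/
theorem below_kid {n : ℕ} {ord par : ℕ → ℕ} (hR : Rooting n ord par) {v c a b : ℕ} {f : ℕ → ℕ}
    (hv : v < n) (hc : c ∈ kids n par v) (hb : Below n par v a b f) :
    Below n par c (f c) a f := by
  obtain ⟨h1, h2⟩ := mem_kids.1 hc
  refine ⟨rfl, by rw [h2]; exact hb.1, fun u hu => ?_⟩
  have hd : Desc n par v u := Desc.trans (.step h1 (by rw [h2]; exact .refl)) hu
  obtain ⟨g1, g2, g3⟩ := hb.2.2 u hd
  refine ⟨g1, g2, fun hne hf => g3 ?_ hf⟩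
  rintro rfl
  exact not_desc_kid hR hv hc hu

/-- Gluing. -/
theorem glue {n : ℕ} {ord par : ℕ → ℕ} (hR : Rooting n ord par) {v a b : ℕ} (hv : v < n)
    (ha : a ≤ 2) (F : ℕ → ℕ → ℕ) (x : ℕ → ℕ) (hF : ∀ c ∈ kids n par v, Below n par c (x c) a (F c)) :
    ∃ f : ℕ → ℕ, f v = a ∧ f (par v) = b ∧
      (∀ c ∈ kids n par v, (∀ u, Desc n par c u → f u = F c u) ∧ f (par c) = F c (par c)) ∧
      nb n par f v = a + b + ∑ c ∈ kids n par v, x c ∧
      wt n par v f = a + ∑ c ∈ kids n par v, wt n par c (F c) ∧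
      ((kids n par v).card + 3 ≤ a + b + ∑ c ∈ kids n par v, x c →
        (∀ c ∈ kids n par v, 1 ≤ x c → Tight n par f c ∨ Tight n par f v ∨
          ∃ d ∈ kids n par c, Tight n par f d) → Below n par v a b f) := by
  classical
  obtain ⟨idx, i1, i2⟩ := hR.exists_idx
  let f : ℕ → ℕ := fun u => if u = v then a else
    if h : ∃ c ∈ kids n par v, Desc n par c u then F (Classical.choose h) u else b
  have hfv : f v = a := by simp [f]
  have hagree : ∀ c ∈ kids n par v, ∀ u, Desc n par c u → f u = F c u := by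
    intro c hc u hu
    have hne : u ≠ v := by
      rintro rfl
      exact not_desc_kid hR hv hc hu
    have hex : ∃ c ∈ kids n par v, Desc n par c u := ⟨c, hc, hu⟩
    have hsp := Classical.choose_spec hex
    have he : Classical.choose hex = c := desc_unique hR hv hsp.1 hc hsp.2 hu
    have e : f u = F (Classical.choose hex) u := by
      simp only [f]
      rw [if_neg hne, dif_pos hex]
    rw [e, he]
  have hfp : f (par v) = b := by
    have h1 : par v ≠ v := by
      intro hcon
      have := (hR.par_idx i1 i2 hv (Or.inl (by rw [hcon]; exact hv))).2.2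
      rw [hcon] at this
      omega
    have h2 : ¬ ∃ c ∈ kids n par v, Desc n par c (par v) := by
      rintro ⟨c, hc, hd⟩
      obtain ⟨c1, c2⟩ := mem_kids.1 hc
      have h3 := hd.lt c1
      have h4 := (hR.par_idx i1 i2 hv (Or.inl h3)).2.2
      have h5 := (hR.par_idx i1 i2 c1 (Or.inl (by rw [c2]; exact hv))).2.2
      have h6 := hd.idx_le hR i1 i2 c1
      rw [c2] at h5
      omega
    simp only [f]
    rw [if_neg h1, dif_neg h2]
  have hpar : ∀ c ∈ kids n par v, f (par c) = F c (par c) := by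
    intro c hc
    have h1 := (hF c hc).2.1
    rw [h1, (mem_kids.1 hc).2, hfv]
  have hkid : ∀ c ∈ kids n par v, f c = x c := by
    intro c hc
    rw [hagree c hc c .refl, (hF c hc).1]
  have hnb : nb n par f v = a + b + ∑ c ∈ kids n par v, x c := by
    unfold nb
    rw [hfv, hfp, Finset.sum_congr rfl hkid]
  have hwt : wt n par v f = a + ∑ c ∈ kids n par v, wt n par c (F c) := by
    unfold wt
    rw [sum_descF hR hv, hfv]
    congr 1
    refine Finset.sum_congr rfl fun c hc => Finset.sum_congr rfl fun u hu => ?_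
    exact hagree c hc u (mem_descF.1 hu).2
  refine ⟨f, hfv, hfp, fun c hc => ⟨hagree c hc, hpar c hc⟩, hnb, hwt, ?_⟩
  intro hgood hcov
  refine ⟨hfv, hfp, fun u hu => ?_⟩
  rcases desc_iff.1 hu with rfl | ⟨c, hc, hd⟩
  · refine ⟨by rw [hfv]; exact ha, ?_, fun h => absurd rfl h⟩
    unfold Good
    rw [hnb]
    exact hgood
  · obtain ⟨g1, g2, g3⟩ := (hF c hc).2.2 u hd
    refine ⟨by rw [hagree c hc u hd]; exact g1, (good_congr (hagree c hc) (hpar c hc) hd).2 g2, ?_⟩
    intro _ hf
    by_cases huc : u = c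
    · subst huc
      rw [hkid u hc] at hf
      rcases hcov u hc hf with h | h | h
      · exact Or.inl h
      · exact Or.inr (Or.inl (by rw [(mem_kids.1 hc).2]; exact ⟨hv, h⟩))
      · exact Or.inr (Or.inr h)
    · rw [hagree c hc u hd] at hf
      exact (covd_congr (hagree c hc) (hpar c hc) hd huc).2 (g3 huc hf)

theorem kids_sum {n : ℕ} {par : ℕ → ℕ} {v : ℕ} {cs : List ℕ} (hn : cs.Nodup)
    (hc : ∀ c, c ∈ cs ↔ c < n ∧ par c = v) (g : ℕ → ℕ) :
    ∑ c ∈ kids n par v, g c = (cs.map g).sum := by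
  have : kids n par v = cs.toFinset := by
    ext c
    rw [mem_kids, List.mem_toFinset, hc]
  rw [this, List.sum_toFinset _ hn]

theorem kids_card {n : ℕ} {par : ℕ → ℕ} {v : ℕ} {cs : List ℕ} (hn : cs.Nodup)
    (hc : ∀ c, c ∈ cs ↔ c < n ∧ par c = v) : (kids n par v).card = cs.length := by
  have : kids n par v = cs.toFinset := by
    ext c
    rw [mem_kids, List.mem_toFinset, hc]
  rw [this, List.toFinset_card_of_nodup hn]

theorem sum_le_two {cs : List ℕ} {x : ℕ → ℕ} (hx : ∀ c ∈ cs, x c ≤ 2) :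
    (cs.map x).sum ≤ 2 * cs.length := by
  induction cs with
  | nil => simp
  | cons c cs ih =>
    have h1 := ih (fun c hc => hx c (List.mem_cons_of_mem _ hc))
    have h2 := hx c List.mem_cons_self
    simp only [List.map_cons, List.sum_cons, List.length_cons]
    omega

/-- Bound for the sets in the tables. -/
theorem mem_le {n : ℕ} {par : ℕ → ℕ} {v a b : ℕ} {P : (ℕ → ℕ) → Prop} :
    ∀ m ∈ {m | ∃ f, Below n par v a b f ∧ P f ∧ m = wt n par v f}, m ≤ 2 * sz n par v := by
  rintro m ⟨f, hf, _, rfl⟩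
  exact wt_le hf

theorem tabQ_eq {n : ℕ} {par : ℕ → ℕ} {r v a b : ℕ} : tabQ n par r v a b =
    encS {m | ∃ f, Below n par v a b f ∧ (¬ Tight n par f v ∧
    (r = 0 → 1 ≤ a → ∃ c ∈ kids n par v, Tight n par f c)) ∧ m = wt n par v f} := by
  unfold tabQ
  congr 1
  ext m
  simp only [Set.mem_setOf_eq, and_assoc]

theorem le_tabP {n : ℕ} {par : ℕ → ℕ} {v a b : ℕ} {f : ℕ → ℕ} (h : Below n par v a b f)
    (ht : Tight n par f v) : wt n par v f + 1 ≤ tabP n par v a b :=
  le_encS mem_le ⟨f, h, ht, rfl⟩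

theorem le_tabQ {n : ℕ} {par : ℕ → ℕ} {r v a b : ℕ} {f : ℕ → ℕ} (h : Below n par v a b f)
    (ht : ¬ Tight n par f v) (hr : r = 0 → 1 ≤ a → ∃ c ∈ kids n par v, Tight n par f c) :
    wt n par v f + 1 ≤ tabQ n par r v a b := by
  rw [tabQ_eq]
  exact le_encS mem_le ⟨f, h, ⟨ht, hr⟩, rfl⟩

theorem tabP_spec {n : ℕ} {par : ℕ → ℕ} {v a b m : ℕ} (h : tabP n par v a b = m + 1) :
    ∃ f, Below n par v a b f ∧ Tight n par f v ∧ m = wt n par v f :=
  encS_spec mem_le h

theorem tabQ_spec {n : ℕ} {par : ℕ → ℕ} {r v a b m : ℕ} (h : tabQ n par r v a b = m + 1) :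
    ∃ f, Below n par v a b f ∧ (¬ Tight n par f v ∧
      (r = 0 → 1 ≤ a → ∃ c ∈ kids n par v, Tight n par f c)) ∧ m = wt n par v f := by
  rw [tabQ_eq] at h
  exact encS_spec mem_le h

/-- The value of a child. -/
theorem le_MM {n : ℕ} {ord par : ℕ → ℕ} (hR : Rooting n ord par) {v c a b T : ℕ} {f : ℕ → ℕ}
    (hv : v < n) (hc : c ∈ kids n par v) (hb : Below n par v a b f)
    (hT : T = 0 → ¬ Tight n par f v) : wt n par c f + 1 ≤ MM n par a T c (f c) := by
  have hk := below_kid hR hv hc hb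
  by_cases ht : Tight n par f c
  · exact (le_tabP hk ht).trans (le_max_left _ _)
  · refine (le_tabQ hk ht ?_).trans (le_max_right _ _)
    intro hT0 h1
    obtain ⟨c1, c2⟩ := mem_kids.1 hc
    have hd : Desc n par v c := .step c1 (by rw [c2]; exact .refl)
    have hne : c ≠ v := by
      rintro rfl
      exact not_desc_kid hR hv hc .refl
    rcases (hb.2.2 c hd).2.2 hne h1 with h | h | h
    · exact absurd h ht
    · rw [c2] at h
      exact absurd h.2 (hT hT0)
    · exact h

theorem MM_spec {n : ℕ} {par : ℕ → ℕ} {a T c x w : ℕ} (h : MM n par a T c x = w + 1) :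
    ∃ f, Below n par c x a f ∧ wt n par c f = w ∧ (Tight n par f c ∨
      (T = 0 → 1 ≤ x → ∃ d ∈ kids n par c, Tight n par f d)) := by
  unfold MM at h
  rcases max_choice (tabP n par c x a) (tabQ n par T c x a) with hm | hm
  · rw [hm] at h
    obtain ⟨f, h1, h2, h3⟩ := tabP_spec h
    exact ⟨f, h1, h3.symm, Or.inl h2⟩
  · rw [hm] at h
    obtain ⟨f, h1, h2, h3⟩ := tabQ_spec h
    exact ⟨f, h1, h3.symm, Or.inr h2.2⟩

theorem nat_eq_of {x y : ℕ} (h1 : ∀ m, x = m + 1 → m + 1 ≤ y) (h2 : ∀ m, y = m + 1 → m + 1 ≤ x) :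
    x = y := by
  rcases Nat.eq_zero_or_pos x with hx | hx <;> rcases Nat.eq_zero_or_pos y with hy | hy
  · omega
  · have := h2 (y - 1) (by omega); omega
  · have := h1 (x - 1) (by omega); omega
  · have := h1 (x - 1) (by omega)
    have := h2 (y - 1) (by omega)
    omega

end Pool.Agent.L7h11.UM
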