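import Mathlib
import Pool.Agent.L7h11.UM.Stm
import Pool.Agent.L7h11.UM.Rec

/-!
# Tables of one vertex: the step of the window
-/

set_option autoImplicit false

namespace Pool.Agent.L7h11.UM

/-- Maximum. -/
def maxE (a b : Ex) : Ex := .ifLt a b b a

/-- Encoded sum. -/
def eaddE (a b : Ex) : Ex :=
  .ifLt (.c 0) a (.ifLt (.c 0) b (.sub (.add a b) (.c 1)) (.c 0)) (.c 0)

theorem maxE_ev (a b : Ex) (s : S) : (maxE a b).ev s = max (a.ev s) (b.ev s) := by
  unfold maxE
  simp only [Ex.ev]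
  split_ifs with h
  · rw [max_eq_right h.le]
  · rw [max_eq_left (not_lt.1 h)]

theorem maxE_ok {N W : ℕ} {a b : Ex} {s : S} (ha : a.ok N W s) (hb : b.ok N W s) :
    (maxE a b).ok N W s := ⟨ha, hb, fun _ => hb, fun _ => ha⟩

theorem eaddE_ev (a b : Ex) (s : S) : (eaddE a b).ev s = eadd (a.ev s) (b.ev s) := by
  unfold eaddE eadd
  simp only [Ex.ev]
  split_ifs <;> omega

theorem eaddE_ok {N W : ℕ} {a b : Ex} {s : S} (ha : a.ok N W s) (hb : b.ok N W s) (hW : 1 < W)
    (hs : a.ev s + b.ev s < W) : (eaddE a b).ok N W s := by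
  unfold eaddE
  refine ⟨by show 0 < W; omega, ha, fun _ => ⟨by show 0 < W; omega, hb, fun _ => ⟨⟨ha, hb, hs⟩, hW⟩,
    fun _ => by show 0 < W; omega⟩, fun _ => by show 0 < W; omega⟩

/-- Storing a list of values. -/
theorem ht_puts {N W q : ℕ} {e : ℕ → Ex} {g : ℕ → ℕ} {s : S} : ∀ (l : List ℕ) (s1 : S),
    s1.var = s.var → (∀ r, r ≠ q → s1.arr r = s.arr r) →
    (∀ i ∈ l, i < N ∧ i < W ∧ g i < W ∧ ∀ s' : S, s'.var = s.var →
      (∀ r, r ≠ q → s'.arr r = s.arr r) → (e i).ok N W s' ∧ (e i).ev s' = g i) →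
    Ht N W (Cm.list (l.map fun i => .put q (.c i) (e i))) s1 l.length (fun s' =>
      s'.var = s.var ∧ (∀ r, r ≠ q → s'.arr r = s.arr r) ∧
      ∀ i, s'.arr q i = if i ∈ l then g i else s1.arr q i) := by
  intro l
  induction l with
  | nil =>
    intro s1 h1 h2 _
    refine Ht.skip ⟨h1, h2, fun i => by simp⟩
  | cons i l ih =>
    intro s1 h1 h2 h3
    obtain ⟨a1, a2, a3, a4⟩ := h3 i List.mem_cons_self
    obtain ⟨a5, a6⟩ := a4 s1 h1 h2
    rw [List.map_cons, List.length_cons, Nat.add_comm, Cm.list]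
    apply Ht.seq
    refine Ht.put (show i < W from a2) (show i < N from a1) (show i < W from a2) a5
      (by rw [a6]; exact a3) ?_
    rw [a6]
    have e1 : ∀ r, r ≠ q → (s1.putA q ((Ex.c i).ev s1) (g i)).arr r = s.arr r := by
      intro r hr
      rw [← h2 r hr]
      simp [S.putA, Function.update_of_ne hr]
    refine (ih (s1.putA q ((Ex.c i).ev s1) (g i)) h1 e1 (fun j hj =>
      h3 j (List.mem_cons_of_mem _ hj))).mono le_rfl ?_
    rintro s' ⟨b1, b2, b3⟩
    refine ⟨b1, b2, fun j => ?_⟩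
    rw [b3 j]
    by_cases hj : j ∈ l
    · simp [hj]
    · by_cases hji : j = i
      · subst hji
        simp [hj, S.putA, Ex.ev]
      · simp [hj, hji, S.putA, Ex.ev, Function.update_of_ne hji]

/-- Computing a maximum. -/
theorem ht_maxs {N W x : ℕ} {e : ℕ → Ex} {g : ℕ → ℕ} {s : S} : ∀ (l : List ℕ) (m : ℕ) (s1 : S),
    (∀ y, y ≠ x → s1.var y = s.var y) → s1.arr = s.arr → s1.var x = m → m < W →
    (∀ i ∈ l, g i < W ∧ ∀ s' : S, (∀ y, y ≠ x → s'.var y = s.var y) → s'.arr = s.arr →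
      (e i).ok N W s' ∧ (e i).ev s' = g i) →
    Ht N W (Cm.list (l.map fun i => .set x (maxE (.v x) (e i)))) s1 l.length (fun s' =>
      (∀ y, y ≠ x → s'.var y = s.var y) ∧ s'.arr = s.arr ∧
      s'.var x = max m (l.toFinset.sup g)) := by
  intro l
  induction l with
  | nil =>
    intro m s1 h1 h2 h3 _ _
    exact Ht.skip ⟨h1, h2, by simp [h3]⟩
  | cons i l ih =>
    intro m s1 h1 h2 h3 h4 h5
    obtain ⟨a3, a4⟩ := h5 i List.mem_cons_self
    obtain ⟨a5, a6⟩ := a4 s1 h1 h2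
    rw [List.map_cons, List.length_cons, Nat.add_comm, Cm.list]
    apply Ht.seq
    refine Ht.set (maxE_ok (show s1.var x < W by omega) a5) ?_
    rw [maxE_ev, a6]
    have e0 : (Ex.v x).ev s1 = m := h3
    rw [e0]
    have e1 : ∀ y, y ≠ x → (s1.setV x (max m (g i))).var y = s.var y := by
      intro y hy
      rw [← h1 y hy]
      simp [S.setV, Function.update_of_ne hy]
    refine (ih (max m (g i)) (s1.setV x (max m (g i))) e1 h2 (by simp [S.setV])
      (by omega) (fun j hj => h5 j (List.mem_cons_of_mem _ hj))).mono le_rfl ?_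
    rintro s' ⟨b1, b2, b3⟩
    refine ⟨b1, b2, ?_⟩
    rw [b3, List.toFinset_cons, Finset.sup_insert]
    exact max_assoc _ _ _

theorem sup3_eq (g : ℕ → ℕ) : (Finset.range 3).sup g = max (max (g 0) (g 1)) (g 2) := by
  simp only [Finset.range_add_one, Finset.range_zero, Finset.sup_insert, Finset.sup_empty,
    Nat.bot_eq_zero]
  omega

/-- The indices of the window. -/
def lst : List ℕ := List.range (2 * R + 5)

theorem mem_lst {i : ℕ} : i ∈ lst ↔ i < 85 := by
  unfold lst R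
  rw [List.mem_range]

theorem length_lst : lst.length = 85 := by
  unfold lst R
  rw [List.length_range]

def ixE (i x : ℕ) : Ex := .sub (.add (.c i) (.v 13)) (.c x)

def FE (i x : ℕ) : Ex := eaddE (.get 70 (ixE i x)) (.v (14 + x))

def CE (i x : ℕ) : Ex :=
  maxE (eaddE (.get 71 (ixE i x)) (.v (14 + x))) (eaddE (.get 70 (ixE i x)) (.v (17 + x)))

def stepFE (i : ℕ) : Ex :=
  if 2 ≤ i ∧ i ≤ 2 * R + 2 then maxE (maxE (FE i 0) (FE i 1)) (FE i 2) else .c 0

def stepCE (i : ℕ) : Ex :=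
  if 2 ≤ i ∧ i ≤ 2 * R + 2 then maxE (maxE (CE i 0) (CE i 1)) (CE i 2) else .c 0

theorem FE_ev (i x : ℕ) (s : S) :
    (FE i x).ev s = eadd (s.arr 70 (i + s.var 13 - x)) (s.var (14 + x)) := by
  unfold FE
  rw [eaddE_ev]
  rfl

theorem CE_ev (i x : ℕ) (s : S) :
    (CE i x).ev s = max (eadd (s.arr 71 (i + s.var 13 - x)) (s.var (14 + x)))
      (eadd (s.arr 70 (i + s.var 13 - x)) (s.var (17 + x))) := by
  unfold CE
  rw [maxE_ev, eaddE_ev, eaddE_ev]
  rfl

theorem stepFE_ev (i : ℕ) (s : S) :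
    (stepFE i).ev s = stepF (fun x => s.var (14 + x)) (s.var 13) (s.arr 70) i := by
  unfold stepFE stepF
  split_ifs with h
  · rw [maxE_ev, maxE_ev, FE_ev, FE_ev, FE_ev, sup3_eq]
  · rfl

theorem stepCE_ev (i : ℕ) (s : S) :
    (stepCE i).ev s = stepC (fun x => s.var (14 + x)) (fun x => s.var (17 + x)) (s.var 13)
      (s.arr 70) (s.arr 71) i := by
  unfold stepCE stepC
  split_ifs with h
  · rw [maxE_ev, maxE_ev, CE_ev, CE_ev, CE_ev, sup3_eq]
  · rfl

theorem eadd_le_add (x y : ℕ) : eadd x y ≤ x + y := by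
  unfold eadd
  split_ifs <;> omega

/-- Hypotheses on a state for one step: all relevant numbers are small. -/
structure Sm (N W B : ℕ) (s : S) : Prop where
  hN : 85 ≤ N
  hW : 85 < W
  BW : 2 * B < W
  y : s.var 13 ≤ 2
  m : ∀ x ≤ 2, s.var (14 + x) ≤ B ∧ s.var (17 + x) ≤ B
  F : ∀ i < 85, s.arr 70 i ≤ B ∧ s.arr 71 i ≤ B

theorem ixE_ok {N W B : ℕ} {s : S} (h : Sm N W B s) {i x : ℕ} (hi : i ≤ 2 * R + 2) (hx : x ≤ 2) :
    (ixE i x).ok N W s ∧ (ixE i x).ev s < 85 := by
  have := h.hW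
  have := h.y
  unfold R at hi
  refine ⟨⟨⟨?_, ?_, ?_⟩, ?_⟩, ?_⟩
  · show i < W; omega
  · show s.var 13 < W; omega
  · show i + s.var 13 < W; omega
  · show x < W; omega
  · show i + s.var 13 - x < 85; omega

theorem FE_ok {N W B : ℕ} {s : S} (h : Sm N W B s) {i x : ℕ} (hi : i ≤ 2 * R + 2) (hx : x ≤ 2) :
    (FE i x).ok N W s := by
  obtain ⟨h1, h2⟩ := ixE_ok h hi hx
  have h3 := (h.F _ h2).1
  have h4 := (h.m x hx).1
  have h5 := h.BW
  have h6 := h.hW
  have h7 := h.hN
  unfold FE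
  refine eaddE_ok ⟨h1, by omega, by omega, by omega⟩ (show s.var (14 + x) < W by omega) (by omega) ?_
  show s.arr 70 ((ixE i x).ev s) + s.var (14 + x) < W
  omega

theorem CE_ok {N W B : ℕ} {s : S} (h : Sm N W B s) {i x : ℕ} (hi : i ≤ 2 * R + 2) (hx : x ≤ 2) :
    (CE i x).ok N W s := by
  obtain ⟨h1, h2⟩ := ixE_ok h hi hx
  have h3 := h.F _ h2
  have h4 := h.m x hx
  have h5 := h.BW
  have h6 := h.hW
  have h7 := h.hN
  unfold CE
  refine maxE_ok (eaddE_ok ⟨h1, by omega, by omega, by omega⟩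
    (show s.var (14 + x) < W by omega) (by omega) ?_)
    (eaddE_ok ⟨h1, by omega, by omega, by omega⟩ (show s.var (17 + x) < W by omega) (by omega) ?_)
  · show s.arr 71 ((ixE i x).ev s) + s.var (14 + x) < W
    omega
  · show s.arr 70 ((ixE i x).ev s) + s.var (17 + x) < W
    omega

theorem stepFE_ok {N W B : ℕ} {s : S} (h : Sm N W B s) (i : ℕ) : (stepFE i).ok N W s := by
  unfold stepFE
  have := h.hW
  split_ifs with h1
  · exact maxE_ok (maxE_ok (FE_ok h h1.2 (by omega)) (FE_ok h h1.2 (by omega)))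
      (FE_ok h h1.2 (by omega))
  · show 0 < W; omega

theorem stepCE_ok {N W B : ℕ} {s : S} (h : Sm N W B s) (i : ℕ) : (stepCE i).ok N W s := by
  unfold stepCE
  have := h.hW
  split_ifs with h1
  · exact maxE_ok (maxE_ok (CE_ok h h1.2 (by omega)) (CE_ok h h1.2 (by omega)))
      (CE_ok h h1.2 (by omega))
  · show 0 < W; omega

theorem stepF_le {m F : ℕ → ℕ} {y B B' : ℕ} (hy : y ≤ 2) (hm : ∀ x ≤ 2, m x ≤ B')
    (hF : ∀ i < 85, F i ≤ B) (i : ℕ) : stepF m y F i ≤ B + B' := by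
  unfold stepF R
  split_ifs with h
  · refine Finset.sup_le fun x hx => ?_
    rw [Finset.mem_range] at hx
    have h1 := hm x (by omega)
    have h2 := hF (i + y - x) (by omega)
    exact (eadd_le_add _ _).trans (by omega)
  · omega

theorem stepC_le {m c F D : ℕ → ℕ} {y B B' : ℕ} (hy : y ≤ 2) (hm : ∀ x ≤ 2, m x ≤ B' ∧ c x ≤ B')
    (hF : ∀ i < 85, F i ≤ B ∧ D i ≤ B) (i : ℕ) : stepC m c y F D i ≤ B + B' := by
  unfold stepC R
  split_ifs with h
  · refine Finset.sup_le fun x hx => ?_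
    rw [Finset.mem_range] at hx
    have h1 := hm x (by omega)
    have h2 := hF (i + y - x) (by omega)
    exact max_le ((eadd_le_add _ _).trans (by omega)) ((eadd_le_add _ _).trans (by omega))
  · omega

/-- The command for one step of the window. -/
def stepCm : Cm :=
  .seq (Cm.list (lst.map fun i => .put 72 (.c i) (stepFE i)))
    (.seq (Cm.list (lst.map fun i => .put 73 (.c i) (stepCE i)))
      (.seq (Cm.list (lst.map fun i => .put 70 (.c i) (.get 72 (.c i))))
        (Cm.list (lst.map fun i => .put 71 (.c i) (.get 73 (.c i))))))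

theorem ht_stepCm {N W B : ℕ} {s : S} (h : Sm N W B s) :
    Ht N W stepCm s 340 (fun s' => s'.var = s.var ∧
      (∀ r, ¬ (70 ≤ r ∧ r < 80) → s'.arr r = s.arr r) ∧
      (∀ i < 85, s'.arr 70 i = stepF (fun x => s.var (14 + x)) (s.var 13) (s.arr 70) i) ∧
      (∀ i < 85, s'.arr 71 i = stepC (fun x => s.var (14 + x)) (fun x => s.var (17 + x))
        (s.var 13) (s.arr 70) (s.arr 71) i)) := by
  have hN := h.hN
  have hW := h.hW
  have hBW := h.BW
  have hFle : ∀ i, stepF (fun x => s.var (14 + x)) (s.var 13) (s.arr 70) i < W := fun i =>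
    lt_of_le_of_lt (stepF_le h.y (fun x hx => (h.m x hx).1) (fun i hi => (h.F i hi).1) i)
      (by omega)
  have hCle : ∀ i, stepC (fun x => s.var (14 + x)) (fun x => s.var (17 + x))
        (s.var 13) (s.arr 70) (s.arr 71) i < W := fun i =>
    lt_of_le_of_lt (stepC_le h.y h.m h.F i) (by omega)
  have e : (340 : ℕ) = 85 + (85 + (85 + 85)) := by norm_num
  rw [e]
  unfold stepCm
  apply Ht.seq
  have k1 := ht_puts (N := N) (W := W) (q := 72) (e := stepFE)
    (g := stepF (fun x => s.var (14 + x)) (s.var 13) (s.arr 70)) (s := s) lst s rfl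
    (fun _ _ => rfl) (by
      intro i hi
      rw [mem_lst] at hi
      refine ⟨by omega, by omega, hFle i, fun s' hv ha => ?_⟩
      have a1 := ha 70 (by omega)
      have a2 := ha 71 (by omega)
      have hs' : Sm N W B s' := ⟨hN, hW, hBW, by rw [hv]; exact h.y, by rw [hv]; exact h.m,
        by rw [a1, a2]; exact h.F⟩
      exact ⟨stepFE_ok hs' i, by rw [stepFE_ev, hv, a1]⟩)
  rw [length_lst] at k1
  refine k1.mono le_rfl ?_
  rintro s1 ⟨v1, r1, w1⟩
  apply Ht.seq
  have k2 := ht_puts (N := N) (W := W) (q := 73) (e := stepCE)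
    (g := stepC (fun x => s.var (14 + x)) (fun x => s.var (17 + x)) (s.var 13) (s.arr 70)
      (s.arr 71)) (s := s1) lst s1 rfl
    (fun _ _ => rfl) (by
      intro i hi
      rw [mem_lst] at hi
      refine ⟨by omega, by omega, hCle i, fun s' hv ha => ?_⟩
      have a1 : s'.arr 70 = s.arr 70 := by rw [ha 70 (by omega), r1 70 (by omega)]
      have a2 : s'.arr 71 = s.arr 71 := by rw [ha 71 (by omega), r1 71 (by omega)]
      have hv' : s'.var = s.var := by rw [hv, v1]
      have hs' : Sm N W B s' := ⟨hN, hW, hBW, by rw [hv']; exact h.y, by rw [hv']; exact h.m,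
        by rw [a1, a2]; exact h.F⟩
      exact ⟨stepCE_ok hs' i, by rw [stepCE_ev, hv', a1, a2]⟩)
  rw [length_lst] at k2
  refine k2.mono le_rfl ?_
  rintro s2 ⟨v2, r2, w2⟩
  apply Ht.seq
  have k3 := ht_puts (N := N) (W := W) (q := 70) (e := fun i => .get 72 (.c i))
    (g := fun i => s2.arr 72 i) (s := s2) lst s2 rfl
    (fun _ _ => rfl) (by
      intro i hi
      have hi' := hi
      rw [mem_lst] at hi
      have e2 : s2.arr 72 i < W := by
        rw [r2 72 (by omega), w1 i, if_pos hi']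
        exact hFle i
      refine ⟨by omega, by omega, e2, fun s' hv ha => ?_⟩
      have a1 : s'.arr 72 = s2.arr 72 := ha 72 (by omega)
      refine ⟨⟨show i < W by omega, show i < N by omega, show i < W by omega, ?_⟩, ?_⟩
      · show s'.arr 72 i < W
        rw [a1]; exact e2
      · show s'.arr 72 i = s2.arr 72 i
        rw [a1])
  rw [length_lst] at k3
  refine k3.mono le_rfl ?_
  rintro s3 ⟨v3, r3, w3⟩
  have k4 := ht_puts (N := N) (W := W) (q := 71) (e := fun i => .get 73 (.c i))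
    (g := fun i => s3.arr 73 i) (s := s3) lst s3 rfl
    (fun _ _ => rfl) (by
      intro i hi
      have hi' := hi
      rw [mem_lst] at hi
      have e2 : s3.arr 73 i < W := by
        rw [r3 73 (by omega), w2 i, if_pos hi']
        exact hCle i
      refine ⟨by omega, by omega, e2, fun s' hv ha => ?_⟩
      have a1 : s'.arr 73 = s3.arr 73 := ha 73 (by omega)
      refine ⟨⟨show i < W by omega, show i < N by omega, show i < W by omega, ?_⟩, ?_⟩
      · show s'.arr 73 i < W
        rw [a1]; exact e2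
      · show s'.arr 73 i = s3.arr 73 i
        rw [a1])
  rw [length_lst] at k4
  refine k4.mono le_rfl ?_
  rintro s4 ⟨v4, r4, w4⟩
  refine ⟨by rw [v4, v3, v2, v1], ?_, ?_, ?_⟩
  · intro r hr
    rw [r4 r (by omega), r3 r (by omega), r2 r (by omega), r1 r (by omega)]
  · intro i hi
    rw [r4 70 (by omega), w3 i, if_pos (mem_lst.2 hi), r2 72 (by omega), w1 i,
      if_pos (mem_lst.2 hi)]
  · intro i hi
    rw [w4 i, if_pos (mem_lst.2 hi), r3 73 (by omega), w2 i, if_pos (mem_lst.2 hi)]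

end Pool.Agent.L7h11.UM
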