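import Mathlib
import Pool.Agent.L7h11.UM.Dpa
import Pool.Agent.L7h11.UM.Siz

/-!
# Tables of one vertex: the loop over the children
-/

set_option autoImplicit false

namespace Pool.Agent.L7h11.UM

/-- First array of the tables `tabQ T`. -/
def qb (T : ℕ) : ℕ := if T = 0 then 20 else 30

/-- Load the data of the child `var 12`. -/
def setsCm (a T : ℕ) : Cm :=
  .seq (.set 13 (.get (40 + 2 * a + T) (.v 12)))
    (.seq (.set 17 (.get (10 + 3 * 0 + a) (.v 12)))
      (.seq (.set 18 (.get (10 + 3 * 1 + a) (.v 12)))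
        (.seq (.set 19 (.get (10 + 3 * 2 + a) (.v 12)))
          (.seq (.set 14 (maxE (.v 17) (.get (qb T + 3 * 0 + a) (.v 12))))
            (.seq (.set 15 (maxE (.v 18) (.get (qb T + 3 * 1 + a) (.v 12))))
              (.set 16 (maxE (.v 19) (.get (qb T + 3 * 2 + a) (.v 12)))))))))

theorem tab_eq {n : ℕ} {par : ℕ → ℕ} {a T c : ℕ} {s : S} (ha : a ≤ 2) (hT : T ≤ 1)
    (h : TabOK n par s c) : ∀ x ≤ 2, s.arr (10 + 3 * x + a) c = tabP n par c x a ∧
      max (s.arr (10 + 3 * x + a) c) (s.arr (qb T + 3 * x + a) c) = MM n par a T c x ∧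
      s.arr (qb T + 3 * x + a) c = tabQ n par T c x a := by
  intro x hx
  obtain ⟨h1, h2, h3⟩ := h x hx a ha
  have h4 : s.arr (qb T + 3 * x + a) c = tabQ n par T c x a := by
    unfold qb
    interval_cases T
    · simpa using h2
    · simpa using h3
  exact ⟨h1, by rw [h1, h4]; rfl, h4⟩

theorem ht_setsCm {n N W B : ℕ} {par : ℕ → ℕ} {a T : ℕ} {s : S} (ha : a ≤ 2) (hT : T ≤ 1)
    (h : TabOK n par s (s.var 12)) (hN : s.var 12 < N) (hW : s.var 12 < W)
    (hy : s.arr (40 + 2 * a + T) (s.var 12) < W)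
    (hB : ∀ x ≤ 2, tabP n par (s.var 12) x a ≤ B ∧ tabQ n par T (s.var 12) x a ≤ B)
    (hBW : B < W) :
    Ht N W (setsCm a T) s 7 (fun s' => s'.arr = s.arr ∧ (∀ x, x < 13 ∨ 20 ≤ x →
      s'.var x = s.var x) ∧ s'.var 13 = s.arr (40 + 2 * a + T) (s.var 12) ∧
      ∀ x ≤ 2, s'.var (14 + x) = MM n par a T (s.var 12) x ∧
        s'.var (17 + x) = tabP n par (s.var 12) x a) := by
  have ht := tab_eq ha hT h
  have hP : ∀ x ≤ 2, s.arr (10 + 3 * x + a) (s.var 12) < W := by
    intro x hx
    rw [(ht x hx).1]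
    exact lt_of_le_of_lt (hB x hx).1 hBW
  have hQ : ∀ x ≤ 2, s.arr (qb T + 3 * x + a) (s.var 12) < W := by
    intro x hx
    rw [(ht x hx).2.2]
    exact lt_of_le_of_lt (hB x hx).2 hBW
  have p0 := hP 0 (by omega)
  have p1 := hP 1 (by omega)
  have p2 := hP 2 (by omega)
  have q0 := hQ 0 (by omega)
  have q1 := hQ 1 (by omega)
  have q2 := hQ 2 (by omega)
  have e : (7 : ℕ) = 1 + (1 + (1 + (1 + (1 + (1 + 1))))) := by norm_num
  rw [e]
  unfold setsCm
  apply Ht.seq
  refine Ht.set ⟨hW, hN, hW, hy⟩ ?_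
  apply Ht.seq
  refine Ht.set ⟨by simpa [Ex.ok, S.setV] using hW, by simpa [Ex.ev, S.setV] using hN,
    by simpa [Ex.ev, S.setV] using hW, by simpa [Ex.ev, S.setV] using p0⟩ ?_
  apply Ht.seq
  refine Ht.set ⟨by simpa [Ex.ok, S.setV] using hW, by simpa [Ex.ev, S.setV] using hN,
    by simpa [Ex.ev, S.setV] using hW, by simpa [Ex.ev, S.setV] using p1⟩ ?_
  apply Ht.seq
  refine Ht.set ⟨by simpa [Ex.ok, S.setV] using hW, by simpa [Ex.ev, S.setV] using hN,
    by simpa [Ex.ev, S.setV] using hW, by simpa [Ex.ev, S.setV] using p2⟩ ?_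
  apply Ht.seq
  refine Ht.set (maxE_ok (by simpa [Ex.ok, Ex.ev, S.setV] using p0)
    ⟨by simpa [Ex.ok, S.setV] using hW, by simpa [Ex.ev, S.setV] using hN,
    by simpa [Ex.ev, S.setV] using hW, by simpa [Ex.ev, S.setV] using q0⟩) ?_
  apply Ht.seq
  refine Ht.set (maxE_ok (by simpa [Ex.ok, Ex.ev, S.setV, Function.update] using p1)
    ⟨by simpa [Ex.ok, S.setV] using hW, by simpa [Ex.ev, S.setV] using hN,
    by simpa [Ex.ev, S.setV] using hW, by simpa [Ex.ev, S.setV] using q1⟩) ?_
  refine Ht.set (maxE_ok (by simpa [Ex.ok, Ex.ev, S.setV, Function.update] using p2)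
    ⟨by simpa [Ex.ok, S.setV] using hW, by simpa [Ex.ev, S.setV] using hN,
    by simpa [Ex.ev, S.setV] using hW, by simpa [Ex.ev, S.setV] using q2⟩) ?_
  simp only [maxE_ev]
  refine ⟨rfl, ?_, ?_, ?_⟩
  · intro x hx
    simp only [S.setV]
    rw [Function.update_of_ne (by omega), Function.update_of_ne (by omega),
      Function.update_of_ne (by omega), Function.update_of_ne (by omega),
      Function.update_of_ne (by omega), Function.update_of_ne (by omega),
      Function.update_of_ne (by omega)]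
  · simp [S.setV, Ex.ev, Function.update]
  · intro x hx
    obtain ⟨t1, t2, t3⟩ := ht x hx
    rw [← t1, ← t2]
    interval_cases x <;> simp [S.setV, Ex.ev, Function.update]

theorem stepF_congr {m m' F F' : ℕ → ℕ} {y : ℕ} (hy : y ≤ 2) (hm : ∀ x ≤ 2, m x = m' x)
    (hF : ∀ i < 85, F i = F' i) (i : ℕ) : stepF m y F i = stepF m' y F' i := by
  unfold stepF R
  split_ifs with h
  · refine Finset.sup_congr rfl fun x hx => ?_
    rw [Finset.mem_range] at hx
    rw [hm x (by omega), hF (i + y - x) (by omega)]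
  · rfl

theorem stepC_congr {m m' c c' F F' D D' : ℕ → ℕ} {y : ℕ} (hy : y ≤ 2)
    (hm : ∀ x ≤ 2, m x = m' x ∧ c x = c' x) (hF : ∀ i < 85, F i = F' i ∧ D i = D' i) (i : ℕ) :
    stepC m c y F D i = stepC m' c' y F' D' i := by
  unfold stepC R
  split_ifs with h
  · refine Finset.sup_congr rfl fun x hx => ?_
    rw [Finset.mem_range] at hx
    rw [(hm x (by omega)).1, (hm x (by omega)).2, (hF (i + y - x) (by omega)).1,
      (hF (i + y - x) (by omega)).2]
  · rfl

theorem win_append (M C : ℕ → ℕ → ℕ) (y : ℕ → ℕ) : ∀ (l l' : List ℕ) (F D : ℕ → ℕ),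
    win M C y (l ++ l') F D = win M C y l' (win M C y l F D).1 (win M C y l F D).2 := by
  intro l
  induction l with
  | nil => intro l' F D; rfl
  | cons c l ih => intro l' F D; rw [List.cons_append, win, win, ih]

/-- Bound for the windows. -/
theorem win_bd {M C : ℕ → ℕ → ℕ} {y b : ℕ → ℕ} : ∀ (l : List ℕ) (F D : ℕ → ℕ) (B : ℕ),
    (∀ c ∈ l, y c ≤ 2 ∧ ∀ x ≤ 2, M c x ≤ b c ∧ C c x ≤ b c) → (∀ i, F i ≤ B ∧ D i ≤ B) →
    ∀ i, (win M C y l F D).1 i ≤ B + (l.map b).sum ∧ (win M C y l F D).2 i ≤ B + (l.map b).sum := by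
  intro l
  induction l with
  | nil => intro F D B _ h i; simpa [win] using h i
  | cons c l ih =>
    intro F D B h1 h2 i
    rw [win]
    obtain ⟨g1, g2⟩ := h1 c List.mem_cons_self
    have := ih (stepF (M c) (y c) F) (stepC (M c) (C c) (y c) F D) (B + b c)
      (fun d hd => h1 d (List.mem_cons_of_mem _ hd)) (fun i =>
        ⟨stepF_le g1 (fun x hx => (g2 x hx).1) (fun i _ => (h2 i).1) i,
         stepC_le g1 g2 (fun i _ => h2 i) i⟩) i
    rw [List.map_cons, List.sum_cons]
    omega

/-- The first `j` neighbours without the parent. -/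
def pre (I par : ℕ → ℕ) (v j : ℕ) : List ℕ :=
  ((List.range' (I v) j).map I).filter (fun c => c ≠ par v)

theorem pre_zero (I par : ℕ → ℕ) (v : ℕ) : pre I par v 0 = [] := rfl

theorem pre_succ (I par : ℕ → ℕ) (v j : ℕ) : pre I par v (j + 1) =
    pre I par v j ++ (if I (I v + j) ≠ par v then [I (I v + j)] else []) := by
  unfold pre
  rw [List.range'_1_concat, List.map_append, List.filter_append]
  congr 1
  by_cases h : I (I v + j) = par v <;> simp [h]

theorem pre_last {I par : ℕ → ℕ} {v : ℕ} : pre I par v (I (v + 1) - I v) = chl I par v := rfl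

theorem chl_split {I par : ℕ → ℕ} {v j : ℕ} (hj : j ≤ I (v + 1) - I v) :
    ∃ l, chl I par v = pre I par v j ++ l := by
  refine ⟨((List.range' (I v + j) (I (v + 1) - I v - j)).map I).filter (fun c => c ≠ par v), ?_⟩
  unfold chl adjL pre
  rw [← List.filter_append, ← List.map_append]
  congr 2
  have := List.range'_append_1 (s := I v) (m := j) (n := I (v + 1) - I v - j)
  rw [this]
  congr 1
  omega

/-- The flag `c ≠ par v`. -/
def flagE : Ex :=
  .ifLt (.v 12) (.get 2 (.v 3)) (.c 1) (.ifLt (.get 2 (.v 3)) (.v 12) (.c 1) (.c 0))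

theorem flagE_ev (s : S) : flagE.ev s = if s.var 12 = s.arr 2 (s.var 3) then 0 else 1 := by
  unfold flagE
  simp only [Ex.ev]
  split_ifs <;> omega

/-- Body of the loop over the neighbours. -/
def bodyCm (a T : ℕ) : Cm :=
  .seq (.set 12 (.get 0 (.v 10)))
    (.seq (.set 13 flagE)
      (.seq (.ite (.c 0) (.v 13) (.seq (setsCm a T) stepCm) .skip)
        (.set 10 (.add (.v 10) (.c 1)))))

/-- Numbers for the bounds. -/
theorem kids_bd {n : ℕ} {I ord par : ℕ → ℕ} (hD : Dat n I ord par) {v : ℕ} (hv : v < n) :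
    ((chl I par v).map (fun c => 2 * sz n par c + 1)).sum ≤ 3 * n := by
  obtain ⟨h1, h2, h3, _⟩ := s_siz n ord par hD.root
  have e1 := kids_sum (hD.nodup v hv) (hD.mem v hv) (fun c => 2 * sz n par c + 1)
  have e2 := h1 v hv
  rw [← e1]
  have e3 : ∑ c ∈ kids n par v, (2 * sz n par c + 1) ≤ ∑ c ∈ kids n par v, 3 * sz n par c := by
    refine Finset.sum_le_sum fun c hc => ?_
    have := (h3 c (mem_kids.1 hc).1).1
    omega
  rw [← Finset.mul_sum] at e3
  have e4 := (h3 v hv).2
  omega

theorem I_lt {n : ℕ} {I ord par : ℕ → ℕ} (hD : Dat n I ord par) {v : ℕ} (hv : v < n) :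
    I (v + 1) ≤ 3 * n := by
  have : ∀ w, w ≤ n → v + 1 ≤ w → I (v + 1) ≤ I w := by
    intro w hw hvw
    induction w, hvw using Nat.le_induction with
    | base => exact le_rfl
    | succ w hvw ih => exact (ih (by omega)).trans (hD.mono w (by omega))
  have h1 := this n le_rfl (by omega)
  have h2 := hD.last
  omega

/-- Invariant of the loop. -/
structure Inv (n : ℕ) (I par : ℕ → ℕ) (a T v : ℕ) (s0 : S) (j : ℕ) (s : S) : Prop where
  v9 : ∀ x < 10, s.var x = s0.var x
  v10 : s.var 10 = I v + j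
  v11 : s.var 11 = I (v + 1)
  ar : ∀ r, ¬ (70 ≤ r ∧ r < 80) → s.arr r = s0.arr r
  w : ∀ i < 85, s.arr 70 i = (win (MM n par a T) (fun c x => tabP n par c x a)
        (s0.arr (40 + 2 * a + T)) (pre I par v j) F0 (fun _ => 0)).1 i ∧
      s.arr 71 i = (win (MM n par a T) (fun c x => tabP n par c x a)
        (s0.arr (40 + 2 * a + T)) (pre I par v j) F0 (fun _ => 0)).2 i

theorem ht_body {n : ℕ} {I ord par : ℕ → ℕ} {W a T v j : ℕ} {s0 s : S} (hD : Dat n I ord par)
    (hW : 1000 * (n + 1) ≤ W) (ha : a ≤ 2) (hT : T ≤ 1) (hv : v < n) (hc : Ctx n I ord par s0)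
    (h3 : s0.var 3 = v) (htab : ∀ c ∈ chl I par v, TabOK n par s0 c)
    (hy : ∀ c ∈ chl I par v, s0.arr (40 + 2 * a + T) c ≤ 2) (hj : j < I (v + 1) - I v)
    (hI : Inv n I par a T v s0 j s) :
    Ht (64 * (n + 1)) W (bodyCm a T) s 351 (Inv n I par a T v s0 (j + 1)) := by
  have hIlt := I_lt hD hv
  have hSZ := s_siz n ord par hD.root
  have hmono := hD.mono v hv
  set N := 64 * (n + 1) with hN
  set u := I (I v + j) with hu
  have hadj : u ∈ adjL I v := by
    unfold adjL
    refine List.mem_map.2 ⟨I v + j, ?_, rfl⟩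
    rw [List.mem_range'_1]
    omega
  have hun : u < n := hD.lt v hv u hadj
  have a0 : s.arr 0 = I := by rw [hI.ar 0 (by omega), hc.a0]
  have a2 : s.arr 2 = par := by rw [hI.ar 2 (by omega), hc.a2]
  have hv3 : s.var 3 = v := by rw [hI.v9 3 (by omega), h3]
  have hparle : par v ≤ n := by
    obtain ⟨idx, i1, i2⟩ := hD.root.exists_idx
    by_cases hv0 : v = 0
    · rw [hv0, hD.root.par_zero]
    · exact (hD.root.par_idx i1 i2 hv (Or.inr hv0)).2.1.le
  have e : (351 : ℕ) = 1 + (1 + ((7 + 340) + 1 + 1)) := by norm_num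
  rw [e]
  unfold bodyCm
  apply Ht.seq
  refine Ht.set ⟨?_, ?_, ?_, ?_⟩ ?_
  · show s.var 10 < W
    rw [hI.v10]; omega
  · show s.var 10 < N
    rw [hI.v10]; omega
  · show s.var 10 < W
    rw [hI.v10]; omega
  · show s.arr 0 (s.var 10) < W
    rw [a0, hI.v10]; omega
  have eu : (Ex.get 0 (.v 10)).ev s = u := by
    show s.arr 0 (s.var 10) = u
    rw [a0, hI.v10]
  rw [eu]
  apply Ht.seq
  refine Ht.set ?_ ?_
  · have g1 : ((s.setV 12 u).var 12) = u := by simp [S.setV]
    have g2 : ((s.setV 12 u).var 3) = v := by simp [S.setV, hv3]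
    have g3 : (s.setV 12 u).arr 2 v = par v := by simp [S.setV, a2]
    have okp : Ex.ok N W (.get 2 (.v 3)) (s.setV 12 u) := by
      refine ⟨?_, ?_, ?_, ?_⟩
      · show (s.setV 12 u).var 3 < W
        rw [g2]; omega
      · show (s.setV 12 u).var 3 < N
        rw [g2]; omega
      · show (s.setV 12 u).var 3 < W
        rw [g2]; omega
      · show (s.setV 12 u).arr 2 ((s.setV 12 u).var 3) < W
        rw [g2, g3]; omega
    have okv : Ex.ok N W (.v 12) (s.setV 12 u) := by
      show (s.setV 12 u).var 12 < W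
      rw [g1]; omega
    exact ⟨okv, okp, fun _ => by show 1 < W; omega, fun _ => ⟨okp, okv,
      fun _ => by show 1 < W; omega, fun _ => by show 0 < W; omega⟩⟩
  have ef : flagE.ev (s.setV 12 u) = if u = par v then 0 else 1 := by
    rw [flagE_ev]
    simp [S.setV, hv3, a2]
  rw [ef]
  set s1 := (s.setV 12 u).setV 13 (if u = par v then 0 else 1) with hs1
  have s1v : ∀ x, x < 12 → s1.var x = s.var x := by
    intro x hx
    simp only [hs1, S.setV]
    rw [Function.update_of_ne (by omega), Function.update_of_ne (by omega)]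
  have s1a : s1.arr = s.arr := rfl
  have s112 : s1.var 12 = u := by simp [hs1, S.setV]
  have s113 : s1.var 13 = if u = par v then 0 else 1 := by simp [hs1, S.setV]
  apply Ht.seq
  have hlast : ∀ s2 : S, (∀ x < 12, s2.var x = s1.var x) →
      (∀ r, ¬ (70 ≤ r ∧ r < 80) → s2.arr r = s1.arr r) →
      (∀ i < 85, s2.arr 70 i = (win (MM n par a T) (fun c x => tabP n par c x a)
        (s0.arr (40 + 2 * a + T)) (pre I par v (j + 1)) F0 (fun _ => 0)).1 i ∧
      s2.arr 71 i = (win (MM n par a T) (fun c x => tabP n par c x a)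
        (s0.arr (40 + 2 * a + T)) (pre I par v (j + 1)) F0 (fun _ => 0)).2 i) →
      Ht N W (.set 10 (.add (.v 10) (.c 1))) s2 1 (Inv n I par a T v s0 (j + 1)) := by
    intro s2 g1 g2 g3
    have g10 : s2.var 10 = I v + j := by rw [g1 10 (by omega), s1v 10 (by omega), hI.v10]
    refine Ht.set ⟨?_, ?_, ?_⟩ ?_
    · show s2.var 10 < W
      rw [g10]; omega
    · show 1 < W; omega
    · show s2.var 10 + 1 < W
      rw [g10]; omega
    · have e1 : (Ex.add (.v 10) (.c 1)).ev s2 = I v + (j + 1) := by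
        show s2.var 10 + 1 = _
        rw [g10]; omega
      rw [e1]
      refine ⟨?_, ?_, ?_, ?_, ?_⟩
      · intro x hx
        simp only [S.setV]
        rw [Function.update_of_ne (by omega), g1 x (by omega), s1v x (by omega), hI.v9 x hx]
      · simp [S.setV]
      · simp only [S.setV]
        rw [Function.update_of_ne (by omega), g1 11 (by omega), s1v 11 (by omega), hI.v11]
      · intro r hr
        show s2.arr r = s0.arr r
        rw [g2 r hr, s1a, hI.ar r hr]
      · exact g3
  refine Ht.mono (T := 7 + 340 + 1) (Ht.ite ?_ ?_ ?_ ?_) le_rfl (fun s2 h => h)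
  · show 0 < W; omega
  · show s1.var 13 < W
    rw [s113]; split_ifs <;> omega
  · intro hlt
    have hne : u ≠ par v := by
      intro he
      have : (0 : ℕ) < s1.var 13 := hlt
      rw [s113, if_pos he] at this
      omega
    have huc : u ∈ chl I par v := by
      unfold chl
      rw [List.mem_filter]
      exact ⟨hadj, by simpa using hne⟩
    have htu : TabOK n par s0 u := htab u huc
    have ht1 : TabOK n par s1 (s1.var 12) := by
      rw [s112]
      intro x hx b hb
      rw [s1a, hI.ar _ (by omega), hI.ar _ (by omega), hI.ar _ (by omega)]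
      exact htu x hx b hb
    have ay : s1.arr (40 + 2 * a + T) (s1.var 12) = s0.arr (40 + 2 * a + T) u := by
      rw [s112, s1a, hI.ar _ (by omega)]
    have hyu := hy u huc
    have hszu := (hSZ.2.2.1 u hun).2
    have hbP := hSZ.2.2.2.2.2.1 u hun
    have hbQ := hSZ.2.2.2.2.2.2 u hun
    apply Ht.seq
    refine (ht_setsCm (N := N) (W := W) (B := 2 * n + 1) ha hT ht1 ?_ ?_ ?_ ?_ ?_).mono le_rfl ?_
    · rw [s112]; omega
    · rw [s112]; omega
    · rw [ay]; omega
    · intro x hx
      rw [s112]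
      exact ⟨(hbP x a).trans (by omega), (hbQ T x a).trans (by omega)⟩
    · omega
    rintro s2 ⟨b1, b2, b3, b4⟩
    rw [ay] at b3
    rw [s112] at b4
    have hFD : ∀ i < 85, s2.arr 70 i ≤ 3 * n + 1 ∧ s2.arr 71 i ≤ 3 * n + 1 := by
      intro i hi
      obtain ⟨w1, w2⟩ := hI.w i hi
      rw [b1, s1a, w1, w2]
      have hbd := win_bd (M := MM n par a T) (C := fun c x => tabP n par c x a)
        (y := s0.arr (40 + 2 * a + T)) (b := fun c => 2 * sz n par c + 1) (pre I par v j) F0
        (fun _ => 0) 1 (by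
          intro c hc
          obtain ⟨l, hl⟩ := chl_split (I := I) (par := par) (v := v) (j := j) hj.le
          have hcc : c ∈ chl I par v := by rw [hl]; exact List.mem_append_left _ hc
          have hcn := ((hD.mem v hv c).1 hcc).1
          refine ⟨hy c hcc, fun x hx => ⟨?_, ?_⟩⟩
          · exact max_le (hSZ.2.2.2.2.2.1 c hcn x a) (hSZ.2.2.2.2.2.2 c hcn T x a)
          · exact hSZ.2.2.2.2.2.1 c hcn x a) (by
          intro i
          unfold F0
          split_ifs <;> omega) i
      obtain ⟨l, hl⟩ := chl_split (I := I) (par := par) (v := v) (j := j) hj.le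
      have hk := kids_bd hD hv
      rw [hl, List.map_append, List.sum_append] at hk
      omega
    have hSm : Sm N W (3 * n + 1) s2 := by
      refine ⟨by omega, by omega, by omega, by rw [b3]; exact hyu, ?_, hFD⟩
      intro x hx
      rw [(b4 x hx).1, (b4 x hx).2]
      have m1 := hbP x a
      have m2 := hbQ T x a
      refine ⟨max_le (by omega) (by omega), by omega⟩
    refine (ht_stepCm hSm).mono le_rfl ?_
    rintro s3 ⟨c1, c2, c3, c4⟩
    apply hlast s3
    · intro x hx
      rw [c1, b2 x (by omega)]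
    · intro r hr
      rw [c2 r hr, b1]
    · intro i hi
      have happ : pre I par v (j + 1) = pre I par v j ++ [u] := by
        rw [pre_succ, if_pos hne]
      rw [happ, win_append]
      have hw : ∀ i < 85, s2.arr 70 i = (win (MM n par a T) (fun c x => tabP n par c x a)
          (s0.arr (40 + 2 * a + T)) (pre I par v j) F0 (fun _ => 0)).1 i ∧
          s2.arr 71 i = (win (MM n par a T) (fun c x => tabP n par c x a)
          (s0.arr (40 + 2 * a + T)) (pre I par v j) F0 (fun _ => 0)).2 i := by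
        intro i hi
        rw [b1, s1a]
        exact hI.w i hi
      refine ⟨?_, ?_⟩
      · rw [c3 i hi, b3]
        exact stepF_congr hyu (fun x hx => (b4 x hx).1) (fun i hi => (hw i hi).1) i
      · rw [c4 i hi, b3]
        exact stepC_congr hyu b4 hw i
  · intro hge
    have heq : u = par v := by
      by_contra hne
      apply hge
      show 0 < s1.var 13
      rw [s113, if_neg hne]
      omega
    refine (Ht.skip ?_).mono (Nat.zero_le _) (fun _ h => h)
    apply hlast s1 (fun x hx => rfl) (fun r hr => rfl)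
    intro i hi
    have happ : pre I par v (j + 1) = pre I par v j := by
      rw [pre_succ, if_neg (by rw [← hu]; simpa using heq), List.append_nil]
    rw [happ, s1a]
    exact hI.w i hi

end Pool.Agent.L7h11.UM
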