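import Mathlib
import Pool.Agent.L7h11.UM.Opt

set_option autoImplicit false

namespace Pool.Agent.L7h11.UM

theorem sup3_pos {g : ℕ → ℕ} {m : ℕ} (h : (Finset.range 3).sup g = m + 1) :
    ∃ x ≤ 2, g x = m + 1 := by
  obtain ⟨x, hx, he⟩ := Finset.exists_mem_eq_sup (Finset.range 3) (by simp) g
  exact ⟨x, by rw [Finset.mem_range] at hx; omega, by rw [← he, h]⟩

theorem le_sup3 {g : ℕ → ℕ} {x : ℕ} (hx : x ≤ 2) : g x ≤ (Finset.range 3).sup g :=
  Finset.le_sup (f := g) (Finset.mem_range.2 (by omega))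

/-- The window gives choices, free part. -/
theorem win_le1 {M C : ℕ → ℕ → ℕ} {y : ℕ → ℕ} : ∀ {cs : List ℕ} {F D : ℕ → ℕ} {i m : ℕ},
    cs.Nodup → (win M C y cs F D).1 i = m + 1 → ∃ (i0 m0 : ℕ) (x w : ℕ → ℕ), F i0 = m0 + 1 ∧
      (∀ c ∈ cs, x c ≤ 2 ∧ M c (x c) = w c + 1) ∧ i + (cs.map y).sum = i0 + (cs.map x).sum ∧
      m = m0 + (cs.map w).sum := by
  intro cs
  induction cs with
  | nil =>
    intro F D i m _ h
    exact ⟨i, m, fun _ => 0, fun _ => 0, by simpa [win] using h, by simp, by simp, by simp⟩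
  | cons c cs ih =>
    intro F D i m hn h
    rw [List.nodup_cons] at hn
    rw [win] at h
    obtain ⟨i0, m0, x, w, h1, h2, h3, h4⟩ := ih hn.2 h
    unfold stepF at h1
    split_ifs at h1 with hi
    obtain ⟨x0, hx0, h5⟩ := sup3_pos h1
    obtain ⟨a, b, h6, h7, h8⟩ := eadd_pos.1 h5
    have hne : ∀ d ∈ cs, d ≠ c := fun d hd hdc => hn.1 (hdc ▸ hd)
    refine ⟨i0 + y c - x0, a, Function.update x c x0, Function.update w c b, h6, ?_, ?_, ?_⟩
    · intro d hd
      rcases List.mem_cons.1 hd with rfl | hd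
      · rw [Function.update_self, Function.update_self]; exact ⟨hx0, h7⟩
      · rw [Function.update_of_ne (hne d hd), Function.update_of_ne (hne d hd)]; exact h2 d hd
    · rw [List.map_cons, List.map_cons, List.sum_cons, List.sum_cons, Function.update_self,
        map_update_sum hn.1]
      omega
    · rw [List.map_cons, List.sum_cons, Function.update_self, map_update_sum hn.1]; omega

/-- The window gives choices, covered part. -/
theorem win_le2 {M C : ℕ → ℕ → ℕ} {y : ℕ → ℕ} : ∀ {cs : List ℕ} {F D : ℕ → ℕ} {i m : ℕ},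
    cs.Nodup → (win M C y cs F D).2 i = m + 1 →
    (∃ (i0 m0 : ℕ) (x w : ℕ → ℕ), D i0 = m0 + 1 ∧
      (∀ c ∈ cs, x c ≤ 2 ∧ M c (x c) = w c + 1) ∧ i + (cs.map y).sum = i0 + (cs.map x).sum ∧
      m = m0 + (cs.map w).sum) ∨
    ∃ (j i0 m0 : ℕ) (x w : ℕ → ℕ), j ∈ cs ∧ F i0 = m0 + 1 ∧
      (∀ c ∈ cs, x c ≤ 2 ∧ (c ≠ j → M c (x c) = w c + 1)) ∧ C j (x j) = w j + 1 ∧
      i + (cs.map y).sum = i0 + (cs.map x).sum ∧ m = m0 + (cs.map w).sum := by
  intro cs
  induction cs with
  | nil =>
    intro F D i m _ h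
    exact Or.inl ⟨i, m, fun _ => 0, fun _ => 0, by simpa [win] using h, by simp, by simp, by simp⟩
  | cons c cs ih =>
    intro F D i m hn h
    rw [List.nodup_cons] at hn
    rw [win] at h
    have hne : ∀ d ∈ cs, d ≠ c := fun d hd hdc => hn.1 (hdc ▸ hd)
    rcases ih hn.2 h with ⟨i0, m0, x, w, h1, h2, h3, h4⟩ | ⟨j, i0, m0, x, w, hj, h1, h2, h2', h3, h4⟩
    · unfold stepC at h1
      split_ifs at h1 with hi
      obtain ⟨x0, hx0, h5⟩ := sup3_pos h1
      rcases max_choice (eadd (D (i0 + y c - x0)) (M c x0)) (eadd (F (i0 + y c - x0)) (C c x0))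
        with hm | hm
      · rw [hm] at h5
        obtain ⟨a, b, h6, h7, h8⟩ := eadd_pos.1 h5
        left
        refine ⟨i0 + y c - x0, a, Function.update x c x0, Function.update w c b, h6, ?_, ?_, ?_⟩
        · intro d hd
          rcases List.mem_cons.1 hd with rfl | hd
          · rw [Function.update_self, Function.update_self]; exact ⟨hx0, h7⟩
          · rw [Function.update_of_ne (hne d hd), Function.update_of_ne (hne d hd)]; exact h2 d hd
        · rw [List.map_cons, List.map_cons, List.sum_cons, List.sum_cons, Function.update_self,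
            map_update_sum hn.1]
          omega
        · rw [List.map_cons, List.sum_cons, Function.update_self, map_update_sum hn.1]; omega
      · rw [hm] at h5
        obtain ⟨a, b, h6, h7, h8⟩ := eadd_pos.1 h5
        right
        refine ⟨c, i0 + y c - x0, a, Function.update x c x0, Function.update w c b,
          List.mem_cons_self, h6, ?_, ?_, ?_, ?_⟩
        · intro d hd
          rcases List.mem_cons.1 hd with rfl | hd
          · rw [Function.update_self]; exact ⟨hx0, fun h => absurd rfl h⟩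
          · rw [Function.update_of_ne (hne d hd), Function.update_of_ne (hne d hd)]
            exact ⟨(h2 d hd).1, fun _ => (h2 d hd).2⟩
        · rw [Function.update_self, Function.update_self]; exact h7
        · rw [List.map_cons, List.map_cons, List.sum_cons, List.sum_cons, Function.update_self,
            map_update_sum hn.1]
          omega
        · rw [List.map_cons, List.sum_cons, Function.update_self, map_update_sum hn.1]; omega
    · unfold stepF at h1
      split_ifs at h1 with hi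
      obtain ⟨x0, hx0, h5⟩ := sup3_pos h1
      obtain ⟨a, b, h6, h7, h8⟩ := eadd_pos.1 h5
      right
      refine ⟨j, i0 + y c - x0, a, Function.update x c x0, Function.update w c b,
        List.mem_cons_of_mem _ hj, h6, ?_, ?_, ?_, ?_⟩
      · intro d hd
        rcases List.mem_cons.1 hd with rfl | hd
        · rw [Function.update_self, Function.update_self]; exact ⟨hx0, fun _ => h7⟩
        · rw [Function.update_of_ne (hne d hd), Function.update_of_ne (hne d hd)]; exact h2 d hd
      · rw [Function.update_of_ne (hne j hj), Function.update_of_ne (hne j hj)]; exact h2'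
      · rw [List.map_cons, List.map_cons, List.sum_cons, List.sum_cons, Function.update_self,
          map_update_sum hn.1]
        omega
      · rw [List.map_cons, List.sum_cons, Function.update_self, map_update_sum hn.1]; omega

/-- Number of deviations. -/
def dev (x y : ℕ → ℕ) (cs : List ℕ) : ℕ := cs.countP (fun c => x c ≠ y c)

theorem dev_cons (x y : ℕ → ℕ) (c : ℕ) (cs : List ℕ) :
    dev x y (c :: cs) = dev x y cs + (if x c = y c then 0 else 1) := by
  unfold dev
  rw [List.countP_cons]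
  by_cases h : x c = y c <;> simp [h]

theorem stepF_ge {m : ℕ → ℕ} {y x w i0 m0 : ℕ} {F : ℕ → ℕ} (hx : x ≤ 2) (hw : w + 1 ≤ m x)
    (hF : m0 + 1 ≤ F i0) (h1 : 2 ≤ i0 + x - y) (h2 : i0 + x - y ≤ 2 * R + 2) :
    m0 + w + 1 ≤ stepF m y F (i0 + x - y) := by
  unfold stepF
  rw [if_pos ⟨h1, h2⟩]
  refine le_trans ?_ (le_sup3 (g := fun z => eadd (F (i0 + x - y + y - z)) (m z)) hx)
  have e : i0 + x - y + y - x = i0 := by omega
  simp only [e]
  exact eadd_le hF hw

theorem stepC_ge1 {m c : ℕ → ℕ} {y x w i0 m0 : ℕ} {F D : ℕ → ℕ} (hx : x ≤ 2) (hw : w + 1 ≤ m x)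
    (hD : m0 + 1 ≤ D i0) (h1 : 2 ≤ i0 + x - y) (h2 : i0 + x - y ≤ 2 * R + 2) :
    m0 + w + 1 ≤ stepC m c y F D (i0 + x - y) := by
  unfold stepC
  rw [if_pos ⟨h1, h2⟩]
  refine le_trans ?_ (le_sup3 (g := fun z => max (eadd (D (i0 + x - y + y - z)) (m z))
    (eadd (F (i0 + x - y + y - z)) (c z))) hx)
  have e : i0 + x - y + y - x = i0 := by omega
  simp only [e]
  exact le_trans (eadd_le hD hw) (le_max_left _ _)

theorem stepC_ge2 {m c : ℕ → ℕ} {y x w i0 m0 : ℕ} {F D : ℕ → ℕ} (hx : x ≤ 2) (hw : w + 1 ≤ c x)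
    (hF : m0 + 1 ≤ F i0) (h1 : 2 ≤ i0 + x - y) (h2 : i0 + x - y ≤ 2 * R + 2) :
    m0 + w + 1 ≤ stepC m c y F D (i0 + x - y) := by
  unfold stepC
  rw [if_pos ⟨h1, h2⟩]
  refine le_trans ?_ (le_sup3 (g := fun z => max (eadd (D (i0 + x - y + y - z)) (m z))
    (eadd (F (i0 + x - y + y - z)) (c z))) hx)
  have e : i0 + x - y + y - x = i0 := by omega
  simp only [e]
  exact le_trans (eadd_le hF hw) (le_max_right _ _)

/-- Choices with few deviations are seen by the window. -/
theorem win_ge {M C : ℕ → ℕ → ℕ} {y : ℕ → ℕ} {x w : ℕ → ℕ} : ∀ {cs : List ℕ} {F D : ℕ → ℕ}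
    {i0 m0 : ℕ}, (∀ c ∈ cs, x c ≤ 2 ∧ y c ≤ 2 ∧ w c + 1 ≤ M c (x c)) →
    2 + 2 * dev x y cs ≤ i0 → i0 + 2 * dev x y cs ≤ 2 * R + 2 → ∃ i, i + (cs.map y).sum =
      i0 + (cs.map x).sum ∧ 2 ≤ i ∧ i ≤ 2 * R + 2 ∧
      (m0 + 1 ≤ F i0 → m0 + (cs.map w).sum + 1 ≤ (win M C y cs F D).1 i) ∧
      (m0 + 1 ≤ D i0 → m0 + (cs.map w).sum + 1 ≤ (win M C y cs F D).2 i) ∧
      (m0 + 1 ≤ F i0 → (∃ j ∈ cs, w j + 1 ≤ C j (x j)) →
        m0 + (cs.map w).sum + 1 ≤ (win M C y cs F D).2 i) := by
  intro cs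
  induction cs with
  | nil =>
    intro F D i0 m0 _ h1 h2
    refine ⟨i0, by simp, by simpa [dev] using h1, by simpa [dev] using h2, ?_, ?_, ?_⟩
    · intro h; simpa [win] using h
    · intro h; simpa [win] using h
    · rintro _ ⟨j, hj, _⟩; simp at hj
  | cons c cs ih =>
    intro F D i0 m0 hx h1 h2
    rw [dev_cons] at h1 h2
    obtain ⟨a1, a2, a3⟩ := hx c List.mem_cons_self
    have b1 : 2 + 2 * dev x y cs ≤ i0 + x c - y c := by
      split_ifs at h1 h2 with he
      · rw [he]; omega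
      · omega
    have b2 : i0 + x c - y c + 2 * dev x y cs ≤ 2 * R + 2 := by
      split_ifs at h1 h2 with he
      · rw [he]; omega
      · omega
    obtain ⟨i, g1, g2, g3, g4, g5, g6⟩ := ih (F := stepF (M c) (y c) F)
      (D := stepC (M c) (C c) (y c) F D) (m0 := m0 + w c)
      (fun d hd => hx d (List.mem_cons_of_mem _ hd)) b1 b2
    have b0 : y c ≤ i0 + x c := by split_ifs at h1 <;> omega
    refine ⟨i, ?_, g2, g3, ?_, ?_, ?_⟩
    · simp only [List.map_cons, List.sum_cons]; omega
    · intro h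
      rw [win]
      have := g4 (stepF_ge a1 a3 h (by omega) (by omega))
      simp only [List.map_cons, List.sum_cons]; omega
    · intro h
      rw [win]
      have := g5 (stepC_ge1 a1 a3 h (by omega) (by omega))
      simp only [List.map_cons, List.sum_cons]; omega
    · rintro h ⟨j, hj, hC⟩
      rw [win]
      rcases List.mem_cons.1 hj with rfl | hj
      · have := g5 (stepC_ge2 a1 hC h (by omega) (by omega))
        simp only [List.map_cons, List.sum_cons]; omega
      · have := g6 (stepF_ge a1 a3 h (by omega) (by omega)) ⟨j, hj, hC⟩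
        simp only [List.map_cons, List.sum_cons]; omega

end Pool.Agent.L7h11.UM
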