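import Mathlib
import Pool.Agent.L7h11.UM.Win

set_option autoImplicit false

namespace Pool.Agent.L7h11.UM

/-- Many small numbers with a small sum have a nonempty subset with sum zero. -/
theorem zero_sum (D : Finset ℕ) (δ : ℕ → ℤ)
    (hδ : ∀ c ∈ D, δ c = 1 ∨ δ c = 2 ∨ δ c = -1 ∨ δ c = -2) (hc : 13 ≤ D.card)
    (hs1 : ∑ c ∈ D, δ c ≤ 12) (hs2 : -12 ≤ ∑ c ∈ D, δ c) :
    ∃ D' ⊆ D, D'.Nonempty ∧ ∑ c ∈ D', δ c = 0 := by
  classical
  by_contra hcon
  push Not at hcon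
  set P1 := D.filter (fun c => δ c = 1) with hP1
  set P2 := D.filter (fun c => δ c = 2) with hP2
  set N1 := D.filter (fun c => δ c = -1) with hN1
  set N2 := D.filter (fun c => δ c = -2) with hN2
  have hcard : (D.card : ℤ) = P1.card + P2.card + N1.card + N2.card := by
    rw [hP1, hP2, hN1, hN2, Finset.card_filter, Finset.card_filter, Finset.card_filter,
      Finset.card_filter, Finset.card_eq_sum_ones]
    push_cast
    rw [← Finset.sum_add_distrib, ← Finset.sum_add_distrib, ← Finset.sum_add_distrib]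
    refine Finset.sum_congr rfl fun c hc => ?_
    rcases hδ c hc with h | h | h | h <;> simp [h]
  have hsum : ∑ c ∈ D, δ c = P1.card + 2 * P2.card - N1.card - 2 * N2.card := by
    rw [hP1, hP2, hN1, hN2, Finset.card_filter, Finset.card_filter, Finset.card_filter,
      Finset.card_filter]
    push_cast
    rw [Finset.mul_sum, Finset.mul_sum, ← Finset.sum_add_distrib, ← Finset.sum_sub_distrib,
      ← Finset.sum_sub_distrib]
    refine Finset.sum_congr rfl fun c hc => ?_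
    rcases hδ c hc with h | h | h | h <;> simp [h]
  have pair : ∀ a ∈ D, ∀ b ∈ D, a ≠ b → δ a + δ b ≠ 0 := by
    intro a ha b hb hab h0
    refine hcon {a, b} ?_ (by simp) ?_
    · intro z hz
      simp only [Finset.mem_insert, Finset.mem_singleton] at hz
      rcases hz with rfl | rfl <;> assumption
    · rw [Finset.sum_pair hab]; exact h0
  have triple : ∀ a ∈ D, ∀ b ∈ D, ∀ c ∈ D, a ≠ b → a ≠ c → b ≠ c → δ a + δ b + δ c ≠ 0 := by
    intro a ha b hb c hc hab hac hbc h0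
    refine hcon {a, b, c} ?_ (by simp) ?_
    · intro z hz
      simp only [Finset.mem_insert, Finset.mem_singleton] at hz
      rcases hz with rfl | rfl | rfl <;> assumption
    · rw [Finset.sum_insert (by simp [hab, hac]), Finset.sum_pair hbc]; linarith
  have mP1 : ∀ a ∈ P1, a ∈ D ∧ δ a = 1 := fun a ha => by simpa [hP1] using ha
  have mP2 : ∀ a ∈ P2, a ∈ D ∧ δ a = 2 := fun a ha => by simpa [hP2] using ha
  have mN1 : ∀ a ∈ N1, a ∈ D ∧ δ a = -1 := fun a ha => by simpa [hN1] using ha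
  have mN2 : ∀ a ∈ N2, a ∈ D ∧ δ a = -2 := fun a ha => by simpa [hN2] using ha
  have c1 : P1.card = 0 ∨ N1.card = 0 := by
    by_contra h
    push Not at h
    obtain ⟨a, ha⟩ := Finset.card_pos.1 (Nat.pos_of_ne_zero h.1)
    obtain ⟨b, hb⟩ := Finset.card_pos.1 (Nat.pos_of_ne_zero h.2)
    obtain ⟨a1, a2⟩ := mP1 a ha
    obtain ⟨b1, b2⟩ := mN1 b hb
    exact pair a a1 b b1 (by rintro rfl; omega) (by omega)
  have c2 : P2.card = 0 ∨ N2.card = 0 := by
    by_contra h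
    push Not at h
    obtain ⟨a, ha⟩ := Finset.card_pos.1 (Nat.pos_of_ne_zero h.1)
    obtain ⟨b, hb⟩ := Finset.card_pos.1 (Nat.pos_of_ne_zero h.2)
    obtain ⟨a1, a2⟩ := mP2 a ha
    obtain ⟨b1, b2⟩ := mN2 b hb
    exact pair a a1 b b1 (by rintro rfl; omega) (by omega)
  have c3 : P1.card ≤ 1 ∨ N2.card = 0 := by
    by_contra h
    push Not at h
    obtain ⟨a, ha, b, hb, hab⟩ := Finset.one_lt_card.1 h.1
    obtain ⟨c, hc'⟩ := Finset.card_pos.1 (Nat.pos_of_ne_zero h.2)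
    obtain ⟨a1, a2⟩ := mP1 a ha
    obtain ⟨b1, b2⟩ := mP1 b hb
    obtain ⟨d1, d2⟩ := mN2 c hc'
    exact triple a a1 b b1 c d1 hab (by rintro rfl; omega) (by rintro rfl; omega) (by omega)
  have c4 : N1.card ≤ 1 ∨ P2.card = 0 := by
    by_contra h
    push Not at h
    obtain ⟨a, ha, b, hb, hab⟩ := Finset.one_lt_card.1 h.1
    obtain ⟨c, hc'⟩ := Finset.card_pos.1 (Nat.pos_of_ne_zero h.2)
    obtain ⟨a1, a2⟩ := mN1 a ha
    obtain ⟨b1, b2⟩ := mN1 b hb
    obtain ⟨d1, d2⟩ := mP2 c hc'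
    exact triple a a1 b b1 c d1 hab (by rintro rfl; omega) (by rintro rfl; omega) (by omega)
  rw [hsum] at hs1 hs2
  omega

/-- Valid choices. -/
def Valid (M : ℕ → ℕ → ℕ) (s : Finset ℕ) (z : ℕ → ℕ) : Prop := ∀ c ∈ s, z c ≤ 2 ∧ M c (z c) ≠ 0

/-- The deviations from `y` outside `h, j`. -/
def dv (s : Finset ℕ) (y : ℕ → ℕ) (h j : ℕ) (z : ℕ → ℕ) : Finset ℕ :=
  s.filter (fun c => z c ≠ y c ∧ c ≠ h ∧ c ≠ j)

/-- Removing deviations. -/
theorem reduce {M : ℕ → ℕ → ℕ} {s : Finset ℕ} {y : ℕ → ℕ} {h j : ℕ} {μ : ℤ} {A : ℤ → Prop}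
    (hy : ∀ c ∈ s, y c ≤ 2)
    (hopt : ∀ c ∈ s, c ≠ h → M c (y c) ≠ 0 ∧ ∀ x ≤ 2, M c x ≠ 0 →
      2 * (M c x : ℤ) - μ * x ≤ 2 * (M c (y c) : ℤ) - μ * (y c : ℤ))
    (hstep : ∀ z, Valid M s z → A (∑ c ∈ s, (z c : ℤ)) → 13 ≤ (dv s y h j z).card →
      ∃ D' ⊆ dv s y h j z, D'.Nonempty ∧
        A (∑ c ∈ s, (z c : ℤ) - ∑ c ∈ D', ((z c : ℤ) - y c)) ∧
        μ * ∑ c ∈ D', ((z c : ℤ) - y c) ≤ 0) :
    ∀ (N : ℕ) (z : ℕ → ℕ), (dv s y h j z).card ≤ N → Valid M s z → A (∑ c ∈ s, (z c : ℤ)) →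
      ∃ z', Valid M s z' ∧ A (∑ c ∈ s, (z' c : ℤ)) ∧
        ∑ c ∈ s, (M c (z c) : ℤ) ≤ ∑ c ∈ s, (M c (z' c) : ℤ) ∧ (dv s y h j z').card ≤ 12 ∧
        z' h = z h ∧ z' j = z j := by
  classical
  intro N
  induction N with
  | zero =>
    intro z hN hz hA
    exact ⟨z, hz, hA, le_rfl, by omega, rfl, rfl⟩
  | succ N ih =>
    intro z hN hz hA
    by_cases hb : 13 ≤ (dv s y h j z).card
    · obtain ⟨D', hD, hne, hA', hμ⟩ := hstep z hz hA hb
      have hDs : ∀ c ∈ D', c ∈ s ∧ z c ≠ y c ∧ c ≠ h ∧ c ≠ j := by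
        intro c hc
        have := hD hc
        simpa [dv] using this
      let z1 : ℕ → ℕ := fun c => if c ∈ D' then y c else z c
      have hz1 : Valid M s z1 := by
        intro c hc
        by_cases hcD : c ∈ D'
        · simp only [z1, hcD, if_true]
          exact ⟨hy c hc, (hopt c hc (hDs c hcD).2.2.1).1⟩
        · simp only [z1, hcD, if_false]
          exact hz c hc
      have hsplit : ∀ g : ℕ → ℕ → ℤ, ∑ c ∈ s, g c (z1 c) =
          ∑ c ∈ s, g c (z c) - ∑ c ∈ D', (g c (z c) - g c (y c)) := by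
        intro g
        have hsub : D' ⊆ s := fun c hc => (hDs c hc).1
        rw [← Finset.sum_sdiff hsub, ← Finset.sum_sdiff (f := fun c => g c (z c)) hsub]
        have e1 : ∑ c ∈ s \ D', g c (z1 c) = ∑ c ∈ s \ D', g c (z c) := by
          refine Finset.sum_congr rfl fun c hc => ?_
          rw [Finset.mem_sdiff] at hc
          simp [z1, hc.2]
        have e2 : ∑ c ∈ D', g c (z1 c) = ∑ c ∈ D', g c (y c) := by
          refine Finset.sum_congr rfl fun c hc => ?_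
          simp [z1, hc]
        rw [e1, e2, Finset.sum_sub_distrib]
        ring
      have hsum1 := hsplit (fun _ x => (x : ℤ))
      have hval1 := hsplit (fun c x => (M c x : ℤ))
      have hcard : (dv s y h j z1).card ≤ N := by
        have hlt : (dv s y h j z1).card < (dv s y h j z).card := by
          refine Finset.card_lt_card ?_
          rw [Finset.ssubset_iff_of_subset]
          · obtain ⟨c, hc⟩ := hne
            refine ⟨c, hD hc, ?_⟩
            simp [dv, z1, hc]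
          · intro c hc
            simp only [dv, Finset.mem_filter] at hc ⊢
            refine ⟨hc.1, ?_, hc.2.2⟩
            intro he
            refine hc.2.1 ?_
            by_cases hcD : c ∈ D' <;> simp [z1, hcD, he]
        omega
      obtain ⟨z', k1, k2, k3, k4, k5, k6⟩ := ih z1 hcard hz1 (by rw [hsum1]; exact hA')
      refine ⟨z', k1, k2, le_trans ?_ k3, k4, ?_, ?_⟩
      · rw [hval1]
        have hgain : 2 * ∑ c ∈ D', ((M c (z c) : ℤ) - M c (y c)) ≤
            μ * ∑ c ∈ D', ((z c : ℤ) - y c) := by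
          rw [Finset.mul_sum, Finset.mul_sum]
          refine Finset.sum_le_sum fun c hc => ?_
          obtain ⟨g1, g2, g3, g4⟩ := hDs c hc
          have := (hopt c g1 g3).2 (z c) (hz c g1).1 (hz c g1).2
          linarith
        linarith
      · rw [k5]
        have : h ∉ D' := fun hh => (hDs h hh).2.2.1 rfl
        simp [z1, this]
      · rw [k6]
        have : j ∉ D' := fun hh => (hDs j hh).2.2.2 rfl
        simp [z1, this]
    · exact ⟨z, hz, hA, le_rfl, by omega, rfl, rfl⟩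

/-- The deviations of the sums. -/
theorem dv_sum {M : ℕ → ℕ → ℕ} {s : Finset ℕ} {y : ℕ → ℕ} {h j : ℕ} {z : ℕ → ℕ}
    (hy : ∀ c ∈ s, y c ≤ 2) (hz : Valid M s z) :
    ∑ c ∈ dv s y h j z, ((z c : ℤ) - y c) ≤ ∑ c ∈ s, (z c : ℤ) - ∑ c ∈ s, (y c : ℤ) + 4 ∧
    ∑ c ∈ s, (z c : ℤ) - ∑ c ∈ s, (y c : ℤ) - 4 ≤ ∑ c ∈ dv s y h j z, ((z c : ℤ) - y c) := by
  classical
  have hsub : dv s y h j z ⊆ s := Finset.filter_subset _ _
  have e1 : ∑ c ∈ s, (z c : ℤ) - ∑ c ∈ s, (y c : ℤ) =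
      ∑ c ∈ s \ dv s y h j z, ((z c : ℤ) - y c) + ∑ c ∈ dv s y h j z, ((z c : ℤ) - y c) := by
    rw [Finset.sum_sdiff hsub, Finset.sum_sub_distrib]
  have e2 : ∑ c ∈ s \ dv s y h j z, ((z c : ℤ) - y c) =
      ∑ c ∈ s ∩ {h, j}, ((z c : ℤ) - y c) := by
    symm
    refine Finset.sum_subset_zero_on_sdiff ?_ ?_ (fun _ _ => rfl)
    · intro c hc
      simp only [Finset.mem_inter, Finset.mem_insert, Finset.mem_singleton] at hc
      rw [Finset.mem_sdiff]
      refine ⟨hc.1, ?_⟩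
      simp only [dv, Finset.mem_filter]
      rintro ⟨_, _, h1, h2⟩
      rcases hc.2 with h3 | h3 <;> contradiction
    · intro c hc
      simp only [Finset.mem_sdiff, Finset.mem_inter, Finset.mem_insert, Finset.mem_singleton, dv,
        Finset.mem_filter, not_and, not_or] at hc
      obtain ⟨⟨h1, h2⟩, h3⟩ := hc
      have h4 := h3 h1
      have : z c = y c := by
        by_contra hne
        exact h2 h1 hne h4.1 h4.2
      rw [this]; ring
  have hb : ∀ c ∈ s, (z c : ℤ) - y c ≤ 2 ∧ -2 ≤ (z c : ℤ) - y c := by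
    intro c hc
    have h1 := hy c hc
    have h2 := (hz c hc).1
    omega
  have hcard : (s ∩ {h, j}).card ≤ 2 :=
    (Finset.card_le_card Finset.inter_subset_right).trans Finset.card_le_two
  have u1 : ∑ c ∈ s ∩ {h, j}, ((z c : ℤ) - y c) ≤ 4 := by
    calc ∑ c ∈ s ∩ {h, j}, ((z c : ℤ) - y c) ≤ ∑ c ∈ s ∩ {h, j}, (2 : ℤ) :=
          Finset.sum_le_sum fun c hc => (hb c (Finset.mem_inter.1 hc).1).1
      _ = (s ∩ {h, j}).card * 2 := by rw [Finset.sum_const, nsmul_eq_mul]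
      _ ≤ 4 := by have : ((s ∩ {h, j}).card : ℤ) ≤ 2 := by exact_mod_cast hcard
                  linarith
  have u2 : -4 ≤ ∑ c ∈ s ∩ {h, j}, ((z c : ℤ) - y c) := by
    calc (-4 : ℤ) ≤ (s ∩ {h, j}).card * (-2) := by
                  have : ((s ∩ {h, j}).card : ℤ) ≤ 2 := by exact_mod_cast hcard
                  linarith
      _ = ∑ c ∈ s ∩ {h, j}, (-2 : ℤ) := by rw [Finset.sum_const, nsmul_eq_mul]
      _ ≤ ∑ c ∈ s ∩ {h, j}, ((z c : ℤ) - y c) :=
          Finset.sum_le_sum fun c hc => (hb c (Finset.mem_inter.1 hc).1).2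
  constructor <;> linarith

theorem dv_delta {M : ℕ → ℕ → ℕ} {s : Finset ℕ} {y : ℕ → ℕ} {h j : ℕ} {z : ℕ → ℕ}
    (hy : ∀ c ∈ s, y c ≤ 2) (hz : Valid M s z) : ∀ c ∈ dv s y h j z, (z c : ℤ) - y c = 1 ∨
      (z c : ℤ) - y c = 2 ∨ (z c : ℤ) - y c = -1 ∨ (z c : ℤ) - y c = -2 := by
  intro c hc
  simp only [dv, Finset.mem_filter] at hc
  have h1 := hy c hc.1
  have h2 := (hz c hc.1).1
  have h3 := hc.2.1
  omega

end Pool.Agent.L7h11.UM
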