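import Mathlib
import Pool.Agent.L7h11.UM.Prox
import Pool.Agent.L7h11.UM.Rec

set_option autoImplicit false

namespace Pool.Agent.L7h11.UM

theorem sumZ {cs : List ℕ} (hn : cs.Nodup) (z : ℕ → ℕ) :
    ∑ c ∈ cs.toFinset, (z c : ℤ) = ((cs.map z).sum : ℤ) := by
  rw [← List.sum_toFinset z hn]
  push_cast
  rfl

theorem dev_le {cs : List ℕ} (hn : cs.Nodup) (y : ℕ → ℕ) (h j : ℕ) (z : ℕ → ℕ) :
    dev z y cs ≤ (dv cs.toFinset y h j z).card + 2 := by
  classical
  have e : dev z y cs = (cs.toFinset.filter (fun c => z c ≠ y c)).card := by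
    unfold dev
    rw [List.countP_eq_length_filter, ← List.toFinset_card_of_nodup (hn.filter _),
      List.toFinset_filter]
    congr 1
    ext c
    simp
  rw [e]
  have hsub : cs.toFinset.filter (fun c => z c ≠ y c) ⊆ dv cs.toFinset y h j z ∪ {h, j} := by
    intro c hc
    simp only [Finset.mem_filter, dv, Finset.mem_union, Finset.mem_insert,
      Finset.mem_singleton] at hc ⊢
    by_cases h1 : c = h
    · exact Or.inr (Or.inl h1)
    · by_cases h2 : c = j
      · exact Or.inr (Or.inr h2)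
      · exact Or.inl ⟨hc.1, hc.2, h1, h2⟩
  calc (cs.toFinset.filter (fun c => z c ≠ y c)).card ≤ (dv cs.toFinset y h j z ∪ {h, j}).card :=
        Finset.card_le_card hsub
    _ ≤ (dv cs.toFinset y h j z).card + ({h, j} : Finset ℕ).card := Finset.card_union_le _ _
    _ ≤ (dv cs.toFinset y h j z).card + 2 := by
        have : ({h, j} : Finset ℕ).card ≤ 2 := Finset.card_le_two
        omega

/-- From any choice to a choice with few deviations. -/
theorem main_ge {M : ℕ → ℕ → ℕ} {cs : List ℕ} (hn : cs.Nodup) {y : ℕ → ℕ} {h j : ℕ} {μ : ℤ}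
    {A : ℤ → Prop} (hy : ∀ c ∈ cs, y c ≤ 2)
    (hopt : ∀ c ∈ cs, c ≠ h → M c (y c) ≠ 0 ∧ ∀ x ≤ 2, M c x ≠ 0 →
      2 * (M c x : ℤ) - μ * x ≤ 2 * (M c (y c) : ℤ) - μ * (y c : ℤ))
    (hstep : ∀ z, Valid M cs.toFinset z → A (∑ c ∈ cs.toFinset, (z c : ℤ)) →
      13 ≤ (dv cs.toFinset y h j z).card →
      ∃ D' ⊆ dv cs.toFinset y h j z, D'.Nonempty ∧
        A (∑ c ∈ cs.toFinset, (z c : ℤ) - ∑ c ∈ D', ((z c : ℤ) - y c)) ∧
        μ * ∑ c ∈ D', ((z c : ℤ) - y c) ≤ 0)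
    {x w : ℕ → ℕ} (hx : ∀ c ∈ cs, x c ≤ 2 ∧ w c + 1 ≤ M c (x c) ∧ (c ≠ j → M c (x c) = w c + 1))
    (hA : A ((cs.map x).sum : ℤ)) :
    ∃ z' w' : ℕ → ℕ, (∀ c ∈ cs, z' c ≤ 2 ∧ y c ≤ 2 ∧ w' c + 1 ≤ M c (z' c)) ∧
      A ((cs.map z').sum : ℤ) ∧ (cs.map w).sum ≤ (cs.map w').sum ∧ dev z' y cs ≤ 14 ∧
      z' j = x j ∧ w' j = w j := by
  have hval : Valid M cs.toFinset x := by
    intro c hc
    obtain ⟨h1, h2, _⟩ := hx c (List.mem_toFinset.1 hc)
    exact ⟨h1, by omega⟩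
  obtain ⟨z', k1, k2, k3, k4, k5, k6⟩ := reduce (M := M) (s := cs.toFinset) (y := y) (h := h)
    (j := j) (μ := μ) (A := A) (fun c hc => hy c (List.mem_toFinset.1 hc))
    (fun c hc => hopt c (List.mem_toFinset.1 hc)) hstep _ x le_rfl hval (by rw [sumZ hn]; exact hA)
  rw [sumZ hn] at k2
  refine ⟨z', fun c => if c = j then w j else M c (z' c) - 1, ?_, k2, ?_, ?_, k6, by simp⟩
  · intro c hc
    obtain ⟨g1, g2⟩ := k1 c (List.mem_toFinset.2 hc)
    refine ⟨g1, hy c hc, ?_⟩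
    by_cases hcj : c = j
    · subst hcj
      simp only [if_true]
      rw [k6]
      exact (hx c hc).2.1
    · simp only [hcj, if_false]
      omega
  · have h1 : (((cs.map fun c => if c = j then w j else M c (z' c) - 1).sum : ℕ) : ℤ) -
        ((cs.map w).sum : ℤ) = ∑ c ∈ cs.toFinset, (M c (z' c) : ℤ) -
        ∑ c ∈ cs.toFinset, (M c (x c) : ℤ) := by
      rw [← sumZ hn, ← sumZ hn, ← Finset.sum_sub_distrib, ← Finset.sum_sub_distrib]
      refine Finset.sum_congr rfl fun c hc => ?_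
      have hc' := List.mem_toFinset.1 hc
      by_cases hcj : c = j
      · subst hcj
        simp [k6]
      · obtain ⟨g1, g2⟩ := k1 c hc
        have g3 := (hx c hc').2.2 hcj
        simp only [hcj, if_false]
        omega
    omega
  · have := dev_le hn y h j z'
    omega

/-- Sums of choices below the base. -/
theorem sum_le_max {M : ℕ → ℕ → ℕ} {s : Finset ℕ} {y z : ℕ → ℕ} {h : ℕ} (hz : Valid M s z)
    (hmax : ∀ c ∈ s, c ≠ h → ∀ x ≤ 2, M c x ≠ 0 → x ≤ y c) :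
    ∑ c ∈ s, (z c : ℤ) ≤ ∑ c ∈ s, (y c : ℤ) + 2 := by
  classical
  by_cases hh : h ∈ s
  · rw [← Finset.add_sum_erase s (fun c => (z c : ℤ)) hh,
      ← Finset.add_sum_erase s (fun c => (y c : ℤ)) hh]
    have h1 : ∑ c ∈ s.erase h, (z c : ℤ) ≤ ∑ c ∈ s.erase h, (y c : ℤ) := by
      refine Finset.sum_le_sum fun c hc => ?_
      obtain ⟨h2, h3⟩ := Finset.mem_erase.1 hc
      exact_mod_cast hmax c h3 h2 (z c) (hz c h3).1 (hz c h3).2
    have h4 := (hz h hh).1
    have h5 : (0 : ℤ) ≤ y h := Int.natCast_nonneg _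
    have h6 : (z h : ℤ) ≤ 2 := by exact_mod_cast h4
    linarith
  · have h1 : ∑ c ∈ s, (z c : ℤ) ≤ ∑ c ∈ s, (y c : ℤ) := by
      refine Finset.sum_le_sum fun c hc => ?_
      have hne : c ≠ h := fun e => hh (e ▸ hc)
      exact_mod_cast hmax c hc hne (z c) (hz c hc).1 (hz c hc).2
    linarith

/-- Sums of choices above the base. -/
theorem sum_ge_min {M : ℕ → ℕ → ℕ} {s : Finset ℕ} {y z : ℕ → ℕ} {h : ℕ} (hz : Valid M s z)
    (hy : ∀ c ∈ s, y c ≤ 2)
    (hmin : ∀ c ∈ s, c ≠ h → ∀ x ≤ 2, M c x ≠ 0 → y c ≤ x) :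
    ∑ c ∈ s, (y c : ℤ) ≤ ∑ c ∈ s, (z c : ℤ) + 2 := by
  classical
  by_cases hh : h ∈ s
  · rw [← Finset.add_sum_erase s (fun c => (z c : ℤ)) hh,
      ← Finset.add_sum_erase s (fun c => (y c : ℤ)) hh]
    have h1 : ∑ c ∈ s.erase h, (y c : ℤ) ≤ ∑ c ∈ s.erase h, (z c : ℤ) := by
      refine Finset.sum_le_sum fun c hc => ?_
      obtain ⟨h2, h3⟩ := Finset.mem_erase.1 hc
      exact_mod_cast hmin c h3 h2 (z c) (hz c h3).1 (hz c h3).2
    have h4 := hy h hh
    have h5 : (0 : ℤ) ≤ z h := Int.natCast_nonneg _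
    have h6 : (y h : ℤ) ≤ 2 := by exact_mod_cast h4
    linarith
  · have h1 : ∑ c ∈ s, (y c : ℤ) ≤ ∑ c ∈ s, (z c : ℤ) := by
      refine Finset.sum_le_sum fun c hc => ?_
      have hne : c ≠ h := fun e => hh (e ▸ hc)
      exact_mod_cast hmin c hc hne (z c) (hz c hc).1 (hz c hc).2
    linarith

/-- The step for an exact sum. -/
theorem step1 {M : ℕ → ℕ → ℕ} {s : Finset ℕ} {y : ℕ → ℕ} {h j : ℕ} {μ : ℤ} {k X : ℤ}
    (hy : ∀ c ∈ s, y c ≤ 2) (hX1 : k ≤ X + 1) (hX2 : X ≤ k + 3)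
    (halt : (k + 1 ≤ ∑ c ∈ s, (y c : ℤ) ∧ ∑ c ∈ s, (y c : ℤ) ≤ k + 2) ∨
      (∑ c ∈ s, (y c : ℤ) ≤ k + 2 ∧ ∀ c ∈ s, c ≠ h → ∀ x ≤ 2, M c x ≠ 0 → x ≤ y c) ∨
      (k + 3 ≤ ∑ c ∈ s, (y c : ℤ) ∧ ∀ c ∈ s, c ≠ h → ∀ x ≤ 2, M c x ≠ 0 → y c ≤ x))
    (z : ℕ → ℕ) (hz : Valid M s z) (hS : ∑ c ∈ s, (z c : ℤ) = X)
    (hc : 13 ≤ (dv s y h j z).card) :
    ∃ D' ⊆ dv s y h j z, D'.Nonempty ∧
      ∑ c ∈ s, (z c : ℤ) - ∑ c ∈ D', ((z c : ℤ) - y c) = X ∧
      μ * ∑ c ∈ D', ((z c : ℤ) - y c) ≤ 0 := by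
  have hd := dv_sum (h := h) (j := j) hy hz
  have hb : ∑ c ∈ s, (z c : ℤ) - ∑ c ∈ s, (y c : ℤ) ≤ 8 ∧
      -8 ≤ ∑ c ∈ s, (z c : ℤ) - ∑ c ∈ s, (y c : ℤ) := by
    rcases halt with h1 | h1 | h1
    · omega
    · have := sum_le_max (h := h) hz h1.2
      omega
    · have := sum_ge_min (h := h) hz hy h1.2
      omega
  obtain ⟨D', h1, h2, h3⟩ := zero_sum (dv s y h j z) (fun c => (z c : ℤ) - y c)
    (dv_delta hy hz) hc (by linarith [hd.1, hb.1]) (by linarith [hd.2, hb.2])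
  exact ⟨D', h1, h2, by rw [h3]; linarith, by rw [h3]; linarith⟩

/-- The step for sums `≥ X`. -/
theorem step0 {M : ℕ → ℕ → ℕ} {s : Finset ℕ} {y : ℕ → ℕ} {h j : ℕ} {μ : ℤ} {k X : ℤ}
    (hy : ∀ c ∈ s, y c ≤ 2) (hX1 : k ≤ X) (hX2 : X ≤ k + 4)
    (halt : (k + 1 ≤ ∑ c ∈ s, (y c : ℤ) ∧ ∑ c ∈ s, (y c : ℤ) ≤ k + 2 ∧ μ ≤ 0) ∨
      (∑ c ∈ s, (y c : ℤ) ≤ k + 2 ∧ μ ≤ 0 ∧ ∀ c ∈ s, c ≠ h → ∀ x ≤ 2, M c x ≠ 0 → x ≤ y c) ∨
      (k + 3 ≤ ∑ c ∈ s, (y c : ℤ) ∧ μ = 0))
    (z : ℕ → ℕ) (hz : Valid M s z) (hS : X ≤ ∑ c ∈ s, (z c : ℤ))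
    (hc : 13 ≤ (dv s y h j z).card) :
    ∃ D' ⊆ dv s y h j z, D'.Nonempty ∧
      X ≤ ∑ c ∈ s, (z c : ℤ) - ∑ c ∈ D', ((z c : ℤ) - y c) ∧
      μ * ∑ c ∈ D', ((z c : ℤ) - y c) ≤ 0 := by
  have hd := dv_sum (h := h) (j := j) hy hz
  have hδ := dv_delta (h := h) (j := j) hy hz
  have hzero : ∑ c ∈ s, (z c : ℤ) - ∑ c ∈ s, (y c : ℤ) ≤ 8 →
      -8 ≤ ∑ c ∈ s, (z c : ℤ) - ∑ c ∈ s, (y c : ℤ) →
      ∃ D' ⊆ dv s y h j z, D'.Nonempty ∧
      X ≤ ∑ c ∈ s, (z c : ℤ) - ∑ c ∈ D', ((z c : ℤ) - y c) ∧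
      μ * ∑ c ∈ D', ((z c : ℤ) - y c) ≤ 0 := by
    intro b1 b2
    obtain ⟨D', h1, h2, h3⟩ := zero_sum (dv s y h j z) (fun c => (z c : ℤ) - y c)
      hδ hc (by linarith [hd.1]) (by linarith [hd.2])
    exact ⟨D', h1, h2, by rw [h3]; linarith, by rw [h3]; linarith⟩
  have hsingle : ∀ c ∈ dv s y h j z, X ≤ ∑ c ∈ s, (z c : ℤ) - ((z c : ℤ) - y c) →
      μ * ((z c : ℤ) - y c) ≤ 0 → ∃ D' ⊆ dv s y h j z, D'.Nonempty ∧
      X ≤ ∑ c ∈ s, (z c : ℤ) - ∑ c ∈ D', ((z c : ℤ) - y c) ∧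
      μ * ∑ c ∈ D', ((z c : ℤ) - y c) ≤ 0 := by
    intro c hc1 h1 h2
    exact ⟨{c}, by simpa using hc1, by simp, by simpa using h1, by simpa using h2⟩
  rcases halt with ⟨h1, h2, h3⟩ | ⟨h1, h2, h3⟩ | ⟨h1, h2⟩
  · by_cases hbig : ∑ c ∈ s, (z c : ℤ) - ∑ c ∈ s, (y c : ℤ) ≤ 8
    · exact hzero hbig (by omega)
    · have hpos : ∃ c ∈ dv s y h j z, 0 < (z c : ℤ) - y c := by
        by_contra hcon
        push Not at hcon
        have := Finset.sum_nonpos hcon
        omega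
      obtain ⟨c, hc1, hc2⟩ := hpos
      have := hδ c hc1
      exact hsingle c hc1 (by omega) (by nlinarith)
  · have := sum_le_max (h := h) hz h3
    exact hzero (by omega) (by omega)
  · by_cases hneg : ∃ c ∈ dv s y h j z, (z c : ℤ) - y c < 0
    · obtain ⟨c, hc1, hc2⟩ := hneg
      exact hsingle c hc1 (by omega) (by rw [h2]; omega)
    · push Not at hneg
      have hge : (13 : ℤ) ≤ ∑ c ∈ dv s y h j z, ((z c : ℤ) - y c) := by
        calc (13 : ℤ) ≤ (dv s y h j z).card := by exact_mod_cast hc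
          _ = ∑ c ∈ dv s y h j z, (1 : ℤ) := by simp
          _ ≤ ∑ c ∈ dv s y h j z, ((z c : ℤ) - y c) := by
              refine Finset.sum_le_sum fun c hc1 => ?_
              have g1 := hneg c hc1
              have g2 := hδ c hc1
              omega
      obtain ⟨c, hc1⟩ := Finset.card_pos.1 (show 0 < (dv s y h j z).card by omega)
      have g2 := hδ c hc1
      exact hsingle c hc1 (by omega) (by rw [h2]; omega)

theorem F0_spec {i m : ℕ} (h : F0 i = m + 1) : i = R + 2 ∧ m = 0 := by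
  unfold F0 at h
  split_ifs at h with h0
  exact ⟨h0, by omega⟩

theorem s_loc : S_LOC := by
  intro T M C cs y hn hCM hB
  obtain ⟨hy, hB⟩ := hB
  have hYs := sumZ hn y
  have hys : ∀ c ∈ cs.toFinset, y c ≤ 2 := fun c hc => hy c (List.mem_toFinset.1 hc)
  -- upper bounds for the window
  have up1 : ∀ i m, (win M C y cs F0 (fun _ => 0)).1 i = m + 1 → ∃ x w : ℕ → ℕ,
      (∀ c ∈ cs, x c ≤ 2) ∧ i + (cs.map y).sum = R + 2 + (cs.map x).sum ∧
      m = (cs.map w).sum ∧ m + 1 ≤ optF M cs (cs.map x).sum := by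
    intro i m h
    obtain ⟨i0, m0, x, w, h1, h2, h3, h4⟩ := win_le1 hn h
    obtain ⟨h5, h6⟩ := F0_spec h1
    have h7 := le_optF (M := M) (cs := cs) (x := x) (w := w) (fun c hc => (h2 c hc).1)
      (fun c hc => (h2 c hc).2.ge)
    exact ⟨x, w, fun c hc => (h2 c hc).1, by omega, by omega, by omega⟩
  have up2 : ∀ i m, (win M C y cs F0 (fun _ => 0)).2 i = m + 1 → ∃ x w : ℕ → ℕ,
      (∀ c ∈ cs, x c ≤ 2) ∧ i + (cs.map y).sum = R + 2 + (cs.map x).sum ∧
      m = (cs.map w).sum ∧ m + 1 ≤ optC M C cs (cs.map x).sum := by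
    intro i m h
    rcases win_le2 hn h with ⟨i0, m0, x, w, h1, _⟩ | ⟨j, i0, m0, x, w, hj, h1, h2, h2', h3, h4⟩
    · simp at h1
    · obtain ⟨h5, h6⟩ := F0_spec h1
      have h7 := le_optC (M := M) (C := C) (cs := cs) (x := x) (w := w) hj
        (fun c hc => (h2 c hc).1) (fun c hc => by
          by_cases hcj : c = j
          · subst hcj
            have := hCM c hc (x c) (h2 c hc).1
            omega
          · exact ((h2 c hc).2 hcj).ge) h2'.ge
      exact ⟨x, w, fun c hc => (h2 c hc).1, by omega, by omega, by omega⟩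
  constructor
  · -- exact sums
    intro hT X hX1 hX2
    refine nat_eq_of ?_ ?_
    · intro m h
      unfold finE at h
      obtain ⟨i, hi, h1⟩ : ∃ i ∈ Finset.Icc 2 (2 * R + 2), (if (cs.map y).sum + i = X + R + 2 then
          (win M C y cs F0 (fun _ => 0)).1 i else 0) = m + 1 := by
        obtain ⟨i, hi, he⟩ := Finset.exists_mem_eq_sup (Finset.Icc 2 (2 * R + 2)) (by simp)
          (fun i => if (cs.map y).sum + i = X + R + 2 then
            (win M C y cs F0 (fun _ => 0)).1 i else 0)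
        exact ⟨i, hi, by rw [← he, h]⟩
      split_ifs at h1 with h2
      obtain ⟨x, w, g1, g2, g3, g4⟩ := up1 i m h1
      have : (cs.map x).sum = X := by omega
      rw [← this]; exact g4
    · intro m h
      obtain ⟨x, w, g1, g2, g3, g4⟩ := optF_spec hn h
      rcases hB with ⟨c, hc, h0⟩ | ⟨hh, μ, hopt, halt⟩
      · have := h0 (x c) (g1 c hc)
        have := g2 c hc
        omega
      · have halt' : ((cs.length : ℤ) + 1 ≤ ∑ c ∈ cs.toFinset, (y c : ℤ) ∧
            ∑ c ∈ cs.toFinset, (y c : ℤ) ≤ cs.length + 2) ∨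
          (∑ c ∈ cs.toFinset, (y c : ℤ) ≤ cs.length + 2 ∧
            ∀ c ∈ cs.toFinset, c ≠ hh → ∀ x ≤ 2, M c x ≠ 0 → x ≤ y c) ∨
          ((cs.length : ℤ) + 3 ≤ ∑ c ∈ cs.toFinset, (y c : ℤ) ∧
            ∀ c ∈ cs.toFinset, c ≠ hh → ∀ x ≤ 2, M c x ≠ 0 → y c ≤ x) := by
          rw [hYs]
          rcases halt with h1 | h1 | h1 | h1
          · left; omega
          · right; left
            exact ⟨by omega, fun c hc => h1.2.2 c (List.mem_toFinset.1 hc)⟩
          · omega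
          · right; right
            exact ⟨by omega, fun c hc => h1.2.2 c (List.mem_toFinset.1 hc)⟩
        obtain ⟨z', w', k1, k2, k3, k4, _, _⟩ := main_ge (A := fun S => S = (X : ℤ)) (j := hh) hn hy
          hopt (fun z hz hS hc => step1 (μ := μ) hys (by omega) (by omega) halt' z hz hS hc)
          (x := x) (w := w) (fun c hc => ⟨g1 c hc, (g2 c hc).ge, fun _ => g2 c hc⟩)
          (by rw [g3])
        obtain ⟨i, i1, i2, i3, i4, _, _⟩ := win_ge (C := C) (D := fun _ => 0) (F := F0)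
          (i0 := R + 2) (m0 := 0) k1 (by unfold R; omega) (by unfold R; omega)
        have i5 := i4 (by simp [F0])
        have k2' : (cs.map z').sum = X := by exact_mod_cast k2
        unfold finE
        have := Finset.le_sup (f := fun i => if (cs.map y).sum + i = X + R + 2 then
            (win M C y cs F0 (fun _ => 0)).1 i else 0) (Finset.mem_Icc.2 ⟨i2, i3⟩)
        rw [if_pos (by omega)] at this
        omega
  · intro hT X hX1 hX2
    have stepA : ∀ (hh : ℕ) (μ : ℤ), ((cs.length + 1 ≤ (cs.map y).sum ∧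
        (cs.map y).sum ≤ cs.length + 2 ∧ (T = 0 → μ ≤ 0)) ∨
        ((cs.map y).sum ≤ cs.length + 2 ∧ (T = 0 → μ ≤ 0) ∧
          ∀ c ∈ cs, c ≠ hh → ∀ x ≤ 2, M c x ≠ 0 → x ≤ y c) ∨
        (cs.length + 3 ≤ (cs.map y).sum ∧ T = 0 ∧ μ = 0) ∨
        (cs.length + 3 ≤ (cs.map y).sum ∧ T = 1 ∧
          ∀ c ∈ cs, c ≠ hh → ∀ x ≤ 2, M c x ≠ 0 → y c ≤ x)) →
        ∀ j z, Valid M cs.toFinset z → (X : ℤ) ≤ ∑ c ∈ cs.toFinset, (z c : ℤ) →
        13 ≤ (dv cs.toFinset y hh j z).card →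
        ∃ D' ⊆ dv cs.toFinset y hh j z, D'.Nonempty ∧
          (X : ℤ) ≤ ∑ c ∈ cs.toFinset, (z c : ℤ) - ∑ c ∈ D', ((z c : ℤ) - y c) ∧
          μ * ∑ c ∈ D', ((z c : ℤ) - y c) ≤ 0 := by
      intro hh μ halt j z hz hS hc
      refine step0 (k := (cs.length : ℤ)) hys (by omega) (by omega) ?_ z hz hS hc
      rw [hYs]
      rcases halt with h1 | h1 | h1 | h1
      · left
        exact ⟨by omega, by omega, h1.2.2 hT⟩
      · right; left
        exact ⟨by omega, h1.2.1 hT, fun c hc => h1.2.2 c (List.mem_toFinset.1 hc)⟩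
      · right; right
        exact ⟨by omega, h1.2.2⟩
      · omega
    constructor
    · refine nat_eq_of ?_ ?_
      · intro m h
        unfold finG at h
        obtain ⟨i, hi, he⟩ := Finset.exists_mem_eq_sup (Finset.Icc 2 (2 * R + 2)) (by simp)
          (fun i => if X + R + 2 ≤ (cs.map y).sum + i then
            (win M C y cs F0 (fun _ => 0)).1 i else 0)
        rw [he] at h
        split_ifs at h with h2
        obtain ⟨x, w, g1, g2, g3, g4⟩ := up1 i m h
        have hmem : (cs.map x).sum ∈ Finset.Icc X (2 * cs.length) := by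
          rw [Finset.mem_Icc]
          exact ⟨by omega, sum_le_two g1⟩
        exact g4.trans (Finset.le_sup (f := optF M cs) hmem)
      · intro m h
        obtain ⟨X', hX', h⟩ := show ∃ X' ∈ Finset.Icc X (2 * cs.length), optF M cs X' = m + 1 by
          have hne : (Finset.Icc X (2 * cs.length)).Nonempty := by
            by_contra hcon
            rw [Finset.not_nonempty_iff_eq_empty] at hcon
            rw [hcon] at h
            simp at h
          obtain ⟨X', hX', he⟩ := Finset.exists_mem_eq_sup _ hne (optF M cs)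
          exact ⟨X', hX', by rw [← he, h]⟩
        rw [Finset.mem_Icc] at hX'
        obtain ⟨x, w, g1, g2, g3, g4⟩ := optF_spec hn h
        rcases hB with ⟨c, hc, h0⟩ | ⟨hh, μ, hopt, halt⟩
        · have := h0 (x c) (g1 c hc)
          have := g2 c hc
          omega
        · obtain ⟨z', w', k1, k2, k3, k4, _, _⟩ := main_ge (A := fun S => (X : ℤ) ≤ S) (j := hh)
            hn hy hopt (stepA hh μ halt hh) (x := x) (w := w)
            (fun c hc => ⟨g1 c hc, (g2 c hc).ge, fun _ => g2 c hc⟩)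
            (by rw [g3]; exact_mod_cast hX'.1)
          obtain ⟨i, i1, i2, i3, i4, _, _⟩ := win_ge (C := C) (D := fun _ => 0) (F := F0)
            (i0 := R + 2) (m0 := 0) k1 (by unfold R; omega) (by unfold R; omega)
          have i5 := i4 (by simp [F0])
          have k2' : X ≤ (cs.map z').sum := by exact_mod_cast k2
          unfold finG
          have := Finset.le_sup (f := fun i => if X + R + 2 ≤ (cs.map y).sum + i then
              (win M C y cs F0 (fun _ => 0)).1 i else 0) (Finset.mem_Icc.2 ⟨i2, i3⟩)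
          rw [if_pos (by omega)] at this
          omega
    · refine nat_eq_of ?_ ?_
      · intro m h
        unfold finG at h
        obtain ⟨i, hi, he⟩ := Finset.exists_mem_eq_sup (Finset.Icc 2 (2 * R + 2)) (by simp)
          (fun i => if X + R + 2 ≤ (cs.map y).sum + i then
            (win M C y cs F0 (fun _ => 0)).2 i else 0)
        rw [he] at h
        split_ifs at h with h2
        obtain ⟨x, w, g1, g2, g3, g4⟩ := up2 i m h
        have hmem : (cs.map x).sum ∈ Finset.Icc X (2 * cs.length) := by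
          rw [Finset.mem_Icc]
          exact ⟨by omega, sum_le_two g1⟩
        exact g4.trans (Finset.le_sup (f := optC M C cs) hmem)
      · intro m h
        obtain ⟨X', hX', h⟩ := show ∃ X' ∈ Finset.Icc X (2 * cs.length), optC M C cs X' = m + 1 by
          have hne : (Finset.Icc X (2 * cs.length)).Nonempty := by
            by_contra hcon
            rw [Finset.not_nonempty_iff_eq_empty] at hcon
            rw [hcon] at h
            simp at h
          obtain ⟨X', hX', he⟩ := Finset.exists_mem_eq_sup _ hne (optC M C cs)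
          exact ⟨X', hX', by rw [← he, h]⟩
        rw [Finset.mem_Icc] at hX'
        obtain ⟨j, x, w, hj, g1, g2, g2', g3, g4⟩ := optC_spec hn h
        have hval : ∀ c ∈ cs, w c + 1 ≤ M c (x c) := by
          intro c hc
          by_cases hcj : c = j
          · subst hcj
            have := hCM c hc (x c) (g1 c hc)
            omega
          · exact (g2 c hc hcj).ge
        rcases hB with ⟨c, hc, h0⟩ | ⟨hh, μ, hopt, halt⟩
        · have := h0 (x c) (g1 c hc)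
          have := hval c hc
          omega
        · obtain ⟨z', w', k1, k2, k3, k4, k5, k6⟩ := main_ge (A := fun S => (X : ℤ) ≤ S) (j := j)
            hn hy hopt (stepA hh μ halt j) (x := x) (w := w)
            (fun c hc => ⟨g1 c hc, hval c hc, g2 c hc⟩)
            (by rw [g3]; exact_mod_cast hX'.1)
          obtain ⟨i, i1, i2, i3, _, _, i4⟩ := win_ge (C := C) (D := fun _ => 0) (F := F0)
            (i0 := R + 2) (m0 := 0) k1 (by unfold R; omega) (by unfold R; omega)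
          have i5 := i4 (by simp [F0]) ⟨j, hj, by rw [k5, k6]; exact g2'.ge⟩
          have k2' : X ≤ (cs.map z').sum := by exact_mod_cast k2
          unfold finG
          have := Finset.le_sup (f := fun i => if X + R + 2 ≤ (cs.map y).sum + i then
              (win M C y cs F0 (fun _ => 0)).2 i else 0) (Finset.mem_Icc.2 ⟨i2, i3⟩)
          rw [if_pos (by omega)] at this
          omega

end Pool.Agent.L7h11.UM
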