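import Mathlib
import Pool.Agent.L7h11.UM.Rec

set_option autoImplicit false

namespace Pool.Agent.L7h11.UM

theorem wt_eq {n : ℕ} {ord par : ℕ → ℕ} (hR : Rooting n ord par) {v : ℕ} (hv : v < n)
    (f : ℕ → ℕ) : wt n par v f = f v + ∑ c ∈ kids n par v, wt n par c f := by
  unfold wt
  exact sum_descF hR hv f

theorem sup_pos {A : Finset ℕ} {g : ℕ → ℕ} {m : ℕ} (h : A.sup g = m + 1) :
    ∃ X ∈ A, g X = m + 1 := by
  have hne : A.Nonempty := by
    by_contra hcon
    rw [Finset.not_nonempty_iff_eq_empty] at hcon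
    rw [hcon] at h
    simp at h
  obtain ⟨X, hX, he⟩ := Finset.exists_mem_eq_sup A hne g
  exact ⟨X, hX, by rw [← he, h]⟩

section

variable {n : ℕ} {ord par : ℕ → ℕ} (hR : Rooting n ord par) {v : ℕ} (hv : v < n) {cs : List ℕ}
  (hn : cs.Nodup) (hc : ∀ c, c ∈ cs ↔ c < n ∧ par c = v)

include hR hv hn hc

/-- From a solution to a choice. -/
theorem down {a b T : ℕ} {f : ℕ → ℕ} (hb : Below n par v a b f) (hT : T = 0 → ¬ Tight n par f v) :
    nb n par f v = a + b + (cs.map f).sum ∧ (kids n par v).card = cs.length ∧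
    wt n par v f = a + (cs.map (fun c => wt n par c f)).sum ∧ (∀ c ∈ cs, f c ≤ 2) ∧
    (∀ c ∈ cs, wt n par c f + 1 ≤ MM n par a T c (f c)) := by
  have hmem : ∀ c ∈ cs, c ∈ kids n par v := fun c h => mem_kids.2 ((hc c).1 h)
  refine ⟨?_, kids_card hn hc, ?_, ?_, ?_⟩
  · unfold nb
    rw [hb.1, hb.2.1, kids_sum hn hc]
  · rw [wt_eq hR hv, hb.1, kids_sum hn hc]
  · intro c h
    obtain ⟨c1, c2⟩ := (hc c).1 h
    exact (hb.2.2 c (.step c1 (by rw [c2]; exact .refl))).1
  · intro c h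
    exact le_MM hR hv (hmem c h) hb hT

/-- From a choice to a solution. -/
theorem up {a b T : ℕ} (ha : a ≤ 2) {x w : ℕ → ℕ}
    (F : ℕ → ℕ → ℕ) (hF : ∀ c ∈ cs, Below n par c (x c) a (F c) ∧ wt n par c (F c) = w c ∧
      (Tight n par (F c) c ∨ (T = 0 → 1 ≤ x c → ∃ d ∈ kids n par c, Tight n par (F c) d)))
    (hsum : cs.length + 3 ≤ a + b + (cs.map x).sum)
    (hT : T ≠ 0 → a + b + (cs.map x).sum = cs.length + 3) :
    ∃ f, Below n par v a b f ∧ nb n par f v = a + b + (cs.map x).sum ∧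
      (kids n par v).card = cs.length ∧ wt n par v f = a + (cs.map w).sum ∧
      ∀ c ∈ cs, Tight n par (F c) c → Tight n par f c := by
  have hmem : ∀ c, c ∈ kids n par v → c ∈ cs := fun c h => (hc c).2 (mem_kids.1 h)
  have hmem' : ∀ c ∈ cs, c ∈ kids n par v := fun c h => mem_kids.2 ((hc c).1 h)
  obtain ⟨f, h1, h2, h3, h4, h5, h6⟩ := glue (b := b) hR hv ha F x
    (fun c h => (hF c (hmem c h)).1)
  have hcard := kids_card hn hc
  rw [kids_sum hn hc] at h4
  have h5' : wt n par v f = a + (cs.map w).sum := by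
    rw [h5, kids_sum hn hc]
    congr 2
    exact List.map_congr_left fun c h => (hF c h).2.1
  rw [kids_sum hn hc, hcard] at h6
  refine ⟨f, h6 hsum ?_, h4, hcard, h5', ?_⟩
  · intro c h hx
    obtain ⟨g1, g2⟩ := h3 c h
    rcases (hF c (hmem c h)).2.2 with ht | ht
    · exact Or.inl ((tight_congr g1 g2 .refl).2 ht)
    · by_cases hT0 : T = 0
      · obtain ⟨d, hd, htd⟩ := ht hT0 hx
        exact Or.inr (Or.inr ⟨d, hd, (tight_congr g1 g2 (desc_kid .refl hd)).2 htd⟩)
      · refine Or.inr (Or.inl ?_)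
        unfold Tight
        rw [h4, hcard, hT hT0]
  · intro c h ht
    obtain ⟨g1, g2⟩ := h3 c (hmem' c h)
    exact (tight_congr g1 g2 .refl).2 ht

theorem rec_P {a b : ℕ} (ha : a ≤ 2) : tabP n par v a b = eadd (a + 1)
      (if a + b ≤ cs.length + 3 then optF (MM n par a 1) cs (cs.length + 3 - (a + b)) else 0) := by
  refine nat_eq_of ?_ ?_
  · intro m h
    obtain ⟨f, hb, ht, hm⟩ := tabP_spec h
    obtain ⟨g1, g2, g3, g4, g5⟩ := down hR hv hn hc (T := 1) hb (fun h => absurd h (by omega))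
    unfold Tight at ht
    rw [g1, g2] at ht
    rw [if_pos (by omega)]
    have e : cs.length + 3 - (a + b) = (cs.map f).sum := by omega
    rw [e]
    have := eadd_le (le_refl (a + 1)) (le_optF g4 g5)
    omega
  · intro m h
    obtain ⟨a', m', h1, h2, h3⟩ := eadd_pos.1 h
    split_ifs at h2 with hab
    obtain ⟨x, w, g1, g2, g3, g4⟩ := optF_spec hn h2
    have hex : ∀ c, ∃ F, c ∈ cs → Below n par c (x c) a F ∧ wt n par c F = w c ∧
        (Tight n par F c ∨ (1 = 0 → 1 ≤ x c → ∃ d ∈ kids n par c, Tight n par F d)) := by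
      intro c
      by_cases hcc : c ∈ cs
      · obtain ⟨F, hF⟩ := MM_spec (g2 c hcc)
        exact ⟨F, fun _ => hF⟩
      · exact ⟨fun _ => 0, fun h => absurd h hcc⟩
    choose F hF using hex
    obtain ⟨f, k1, k2, k3, k4, _⟩ := up hR hv hn hc (T := 1) (b := b) ha F hF (by omega)
      (fun _ => by omega)
    have ht : Tight n par f v := by
      unfold Tight
      rw [k2, k3]; omega
    have := le_tabP k1 ht
    omega

theorem rec_Q {r a b : ℕ} (ha : a ≤ 2) (hr : r = 0 → a = 0) :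
    tabQ n par r v a b = eadd (a + 1)
      ((Finset.Icc (cs.length + 4 - (a + b)) (2 * cs.length)).sup (optF (MM n par a 0) cs)) := by
  refine nat_eq_of ?_ ?_
  · intro m h
    obtain ⟨f, hb, ⟨ht, _⟩, hm⟩ := tabQ_spec h
    obtain ⟨g1, g2, g3, g4, g5⟩ := down hR hv hn hc (T := 0) hb (fun _ => ht)
    have hgood := (hb.2.2 v .refl).2.1
    unfold Good at hgood
    unfold Tight at ht
    rw [g1, g2] at ht hgood
    have hX : (cs.map f).sum ∈ Finset.Icc (cs.length + 4 - (a + b)) (2 * cs.length) := by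
      rw [Finset.mem_Icc]
      exact ⟨by omega, sum_le_two g4⟩
    have h1 := le_optF g4 g5
    have h2 := Finset.le_sup (f := optF (MM n par a 0) cs) hX
    have := eadd_le (le_refl (a + 1)) (h1.trans h2)
    omega
  · intro m h
    obtain ⟨a', m', h1, h2, h3⟩ := eadd_pos.1 h
    obtain ⟨X, hX, h2⟩ := sup_pos h2
    rw [Finset.mem_Icc] at hX
    obtain ⟨x, w, g1, g2, g3, g4⟩ := optF_spec hn h2
    have hex : ∀ c, ∃ F, c ∈ cs → Below n par c (x c) a F ∧ wt n par c F = w c ∧
        (Tight n par F c ∨ (0 = 0 → 1 ≤ x c → ∃ d ∈ kids n par c, Tight n par F d)) := by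
      intro c
      by_cases hcc : c ∈ cs
      · obtain ⟨F, hF⟩ := MM_spec (g2 c hcc)
        exact ⟨F, fun _ => hF⟩
      · exact ⟨fun _ => 0, fun h => absurd h hcc⟩
    choose F hF using hex
    obtain ⟨f, k1, k2, k3, k4, _⟩ := up hR hv hn hc (T := 0) (b := b) ha F hF (by omega)
      (fun h => absurd rfl h)
    have ht : ¬ Tight n par f v := by
      unfold Tight
      rw [k2, k3]; omega
    have := le_tabQ (r := r) k1 ht (fun h0 h1 => by have := hr h0; omega)
    omega

theorem rec_C {a b : ℕ} (ha : a ≤ 2) (ha1 : 1 ≤ a) :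
    tabQ n par 0 v a b = eadd (a + 1)
      ((Finset.Icc (cs.length + 4 - (a + b)) (2 * cs.length)).sup
        (optC (MM n par a 0) (fun c x => tabP n par c x a) cs)) := by
  refine nat_eq_of ?_ ?_
  · intro m h
    obtain ⟨f, hb, ⟨ht, hcv⟩, hm⟩ := tabQ_spec h
    obtain ⟨g1, g2, g3, g4, g5⟩ := down hR hv hn hc (T := 0) hb (fun _ => ht)
    have hgood := (hb.2.2 v .refl).2.1
    unfold Good at hgood
    unfold Tight at ht
    rw [g1, g2] at ht hgood
    have hX : (cs.map f).sum ∈ Finset.Icc (cs.length + 4 - (a + b)) (2 * cs.length) := by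
      rw [Finset.mem_Icc]
      exact ⟨by omega, sum_le_two g4⟩
    obtain ⟨j, hj, htj⟩ := hcv rfl ha1
    have hjc : j ∈ cs := (hc j).2 (mem_kids.1 hj)
    have h0 : wt n par j f + 1 ≤ (fun c x => tabP n par c x a) j (f j) :=
      le_tabP (below_kid hR hv hj hb) htj
    have h1 := le_optC (M := MM n par a 0) (C := fun c x => tabP n par c x a) hjc g4 g5 h0
    have h2 := Finset.le_sup (f := optC (MM n par a 0) (fun c x => tabP n par c x a) cs) hX
    have := eadd_le (le_refl (a + 1)) (h1.trans h2)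
    omega
  · intro m h
    obtain ⟨a', m', h1, h2, h3⟩ := eadd_pos.1 h
    obtain ⟨X, hX, h2⟩ := sup_pos h2
    rw [Finset.mem_Icc] at hX
    obtain ⟨j, x, w, hj, g1, g2, g2', g3, g4⟩ := optC_spec hn h2
    have hex : ∀ c, ∃ F, c ∈ cs → (Below n par c (x c) a F ∧ wt n par c F = w c ∧
        (Tight n par F c ∨ (0 = 0 → 1 ≤ x c → ∃ d ∈ kids n par c, Tight n par F d))) ∧
        (c = j → Tight n par F c) := by
      intro c
      by_cases hcc : c ∈ cs
      · by_cases hcj : c = j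
        · subst hcj
          obtain ⟨F, hF1, hF2, hF3⟩ := tabP_spec g2'
          exact ⟨F, fun _ => ⟨⟨hF1, hF3.symm, Or.inl hF2⟩, fun _ => hF2⟩⟩
        · obtain ⟨F, hF⟩ := MM_spec (g2 c hcc hcj)
          exact ⟨F, fun _ => ⟨hF, fun h => absurd h hcj⟩⟩
      · exact ⟨fun _ => 0, fun h => absurd h hcc⟩
    choose F hF using hex
    obtain ⟨f, k1, k2, k3, k4, k5⟩ := up hR hv hn hc (T := 0) (b := b) ha F
      (fun c h => (hF c h).1) (by omega) (fun h => absurd rfl h)
    have ht : ¬ Tight n par f v := by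
      unfold Tight
      rw [k2, k3]; omega
    have hjk : j ∈ kids n par v := mem_kids.2 ((hc j).1 hj)
    have := le_tabQ (r := 0) k1 ht (fun _ _ => ⟨j, hjk, k5 j hj ((hF j hj).2 rfl)⟩)
    omega

end

theorem s_rec : S_REC := by
  intro n ord par hR v hv cs hn hc a ha b hb
  refine ⟨rec_P hR hv hn hc ha, rec_Q hR hv hn hc ha (fun h => absurd h (by omega)), ?_⟩
  split_ifs with h0
  · exact rec_Q hR hv hn hc ha (fun _ => h0)
  · exact rec_C hR hv hn hc ha (by omega)

end Pool.Agent.L7h11.UM
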