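import Mathlib
import Pool.Agent.L7h11.UM.Dpb
import Pool.Agent.L7h11.UM.RecB
import Pool.Agent.L7h11.UM.Loc

/-!
# Tables of one vertex: the end
-/

set_option autoImplicit false

namespace Pool.Agent.L7h11.UM

/-- The indices of the final maxima. -/
def flst : List ℕ := List.range' 2 (2 * R + 1)

theorem flst_toFinset : flst.toFinset = Finset.Icc 2 (2 * R + 2) := by
  ext i
  unfold flst R
  rw [List.mem_toFinset, List.mem_range'_1, Finset.mem_Icc]
  omega

theorem length_flst : flst.length = 81 := by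
  unfold flst R
  rw [List.length_range']

/-- Reset the windows. -/
def initCm : Cm :=
  .seq (Cm.list (lst.map fun i => .put 70 (.c i) (.c (F0 i))))
    (.seq (Cm.list (lst.map fun i => .put 71 (.c i) (.c 0)))
      (.seq (.set 10 (.get 0 (.v 3)))
        (.set 11 (.get 0 (.add (.v 3) (.c 1))))))

theorem ht_init {n : ℕ} {I ord par : ℕ → ℕ} {W a T v : ℕ} {s : S} (hD : Dat n I ord par)
    (hW : 1000 * (n + 1) ≤ W) (hv : v < n) (hc : Ctx n I ord par s) (h3 : s.var 3 = v) :
    Ht (64 * (n + 1)) W initCm s 172 (Inv n I par a T v s 0) := by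
  set N := 64 * (n + 1) with hN
  have hpos := hD.root.pos
  have hIlt := I_lt hD hv
  have hmono := hD.mono v hv
  have hF0 : ∀ i, F0 i ≤ 1 := by intro i; unfold F0; split_ifs <;> omega
  have e : (172 : ℕ) = 85 + (85 + (1 + 1)) := by norm_num
  rw [e]
  unfold initCm
  apply Ht.seq
  have k1 := ht_puts (N := N) (W := W) (q := 70) (e := fun i => .c (F0 i)) (g := F0) (s := s) lst s
    rfl (fun _ _ => rfl) (by
      intro i hi
      rw [mem_lst] at hi
      have := hF0 i
      exact ⟨by omega, by omega, by omega, fun s' _ _ => ⟨show F0 i < W by omega, rfl⟩⟩)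
  rw [length_lst] at k1
  refine k1.mono le_rfl ?_
  rintro s1 ⟨v1, r1, w1⟩
  apply Ht.seq
  have k2 := ht_puts (N := N) (W := W) (q := 71) (e := fun _ => .c 0) (g := fun _ => 0) (s := s1)
    lst s1 rfl (fun _ _ => rfl) (by
      intro i hi
      rw [mem_lst] at hi
      exact ⟨by omega, by omega, by omega, fun s' _ _ => ⟨show 0 < W by omega, rfl⟩⟩)
  rw [length_lst] at k2
  refine k2.mono le_rfl ?_
  rintro s2 ⟨v2, r2, w2⟩
  have v2' : s2.var = s.var := by rw [v2, v1]
  have a20 : s2.arr 0 = I := by rw [r2 0 (by omega), r1 0 (by omega), hc.a0]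
  have h23 : s2.var 3 = v := by rw [v2', h3]
  apply Ht.seq
  refine Ht.set ⟨?_, ?_, ?_, ?_⟩ ?_
  · show s2.var 3 < W; rw [h23]; omega
  · show s2.var 3 < N; rw [h23]; omega
  · show s2.var 3 < W; rw [h23]; omega
  · show s2.arr 0 (s2.var 3) < W; rw [a20, h23]; omega
  have e1 : (Ex.get 0 (.v 3)).ev s2 = I v := by
    show s2.arr 0 (s2.var 3) = I v; rw [a20, h23]
  rw [e1]
  have h33 : (s2.setV 10 (I v)).var 3 = v := by simp [S.setV, h23]
  refine Ht.set ⟨⟨?_, ?_, ?_⟩, ?_, ?_, ?_⟩ ?_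
  · show (s2.setV 10 (I v)).var 3 < W; rw [h33]; omega
  · show 1 < W; omega
  · show (s2.setV 10 (I v)).var 3 + 1 < W; rw [h33]; omega
  · show (s2.setV 10 (I v)).var 3 + 1 < N; rw [h33]; omega
  · show (s2.setV 10 (I v)).var 3 + 1 < W; rw [h33]; omega
  · show s2.arr 0 ((s2.setV 10 (I v)).var 3 + 1) < W; rw [h33, a20]; omega
  have e2 : (Ex.get 0 (.add (.v 3) (.c 1))).ev (s2.setV 10 (I v)) = I (v + 1) := by
    show s2.arr 0 ((s2.setV 10 (I v)).var 3 + 1) = _
    rw [h33, a20]
  rw [e2]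
  refine ⟨?_, ?_, ?_, ?_, ?_⟩
  · intro x hx
    simp only [S.setV]
    rw [Function.update_of_ne (by omega), Function.update_of_ne (by omega), v2']
  · simp only [S.setV]
    rw [Function.update_of_ne (by omega), Function.update_self]
    omega
  · simp [S.setV]
  · intro r hr
    show s2.arr r = s.arr r
    rw [r2 r (by omega), r1 r (by omega)]
  · intro i hi
    show s2.arr 70 i = _ ∧ s2.arr 71 i = _
    rw [pre_zero]
    refine ⟨?_, ?_⟩
    · rw [r2 70 (by omega), w1 i, if_pos (mem_lst.2 hi)]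
      rfl
    · rw [w2 i, if_pos (mem_lst.2 hi)]
      rfl

/-- The windows of `v`. -/
def loopCm (a T : ℕ) : Cm := .seq initCm (.loop (.v 10) (.v 11) (bodyCm a T))

theorem ht_loopCm {n : ℕ} {I ord par : ℕ → ℕ} {W a T v : ℕ} {s : S} (hD : Dat n I ord par)
    (hW : 1000 * (n + 1) ≤ W) (ha : a ≤ 2) (hT : T ≤ 1) (hv : v < n) (hc : Ctx n I ord par s)
    (h3 : s.var 3 = v) (htab : ∀ c ∈ chl I par v, TabOK n par s c)
    (hy : ∀ c ∈ chl I par v, s.arr (40 + 2 * a + T) c ≤ 2) :
    Ht (64 * (n + 1)) W (loopCm a T) s (172 + ((adjL I v).length * 352 + 1))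
      (Inv n I par a T v s (I (v + 1) - I v)) := by
  have hIlt := I_lt hD hv
  have hmono := hD.mono v hv
  unfold loopCm
  apply Ht.seq
  refine (ht_init (a := a) (T := T) hD hW hv hc h3).mono le_rfl ?_
  intro s1 h1
  have hlen : (adjL I v).length = I (v + 1) - I v := by
    unfold adjL
    rw [List.length_map, List.length_range']
  have k := Ht.loop (N := 64 * (n + 1)) (W := W) (a := .v 10) (b := .v 11) (c := bodyCm a T)
    (Q := Inv n I par a T v s (I (v + 1) - I v)) (I (v + 1) - I v)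
    (Inv n I par a T v s) (fun _ => 351) (by
      intro j hj s' hs'
      refine ⟨?_, ?_, ?_, ht_body hD hW ha hT hv hc h3 htab hy hj hs'⟩
      · show s'.var 10 < W; rw [hs'.v10]; omega
      · show s'.var 11 < W; rw [hs'.v11]; omega
      · show s'.var 10 < s'.var 11; rw [hs'.v10, hs'.v11]; omega) (by
      intro s' hs'
      refine ⟨?_, ?_, ?_, hs'⟩
      · show s'.var 10 < W; rw [hs'.v10]; omega
      · show s'.var 11 < W; rw [hs'.v11]; omega
      · show ¬ s'.var 10 < s'.var 11; rw [hs'.v10, hs'.v11]; omega) h1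
  refine k.mono ?_ (fun _ h => h)
  simp only [Finset.sum_const, Finset.card_range, smul_eq_mul]
  rw [hlen]

/-- The numbers `k` and `Y`. -/
def kyCm (a T : ℕ) : Cm :=
  .seq (.set 20 (.sub (.sub (.get 0 (.add (.v 3) (.c 1))) (.get 0 (.v 3)))
      (.ifLt (.c 0) (.v 3) (.c 1) (.c 0))))
    (.set 21 (.get (50 + 2 * a + T) (.v 3)))

/-- The term for exact sums. -/
def e1E (a b i : ℕ) : Ex :=
  .ifLt (.add (.v 20) (.c 3)) (.c (a + b)) (.c 0)
    (.ifLt (.add (.add (.v 21) (.c i)) (.c (a + b))) (.add (.v 20) (.c (3 + R + 2))) (.c 0)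
      (.ifLt (.add (.v 20) (.c (3 + R + 2))) (.add (.add (.v 21) (.c i)) (.c (a + b))) (.c 0)
        (.get 70 (.c i))))

/-- The term for sums `≥ X`. -/
def e0E (q a b i : ℕ) : Ex :=
  .ifLt (.add (.v 21) (.c i)) (.add (.sub (.add (.v 20) (.c 4)) (.c (a + b))) (.c (R + 2))) (.c 0)
    (.get q (.c i))

theorem e1E_ev (a b i : ℕ) (s : S) : (e1E a b i).ev s = if a + b ≤ s.var 20 + 3 then
    (if s.var 21 + i = s.var 20 + 3 - (a + b) + R + 2 then s.arr 70 i else 0) else 0 := by
  unfold e1E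
  simp only [Ex.ev]
  split_ifs <;> first | rfl | omega

theorem e0E_ev (q a b i : ℕ) (s : S) : (e0E q a b i).ev s =
    if s.var 20 + 4 - (a + b) + R + 2 ≤ s.var 21 + i then s.arr q i else 0 := by
  unfold e0E
  simp only [Ex.ev]
  split_ifs <;> first | rfl | omega

theorem e1E_ok {N W a b i : ℕ} {s : S} (hN : 85 ≤ N) (hi : i < 85) (hab : a + b ≤ 4)
    (h1 : s.var 20 + 1000 < W) (h2 : s.var 21 + 1000 < W) (h3 : s.arr 70 i < W) :
    (e1E a b i).ok N W s := by
  unfold e1E R
  have o1 : Ex.ok N W (.add (.v 20) (.c 3)) s :=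
    ⟨show s.var 20 < W by omega, show 3 < W by omega, show s.var 20 + 3 < W by omega⟩
  have o2 : Ex.ok N W (.c (a + b)) s := show a + b < W by omega
  have o3 : Ex.ok N W (.add (.add (.v 21) (.c i)) (.c (a + b))) s :=
    ⟨⟨show s.var 21 < W by omega, show i < W by omega, show s.var 21 + i < W by omega⟩, o2,
      show s.var 21 + i + (a + b) < W by omega⟩
  have o4 : Ex.ok N W (.add (.v 20) (.c (3 + 40 + 2))) s :=
    ⟨show s.var 20 < W by omega, show 3 + 40 + 2 < W by omega,
      show s.var 20 + (3 + 40 + 2) < W by omega⟩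
  have o5 : Ex.ok N W (.c 0) s := show 0 < W by omega
  have o6 : Ex.ok N W (.get 70 (.c i)) s :=
    ⟨show i < W by omega, show i < N by omega, show i < W by omega, h3⟩
  exact ⟨o1, o2, fun _ => o5, fun _ => ⟨o3, o4, fun _ => o5, fun _ => ⟨o4, o3, fun _ => o5,
    fun _ => o6⟩⟩⟩

theorem e0E_ok {N W q a b i : ℕ} {s : S} (hN : 85 ≤ N) (hi : i < 85) (hab : a + b ≤ 4)
    (h1 : s.var 20 + 1000 < W) (h2 : s.var 21 + 1000 < W) (h3 : s.arr q i < W) :
    (e0E q a b i).ok N W s := by
  unfold e0E R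
  have o1 : Ex.ok N W (.add (.v 21) (.c i)) s :=
    ⟨show s.var 21 < W by omega, show i < W by omega, show s.var 21 + i < W by omega⟩
  have o2 : Ex.ok N W (.add (.sub (.add (.v 20) (.c 4)) (.c (a + b))) (.c (40 + 2))) s :=
    ⟨⟨⟨show s.var 20 < W by omega, show 4 < W by omega, show s.var 20 + 4 < W by omega⟩,
      show a + b < W by omega⟩, show 40 + 2 < W by omega,
      show s.var 20 + 4 - (a + b) + (40 + 2) < W by omega⟩
  have o5 : Ex.ok N W (.c 0) s := show 0 < W by omega
  have o6 : Ex.ok N W (.get q (.c i)) s :=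
    ⟨show i < W by omega, show i < N by omega, show i < W by omega, h3⟩
  exact ⟨o1, o2, fun _ => o5, fun _ => o6⟩

/-- Final commands for `T = 1`. -/
def fin1 (a b : ℕ) : Cm :=
  .seq (.set 22 (.c 0))
    (.seq (Cm.list (flst.map fun i => .set 22 (maxE (.v 22) (e1E a b i))))
      (.put (10 + 3 * a + b) (.v 3) (eaddE (.c (a + 1)) (.v 22))))

/-- Final commands for `T = 0`. -/
def fin0 (a b : ℕ) : Cm :=
  .seq (.set 22 (.c 0))
    (.seq (Cm.list (flst.map fun i => .set 22 (maxE (.v 22) (e0E 70 a b i))))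
      (.seq (.set 23 (.c 0))
        (.seq (Cm.list (flst.map fun i => .set 23 (maxE (.v 23) (e0E 71 a b i))))
          (.seq (.put (30 + 3 * a + b) (.v 3) (eaddE (.c (a + 1)) (.v 22)))
            (.put (20 + 3 * a + b) (.v 3)
              (eaddE (.c (a + 1)) (if a = 0 then .v 22 else .v 23)))))))

/-- What the final commands need. -/
structure Fi (n W v k Y : ℕ) (F D : ℕ → ℕ) (s : S) : Prop where
  v3 : s.var 3 = v
  v20 : s.var 20 = k
  v21 : s.var 21 = Y
  fF : ∀ i < 85, s.arr 70 i = F i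
  fD : ∀ i < 85, s.arr 71 i = D i
  fk : k ≤ 3 * n
  fY : Y ≤ 6 * n
  Fb : ∀ i < 85, F i ≤ 3 * n + 1 ∧ D i ≤ 3 * n + 1
  fv : v < n
  fW : 2000 * (n + 1) ≤ W

theorem sup_maxs {g : ℕ → ℕ} : max 0 (flst.toFinset.sup g) = (Finset.Icc 2 (2 * R + 2)).sup g := by
  rw [flst_toFinset]
  exact Nat.zero_max _

theorem ht_max {n W v k Y x : ℕ} {F D : ℕ → ℕ} {s : S} (h : Fi n W v k Y F D s) (hx : x = 22 ∨ x = 23)
    {e : ℕ → Ex} {g : ℕ → ℕ} (hg : ∀ i < 85, g i ≤ 3 * n + 1)
    (he : ∀ i < 85, ∀ s' : S, Fi n W v k Y F D s' → (e i).ok (64 * (n + 1)) W s' ∧ (e i).ev s' = g i) :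
    Ht (64 * (n + 1)) W (.seq (.set x (.c 0))
      (Cm.list (flst.map fun i => .set x (maxE (.v x) (e i))))) s 82
      (fun s' => (∀ y, y ≠ x → s'.var y = s.var y) ∧ s'.arr = s.arr ∧
        s'.var x = (Finset.Icc 2 (2 * R + 2)).sup g) := by
  have hW := h.fW
  have e0 : (82 : ℕ) = 1 + 81 := by norm_num
  rw [e0]
  apply Ht.seq
  refine Ht.set (show 0 < W by omega) ?_
  have k1 := ht_maxs (N := 64 * (n + 1)) (W := W) (x := x) (e := e) (g := g) (s := s) flst 0
    (s.setV x ((Ex.c 0).ev s)) (fun y hy => by simp [S.setV, Function.update_of_ne hy]) rfl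
    (by simp [S.setV, Ex.ev]) (by omega) (by
      intro i hi
      have hi' : i < 85 := by
        have : i ∈ flst.toFinset := List.mem_toFinset.2 hi
        rw [flst_toFinset, Finset.mem_Icc] at this
        unfold R at this
        omega
      have := hg i hi'
      refine ⟨by omega, fun s' hv hs' => he i hi' s' ?_⟩
      refine ⟨?_, ?_, ?_, ?_, ?_, h.fk, h.fY, h.Fb, h.fv, h.fW⟩
      · rw [hv 3 (by omega), h.v3]
      · rw [hv 20 (by omega), h.v20]
      · rw [hv 21 (by omega), h.v21]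
      · rw [hs']; exact h.fF
      · rw [hs']; exact h.fD)
  rw [length_flst] at k1
  refine k1.mono le_rfl ?_
  rintro s' ⟨g1, g2, g3⟩
  exact ⟨g1, g2, by rw [g3, sup_maxs]⟩

theorem sup_le_of {g : ℕ → ℕ} {B : ℕ} (h : ∀ i < 85, g i ≤ B) :
    (Finset.Icc 2 (2 * R + 2)).sup g ≤ B := by
  refine Finset.sup_le fun i hi => h i ?_
  rw [Finset.mem_Icc] at hi
  unfold R at hi
  omega

theorem ht_fin1 {n W v k Y a b : ℕ} {F D : ℕ → ℕ} {s : S} (h : Fi n W v k Y F D s) (ha : a ≤ 2)
    (hb : b ≤ 2) : Ht (64 * (n + 1)) W (fin1 a b) s 83 (fun s' => Fi n W v k Y F D s' ∧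
      (∀ x, x ≠ 22 → s'.var x = s.var x) ∧ (∀ r, r ≠ 10 + 3 * a + b → s'.arr r = s.arr r) ∧
      (∀ u, u ≠ v → s'.arr (10 + 3 * a + b) u = s.arr (10 + 3 * a + b) u) ∧
      s'.arr (10 + 3 * a + b) v = eadd (a + 1)
        (if a + b ≤ k + 3 then finE F Y (k + 3 - (a + b)) else 0)) := by
  have hW := h.fW
  have hv := h.fv
  have hg : ∀ i < 85, (if a + b ≤ k + 3 then
      (if Y + i = k + 3 - (a + b) + R + 2 then F i else 0) else 0) ≤ 3 * n + 1 := by
    intro i hi
    have := (h.Fb i hi).1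
    split_ifs <;> omega
  have k1 := ht_max (x := 22) h (Or.inl rfl) (e := e1E a b) hg (by
    intro i hi s' hs'
    have f1 := hs'.fF i hi
    have f2 := (hs'.Fb i hi).1
    have f3 := hs'.fk
    have f4 := hs'.fY
    refine ⟨e1E_ok (by omega) hi (by omega) (by rw [hs'.v20]; omega) (by rw [hs'.v21]; omega)
      (by omega), ?_⟩
    rw [e1E_ev, hs'.v20, hs'.v21, f1])
  have hsup := sup_le_of hg
  unfold fin1
  have e0 : (83 : ℕ) = 1 + (81 + 1) := by norm_num
  rw [e0]
  -- regroup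
  obtain ⟨s1, t1, r1, t1le, g1, g2, g3⟩ := k1
  have hrun : Ht (64 * (n + 1)) W (.put (10 + 3 * a + b) (.v 3) (eaddE (.c (a + 1)) (.v 22))) s1 1
      (fun s' => Fi n W v k Y F D s' ∧
      (∀ x, x ≠ 22 → s'.var x = s.var x) ∧ (∀ r, r ≠ 10 + 3 * a + b → s'.arr r = s.arr r) ∧
      (∀ u, u ≠ v → s'.arr (10 + 3 * a + b) u = s.arr (10 + 3 * a + b) u) ∧
      s'.arr (10 + 3 * a + b) v = eadd (a + 1)
        (if a + b ≤ k + 3 then finE F Y (k + 3 - (a + b)) else 0)) := by
    have e3 : s1.var 3 = v := by rw [g1 3 (by omega), h.v3]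
    have e22 : s1.var 22 = (if a + b ≤ k + 3 then finE F Y (k + 3 - (a + b)) else 0) := by
      rw [g3]
      split_ifs with hab
      · rfl
      · exact Finset.sup_eq_bot_iff _ _ |>.2 (fun i _ => rfl)
    have le22 : s1.var 22 ≤ 3 * n + 1 := by rw [g3]; exact hsup
    have evd : (eaddE (.c (a + 1)) (.v 22)).ev s1 = eadd (a + 1)
        (if a + b ≤ k + 3 then finE F Y (k + 3 - (a + b)) else 0) := by
      rw [eaddE_ev, ← e22]; rfl
    have evle : eadd (a + 1) (if a + b ≤ k + 3 then finE F Y (k + 3 - (a + b)) else 0) < W := by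
      rw [← e22]
      exact lt_of_le_of_lt (eadd_le_add _ _) (by omega)
    refine Ht.put ?_ ?_ ?_ ?_ ?_ ?_
    · show s1.var 3 < W; omega
    · show s1.var 3 < 64 * (n + 1); omega
    · show s1.var 3 < W; omega
    · exact eaddE_ok (show a + 1 < W by omega) (show s1.var 22 < W by omega) (by omega)
        (show a + 1 + s1.var 22 < W by omega)
    · rw [evd]; exact evle
    · rw [evd]
      have ei : (Ex.v 3).ev s1 = v := e3
      rw [ei]
      refine ⟨⟨?_, ?_, ?_, ?_, ?_, h.fk, h.fY, h.Fb, h.fv, h.fW⟩, ?_, ?_, ?_, ?_⟩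
      · exact e3
      · show s1.var 20 = k; rw [g1 20 (by omega), h.v20]
      · show s1.var 21 = Y; rw [g1 21 (by omega), h.v21]
      · intro i hi
        simp only [S.putA]
        rw [Function.update_of_ne (by omega), g2]
        exact h.fF i hi
      · intro i hi
        simp only [S.putA]
        rw [Function.update_of_ne (by omega), g2]
        exact h.fD i hi
      · intro x hx; exact g1 x hx
      · intro r hr
        simp only [S.putA]
        rw [Function.update_of_ne hr, g2]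
      · intro u hu
        simp only [S.putA]
        rw [Function.update_self, Function.update_of_ne hu, g2]
      · simp [S.putA]
  obtain ⟨s2, t2, r2, t2le, h2⟩ := hrun
  cases r1 with
  | seq ra rb =>
    rename_i sm ta tb
    exact ⟨s2, _, .seq ra (.seq rb r2), by omega, h2⟩

theorem ht_fin0 {n W v k Y a b : ℕ} {F D : ℕ → ℕ} {s : S} (h : Fi n W v k Y F D s) (ha : a ≤ 2)
    (hb : b ≤ 2) : Ht (64 * (n + 1)) W (fin0 a b) s 166 (fun s' => Fi n W v k Y F D s' ∧
      (∀ x, x ≠ 22 → x ≠ 23 → s'.var x = s.var x) ∧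
      (∀ r, r ≠ 20 + 3 * a + b → r ≠ 30 + 3 * a + b → s'.arr r = s.arr r) ∧
      (∀ u r, u ≠ v → s'.arr r u = s.arr r u) ∧
      s'.arr (30 + 3 * a + b) v = eadd (a + 1) (finG F Y (k + 4 - (a + b))) ∧
      s'.arr (20 + 3 * a + b) v = eadd (a + 1)
        (if a = 0 then finG F Y (k + 4 - (a + b)) else finG D Y (k + 4 - (a + b)))) := by
  have hW := h.fW
  have hv := h.fv
  have hgF : ∀ i < 85, (if k + 4 - (a + b) + R + 2 ≤ Y + i then F i else 0) ≤ 3 * n + 1 := by
    intro i hi
    have := (h.Fb i hi).1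
    split_ifs <;> omega
  have hgD : ∀ i < 85, (if k + 4 - (a + b) + R + 2 ≤ Y + i then D i else 0) ≤ 3 * n + 1 := by
    intro i hi
    have := (h.Fb i hi).2
    split_ifs <;> omega
  obtain ⟨s1, t1, r1, t1le, g1, g2, g3⟩ := ht_max (x := 22) h (Or.inl rfl) (e := e0E 70 a b) hgF (by
    intro i hi s' hs'
    have f1 := hs'.fF i hi
    have f2 := (hs'.Fb i hi).1
    have f3 := hs'.fk
    have f4 := hs'.fY
    refine ⟨e0E_ok (by omega) hi (by omega) (by rw [hs'.v20]; omega) (by rw [hs'.v21]; omega)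
      (by omega), ?_⟩
    rw [e0E_ev, hs'.v20, hs'.v21, f1])
  have h1 : Fi n W v k Y F D s1 := ⟨by rw [g1 3 (by omega), h.v3], by rw [g1 20 (by omega), h.v20],
    by rw [g1 21 (by omega), h.v21], by rw [g2]; exact h.fF, by rw [g2]; exact h.fD, h.fk, h.fY, h.Fb,
    h.fv, h.fW⟩
  obtain ⟨s2, t2, r2, t2le, k1, k2, k3⟩ := ht_max (x := 23) h1 (Or.inr rfl) (e := e0E 71 a b) hgD (by
    intro i hi s' hs'
    have f1 := hs'.fD i hi
    have f2 := (hs'.Fb i hi).2
    have f3 := hs'.fk
    have f4 := hs'.fY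
    refine ⟨e0E_ok (by omega) hi (by omega) (by rw [hs'.v20]; omega) (by rw [hs'.v21]; omega)
      (by omega), ?_⟩
    rw [e0E_ev, hs'.v20, hs'.v21, f1])
  have h2 : Fi n W v k Y F D s2 := ⟨by rw [k1 3 (by omega), h1.v3],
    by rw [k1 20 (by omega), h1.v20], by rw [k1 21 (by omega), h1.v21], by rw [k2]; exact h1.fF,
    by rw [k2]; exact h1.fD, h.fk, h.fY, h.Fb, h.fv, h.fW⟩
  have e22 : s2.var 22 = finG F Y (k + 4 - (a + b)) := by rw [k1 22 (by omega), g3]; rfl
  have e23 : s2.var 23 = finG D Y (k + 4 - (a + b)) := by rw [k3]; rfl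
  have le22 : s2.var 22 ≤ 3 * n + 1 := by rw [k1 22 (by omega), g3]; exact sup_le_of hgF
  have le23 : s2.var 23 ≤ 3 * n + 1 := by rw [k3]; exact sup_le_of hgD
  have v3 := h2.v3
  -- first store
  have st1 : Ht (64 * (n + 1)) W (.seq (.put (30 + 3 * a + b) (.v 3) (eaddE (.c (a + 1)) (.v 22)))
            (.put (20 + 3 * a + b) (.v 3)
              (eaddE (.c (a + 1)) (if a = 0 then .v 22 else .v 23)))) s2 (1 + 1)
      (fun s' => Fi n W v k Y F D s' ∧
      (∀ x, x ≠ 22 → x ≠ 23 → s'.var x = s.var x) ∧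
      (∀ r, r ≠ 20 + 3 * a + b → r ≠ 30 + 3 * a + b → s'.arr r = s.arr r) ∧
      (∀ u r, u ≠ v → s'.arr r u = s.arr r u) ∧
      s'.arr (30 + 3 * a + b) v = eadd (a + 1) (finG F Y (k + 4 - (a + b))) ∧
      s'.arr (20 + 3 * a + b) v = eadd (a + 1)
        (if a = 0 then finG F Y (k + 4 - (a + b)) else finG D Y (k + 4 - (a + b)))) := by
    apply Ht.seq
    refine Ht.put ?_ ?_ ?_ ?_ ?_ ?_
    · show s2.var 3 < W; omega
    · show s2.var 3 < 64 * (n + 1); omega
    · show s2.var 3 < W; omega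
    · exact eaddE_ok (show a + 1 < W by omega) (show s2.var 22 < W by omega) (by omega)
        (show a + 1 + s2.var 22 < W by omega)
    · rw [eaddE_ev]
      exact lt_of_le_of_lt (eadd_le_add _ _) (show a + 1 + s2.var 22 < W by omega)
    set s3 := s2.putA (30 + 3 * a + b) ((Ex.v 3).ev s2) ((eaddE (.c (a + 1)) (.v 22)).ev s2) with hs3
    have ei : (Ex.v 3).ev s2 = v := v3
    have s3v : s3.var = s2.var := rfl
    have evd3 : (eaddE (.c (a + 1)) (if a = 0 then .v 22 else .v 23)).ev s3 = eadd (a + 1)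
        (if a = 0 then finG F Y (k + 4 - (a + b)) else finG D Y (k + 4 - (a + b))) := by
      rw [eaddE_ev]
      split_ifs with h0
      · show eadd (a + 1) (s3.var 22) = _
        rw [s3v, e22]
      · show eadd (a + 1) (s3.var 23) = _
        rw [s3v, e23]
    have hif : (if a = 0 then finG F Y (k + 4 - (a + b)) else finG D Y (k + 4 - (a + b))) ≤
        3 * n + 1 := by
      split_ifs
      · rw [← e22]; exact le22
      · rw [← e23]; exact le23
    refine Ht.put ?_ ?_ ?_ ?_ ?_ ?_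
    · show s3.var 3 < W; rw [s3v]; omega
    · show s3.var 3 < 64 * (n + 1); rw [s3v]; omega
    · show s3.var 3 < W; rw [s3v]; omega
    · split_ifs
      · exact eaddE_ok (show a + 1 < W by omega) (show s3.var 22 < W by rw [s3v]; omega)
          (by omega) (show a + 1 + s3.var 22 < W by rw [s3v]; omega)
      · exact eaddE_ok (show a + 1 < W by omega) (show s3.var 23 < W by rw [s3v]; omega)
          (by omega) (show a + 1 + s3.var 23 < W by rw [s3v]; omega)
    · rw [evd3]
      exact lt_of_le_of_lt (eadd_le_add _ _) (by omega)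
    rw [evd3]
    have ei3 : (Ex.v 3).ev s3 = v := v3
    rw [ei3]
    have ar3 : ∀ r, r ≠ 30 + 3 * a + b → s3.arr r = s.arr r := by
      intro r hr
      simp only [hs3, S.putA]
      rw [Function.update_of_ne hr, k2, g2]
    have ar3' : ∀ u r, u ≠ v → s3.arr r u = s.arr r u := by
      intro u r hu
      by_cases hr : r = 30 + 3 * a + b
      · simp only [hs3, S.putA, hr]
        rw [Function.update_self, ei, Function.update_of_ne hu, k2, g2]
      · rw [ar3 r hr]
    refine ⟨⟨v3, h2.v20, h2.v21, ?_, ?_, h.fk, h.fY, h.Fb, h.fv, h.fW⟩, ?_, ?_, ?_, ?_, ?_⟩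
    · intro i hi
      show Function.update s3.arr (20 + 3 * a + b) _ 70 i = _
      rw [Function.update_of_ne (by omega), ar3 70 (by omega)]
      exact h.fF i hi
    · intro i hi
      show Function.update s3.arr (20 + 3 * a + b) _ 71 i = _
      rw [Function.update_of_ne (by omega), ar3 71 (by omega)]
      exact h.fD i hi
    · intro x hx hx'
      show s2.var x = s.var x
      rw [k1 x hx', g1 x hx]
    · intro r hr hr'
      show Function.update s3.arr (20 + 3 * a + b) _ r = _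
      rw [Function.update_of_ne hr, ar3 r hr']
    · intro u r hu
      show Function.update s3.arr (20 + 3 * a + b) _ r u = _
      by_cases hr : r = 20 + 3 * a + b
      · rw [hr, Function.update_self, Function.update_of_ne hu, ar3' u _ hu]
      · rw [Function.update_of_ne hr, ar3' u r hu]
    · show Function.update s3.arr (20 + 3 * a + b) _ (30 + 3 * a + b) v = _
      rw [Function.update_of_ne (by omega)]
      simp only [hs3, S.putA]
      rw [Function.update_self, ei, Function.update_self, eaddE_ev]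
      show eadd (a + 1) (s2.var 22) = _
      rw [e22]
    · show Function.update s3.arr (20 + 3 * a + b) _ (20 + 3 * a + b) v = _
      rw [Function.update_self, Function.update_self]
  obtain ⟨s4, t4, r4, t4le, h4⟩ := st1
  unfold fin0
  cases r1 with
  | seq ra rb =>
    cases r2 with
    | seq rc rd =>
      exact ⟨s4, _, .seq ra (.seq rb (.seq rc (.seq rd r4))), by omega, h4⟩

end Pool.Agent.L7h11.UM
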