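import Mathlib
import Pool.Agent.L7h11.UM.Dpc

/-!
# Tables of one vertex: assembly
-/

set_option autoImplicit false

namespace Pool.Agent.L7h11.UM

theorem ht_ky {n : ℕ} {I ord par : ℕ → ℕ} {W a T v : ℕ} {s s1 : S} (hD : Dat n I ord par)
    (hW : 2000 * (n + 1) ≤ W) (ha : a ≤ 2) (hT : T ≤ 1) (hv : v < n) (hc : Ctx n I ord par s)
    (h3 : s.var 3 = v)
    (hy : ∀ c ∈ chl I par v, s.arr (40 + 2 * a + T) c ≤ 2)
    (hY : s.arr (50 + 2 * a + T) v = ((chl I par v).map (s.arr (40 + 2 * a + T))).sum)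
    (hI : Inv n I par a T v s (I (v + 1) - I v) s1) :
    Ht (64 * (n + 1)) W (kyCm a T) s1 2 (fun s' => Fi n W v (chl I par v).length
      ((chl I par v).map (s.arr (40 + 2 * a + T))).sum
      (win (MM n par a T) (fun c x => tabP n par c x a)
        (s.arr (40 + 2 * a + T)) (chl I par v) F0 (fun _ => 0)).1
      (win (MM n par a T) (fun c x => tabP n par c x a)
        (s.arr (40 + 2 * a + T)) (chl I par v) F0 (fun _ => 0)).2 s' ∧
      (∀ x < 10, s'.var x = s.var x) ∧ s'.arr = s1.arr) := by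
  have hSZ := s_siz n ord par hD.root
  have hIlt := I_lt hD hv
  have hmono := hD.mono v hv
  have hlen := hD.len v hv
  have hYle := sum_le_two hy
  have a10 : s1.arr 0 = I := by rw [hI.ar 0 (by omega), hc.a0]
  have h13 : s1.var 3 = v := by rw [hI.v9 3 (by omega), h3]
  have aY : s1.arr (50 + 2 * a + T) v = ((chl I par v).map (s.arr (40 + 2 * a + T))).sum := by
    rw [hI.ar _ (by omega), hY]
  have hkle : (chl I par v).length ≤ 3 * n := by rw [hlen]; omega
  set N := 64 * (n + 1) with hN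
  refine Ht.mono (T := 1 + 1) ?_ le_rfl (fun _ h => h)
  unfold kyCm
  apply Ht.seq
  refine Ht.set ⟨⟨⟨⟨?_, ?_, ?_⟩, ?_, ?_, ?_⟩, ⟨?_, ?_, ?_, ?_⟩⟩, ?_, ?_, fun _ => ?_, fun _ => ?_⟩ ?_
  · show s1.var 3 < W; omega
  · show 1 < W; omega
  · show s1.var 3 + 1 < W; omega
  · show s1.var 3 + 1 < N; omega
  · show s1.var 3 + 1 < W; omega
  · show s1.arr 0 (s1.var 3 + 1) < W; rw [a10, h13]; omega
  · show s1.var 3 < W; omega
  · show s1.var 3 < N; omega
  · show s1.var 3 < W; omega
  · show s1.arr 0 (s1.var 3) < W; rw [a10, h13]; omega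
  · show 0 < W; omega
  · show s1.var 3 < W; omega
  · show 1 < W; omega
  · show 0 < W; omega
  have ek : (Ex.sub (.sub (.get 0 (.add (.v 3) (.c 1))) (.get 0 (.v 3)))
      (.ifLt (.c 0) (.v 3) (.c 1) (.c 0))).ev s1 = (chl I par v).length := by
    show s1.arr 0 (s1.var 3 + 1) - s1.arr 0 (s1.var 3) - (if 0 < s1.var 3 then 1 else 0) = _
    rw [a10, h13, hlen]
  rw [ek]
  set s2 := s1.setV 20 (chl I par v).length with hs2
  have h23 : s2.var 3 = v := by simp [hs2, S.setV, h13]
  refine Ht.set ⟨?_, ?_, ?_, ?_⟩ ?_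
  · show s2.var 3 < W; omega
  · show s2.var 3 < N; omega
  · show s2.var 3 < W; omega
  · show s1.arr (50 + 2 * a + T) (s2.var 3) < W
    rw [h23, aY]; omega
  have eY : (Ex.get (50 + 2 * a + T) (.v 3)).ev s2 =
      ((chl I par v).map (s.arr (40 + 2 * a + T))).sum := by
    show s1.arr (50 + 2 * a + T) (s2.var 3) = _
    rw [h23, aY]
  rw [eY]
  refine ⟨⟨?_, ?_, ?_, ?_, ?_, hkle, by omega, ?_, hv, hW⟩, ?_, rfl⟩
  · simp [S.setV, h23]
  · simp [S.setV, hs2]
  · simp [S.setV]
  · intro i hi
    exact (hI.w i hi).1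
  · intro i hi
    exact (hI.w i hi).2
  · intro i hi
    have hbd := win_bd (M := MM n par a T) (C := fun c x => tabP n par c x a)
        (y := s.arr (40 + 2 * a + T)) (b := fun c => 2 * sz n par c + 1) (chl I par v) F0
        (fun _ => 0) 1 (by
          intro c hcc
          have hcn := ((hD.mem v hv c).1 hcc).1
          refine ⟨hy c hcc, fun x hx => ⟨?_, ?_⟩⟩
          · exact max_le (hSZ.2.2.2.2.2.1 c hcn x a) (hSZ.2.2.2.2.2.2 c hcn T x a)
          · exact hSZ.2.2.2.2.2.1 c hcn x a) (by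
          intro i
          unfold F0
          split_ifs <;> omega) i
    have hk := kids_bd hD hv
    omega
  · intro x hx
    simp only [S.setV, hs2]
    rw [Function.update_of_ne (by omega), Function.update_of_ne (by omega), hI.v9 x hx]

/-- Final commands. -/
def finCm (a T b : ℕ) : Cm := if T = 1 then fin1 a b else fin0 a b

/-- One pair `a, T`. -/
def block (a T : ℕ) : Cm :=
  .seq (loopCm a T) (.seq (kyCm a T) (.seq (finCm a T 0) (.seq (finCm a T 1) (finCm a T 2))))

/-- The entries for the pair `a, T` are computed. -/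
def Ent (n : ℕ) (par : ℕ → ℕ) (a T v : ℕ) (s : S) : Prop :=
  (T = 1 → ∀ b ≤ 2, s.arr (10 + 3 * a + b) v = tabP n par v a b) ∧
  (T = 0 → ∀ b ≤ 2, s.arr (30 + 3 * a + b) v = tabQ n par 1 v a b ∧
    s.arr (20 + 3 * a + b) v = tabQ n par 0 v a b)

/-- Frame of one pair `a, T`. -/
def FrP (a T v : ℕ) (s s' : S) : Prop :=
  (∀ x < 10, s'.var x = s.var x) ∧
  (∀ q, (∀ b ≤ 2, (T = 1 → q ≠ 10 + 3 * a + b) ∧ (T = 0 → q ≠ 20 + 3 * a + b ∧ q ≠ 30 + 3 * a + b)) →
    ¬ (70 ≤ q ∧ q < 80) → s'.arr q = s.arr q) ∧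
  (∀ q u, u ≠ v → ¬ (70 ≤ q ∧ q < 80) → s'.arr q u = s.arr q u)

theorem ht_block {n : ℕ} {I ord par : ℕ → ℕ} {W a T v : ℕ} {s : S} (hD : Dat n I ord par)
    (hW : 2000 * (n + 1) ≤ W) (ha : a ≤ 2) (hT : T ≤ 1) (hv : v < n) (hc : Ctx n I ord par s)
    (h3 : s.var 3 = v) (htab : ∀ c ∈ chl I par v, TabOK n par s c)
    (hbase : BaseOK n I par a T s v) :
    Ht (64 * (n + 1)) W (block a T) s (352 * (adjL I v).length + 1000)
      (fun s' => FrP a T v s s' ∧ Ent n par a T v s') := by
  obtain ⟨hbp, hbs⟩ := hbase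
  have hy := hbp.1
  have hnod := hD.nodup v hv
  have hmem := hD.mem v hv
  have hrec := fun b hb => s_rec n ord par hD.root v hv (chl I par v) hnod hmem a ha b hb
  have hloc := s_loc T (MM n par a T) (fun c x => tabP n par c x a) (chl I par v)
    (s.arr (40 + 2 * a + T)) hnod (fun c _ x _ => le_max_left _ _) hbp
  refine Ht.mono (T := (172 + ((adjL I v).length * 352 + 1)) + (2 + (166 + (166 + 166)))) ?_
    (by omega) (fun _ h => h)
  unfold block
  apply Ht.seq
  refine (ht_loopCm hD (by omega) ha hT hv hc h3 htab hy).mono le_rfl ?_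
  intro s1 h1
  apply Ht.seq
  refine (ht_ky hD hW ha hT hv hc h3 hy hbs h1).mono le_rfl ?_
  rintro s2 ⟨hf, v2, a2⟩
  have ar2 : ∀ r, ¬ (70 ≤ r ∧ r < 80) → s2.arr r = s.arr r := by
    intro r hr
    rw [a2, h1.ar r hr]
  unfold finCm
  rcases Nat.lt_or_ge T 1 with hT0 | hT1
  · have hT0 : T = 0 := by omega
    subst hT0
    simp only [if_neg (show ¬ (0 = 1) by omega)]
    apply Ht.seq
    refine (ht_fin0 hf ha (b := 0) (by omega)).mono le_rfl ?_
    rintro s3 ⟨f3, p1, p2, p3, p4, p5⟩
    apply Ht.seq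
    refine (ht_fin0 f3 ha (b := 1) (by omega)).mono le_rfl ?_
    rintro s4 ⟨f4, q1, q2, q3, q4, q5⟩
    refine (ht_fin0 f4 ha (b := 2) (by omega)).mono le_rfl ?_
    rintro s5 ⟨f5, r1, r2, r3, r4, r5⟩
    have hval : ∀ b ≤ 2, s5.arr (30 + 3 * a + b) v = eadd (a + 1) (finG
        (win (MM n par a 0) (fun c x => tabP n par c x a)
        (s.arr (40 + 2 * a + 0)) (chl I par v) F0 (fun _ => 0)).1
        ((chl I par v).map (s.arr (40 + 2 * a + 0))).sum
        ((chl I par v).length + 4 - (a + b))) ∧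
        s5.arr (20 + 3 * a + b) v = eadd (a + 1) (if a = 0 then finG
        (win (MM n par a 0) (fun c x => tabP n par c x a)
        (s.arr (40 + 2 * a + 0)) (chl I par v) F0 (fun _ => 0)).1
        ((chl I par v).map (s.arr (40 + 2 * a + 0))).sum
        ((chl I par v).length + 4 - (a + b)) else finG
        (win (MM n par a 0) (fun c x => tabP n par c x a)
        (s.arr (40 + 2 * a + 0)) (chl I par v) F0 (fun _ => 0)).2
        ((chl I par v).map (s.arr (40 + 2 * a + 0))).sum
        ((chl I par v).length + 4 - (a + b))) := by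
      intro b hb
      interval_cases b
      · rw [r2 _ (by omega) (by omega), q2 _ (by omega) (by omega), r2 _ (by omega) (by omega),
          q2 _ (by omega) (by omega)]
        exact ⟨p4, p5⟩
      · rw [r2 _ (by omega) (by omega), r2 _ (by omega) (by omega)]
        exact ⟨q4, q5⟩
      · exact ⟨r4, r5⟩
    refine ⟨⟨?_, ?_, ?_⟩, ?_, ?_⟩
    · intro x hx
      rw [r1 x (by omega) (by omega), q1 x (by omega) (by omega), p1 x (by omega) (by omega),
        v2 x hx]
    · intro q hq hq'
      have b0 := (hq 0 (by omega)).2 rfl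
      have b1 := (hq 1 (by omega)).2 rfl
      have b2 := (hq 2 (by omega)).2 rfl
      rw [r2 q b2.1 b2.2, q2 q b1.1 b1.2, p2 q b0.1 b0.2, ar2 q hq']
    · intro q u hu hq'
      rw [r3 u q hu, q3 u q hu, p3 u q hu, ar2 q hq']
    · intro h; omega
    · intro _ b hb
      obtain ⟨g1, g2⟩ := hval b hb
      obtain ⟨z1, z2⟩ := hloc.2 rfl ((chl I par v).length + 4 - (a + b)) (by omega) (by omega)
      obtain ⟨_, y1, y2⟩ := hrec b hb
      refine ⟨?_, ?_⟩
      · rw [g1, y1, z1]
      · rw [g2, y2, z1, z2]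
  · have hT1 : T = 1 := by omega
    subst hT1
    simp only [if_true]
    apply Ht.seq
    refine (ht_fin1 hf ha (b := 0) (by omega)).mono (by omega) ?_
    rintro s3 ⟨f3, p1, p2, p3, p4⟩
    apply Ht.seq
    refine (ht_fin1 f3 ha (b := 1) (by omega)).mono (by omega) ?_
    rintro s4 ⟨f4, q1, q2, q3, q4⟩
    refine (ht_fin1 f4 ha (b := 2) (by omega)).mono (by omega) ?_
    rintro s5 ⟨f5, r1, r2, r3, r4⟩
    have hval : ∀ b ≤ 2, s5.arr (10 + 3 * a + b) v = eadd (a + 1)
        (if a + b ≤ (chl I par v).length + 3 then finE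
        (win (MM n par a 1) (fun c x => tabP n par c x a)
        (s.arr (40 + 2 * a + 1)) (chl I par v) F0 (fun _ => 0)).1
        ((chl I par v).map (s.arr (40 + 2 * a + 1))).sum
        ((chl I par v).length + 3 - (a + b)) else 0) := by
      intro b hb
      interval_cases b
      · rw [r2 _ (by omega), q2 _ (by omega)]
        exact p4
      · rw [r2 _ (by omega)]
        exact q4
      · exact r4
    refine ⟨⟨?_, ?_, ?_⟩, ?_, ?_⟩
    · intro x hx
      rw [r1 x (by omega), q1 x (by omega), p1 x (by omega), v2 x hx]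
    · intro q hq hq'
      have b0 := (hq 0 (by omega)).1 rfl
      have b1 := (hq 1 (by omega)).1 rfl
      have b2 := (hq 2 (by omega)).1 rfl
      rw [r2 q b2, q2 q b1, p2 q b0, ar2 q hq']
    · intro q u hu hq'
      have c3 : s3.arr q u = s2.arr q u := by
        by_cases h : q = 10 + 3 * a + 0
        · rw [h]; exact p3 u hu
        · rw [p2 q h]
      have c4 : s4.arr q u = s3.arr q u := by
        by_cases h : q = 10 + 3 * a + 1
        · rw [h]; exact q3 u hu
        · rw [q2 q h]
      have c5 : s5.arr q u = s4.arr q u := by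
        by_cases h : q = 10 + 3 * a + 2
        · rw [h]; exact r3 u hu
        · rw [r2 q h]
      rw [c5, c4, c3, ar2 q hq']
    · intro _ b hb
      obtain ⟨y1, _⟩ := hrec b hb
      rw [hval b hb, y1]
      split_ifs with hab
      · rw [hloc.1 rfl _ (by omega) (by omega)]
      · rfl
    · intro h; omega

/-- The command for one vertex. -/
def dpvCm : Cm := Cm.list ((List.range 6).map fun k => block (k / 2) (k % 2))

theorem cost_le (L : ℕ) : 6 * (352 * L + 1000) ≤ 6000 * (L + 1) := by omega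

theorem s_dpv : S_DPV := by
  refine ⟨dpvCm, 6000, ?_⟩
  intro n I ord par W v s hD hW hc hv h3 htab hbase
  have hlen : ((List.range 6).map fun k => block (k / 2) (k % 2)).length = 6 := by simp
  have key := Ht.list (N := 64 * (n + 1)) (W := W)
    (Q := fun s' => (∀ x < 10, s'.var x = s.var x) ∧
      (∀ q, ¬ (10 ≤ q ∧ q ≤ 38) → ¬ (70 ≤ q ∧ q < 80) → s'.arr q = s.arr q) ∧
      (∀ q u, u ≠ v → 10 ≤ q → q ≤ 38 → s'.arr q u = s.arr q u) ∧ TabOK n par s' v)
    (352 * (adjL I v).length + 1000) ((List.range 6).map fun k => block (k / 2) (k % 2))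
    (fun k s' => (∀ x < 10, s'.var x = s.var x) ∧
      (∀ q, ¬ (10 ≤ q ∧ q ≤ 38) → ¬ (70 ≤ q ∧ q < 80) → s'.arr q = s.arr q) ∧
      (∀ q u, u ≠ v → 10 ≤ q → q ≤ 38 → s'.arr q u = s.arr q u) ∧
      ∀ k' < k, k' < 6 → Ent n par (k' / 2) (k' % 2) v s') s
    ⟨fun _ _ => rfl, fun _ _ _ => rfl, fun _ _ _ _ _ => rfl, fun k' hk' _ => absurd hk' (by omega)⟩
    (by
      intro k hk s' ⟨g1, g2, g3, g4⟩
      rw [hlen] at hk
      have hget : ((List.range 6).map fun k => block (k / 2) (k % 2))[k]'(by rw [hlen]; exact hk) =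
          block (k / 2) (k % 2) := by simp
      rw [hget]
      have hc' : Ctx n I ord par s' := by
        refine ⟨by rw [g1 0 (by omega), hc.v0], by rw [g2 0 (by omega) (by omega), hc.a0],
          by rw [g2 1 (by omega) (by omega), hc.a1], by rw [g2 2 (by omega) (by omega), hc.a2],
          ?_, ?_⟩
        · rw [g2 3 (by omega) (by omega)]; exact hc.a3
        · rw [g2 6 (by omega) (by omega), g2 7 (by omega) (by omega)]; exact hc.cls
      have htab' : ∀ c ∈ chl I par v, TabOK n par s' c := by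
        intro c hcc a ha b hb
        have hcv : c ≠ v := by
          intro he
          obtain ⟨c1, c2⟩ := (hD.mem v hv c).1 hcc
          have hk2 : c ∈ kids n par v := mem_kids.2 ⟨c1, c2⟩
          have := not_desc_kid hD.root hv hk2
          rw [he] at this
          exact this .refl
        rw [g3 _ c hcv (by omega) (by omega), g3 _ c hcv (by omega) (by omega),
          g3 _ c hcv (by omega) (by omega)]
        exact htab c hcc a ha b hb
      have hbase' : BaseOK n I par (k / 2) (k % 2) s' v := by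
        have := hbase (k / 2) (by omega) (k % 2) (by omega)
        unfold BaseOK at this ⊢
        rw [g2 _ (by omega) (by omega), g2 _ (by omega) (by omega)]
        exact this
      refine (ht_block hD (by omega) (by omega) (by omega) hv hc' (by rw [g1 3 (by omega), h3])
        htab' hbase').mono le_rfl ?_
      rintro s2 ⟨⟨f1, f2, f3⟩, hent⟩
      refine ⟨?_, ?_, ?_, ?_⟩
      · intro x hx
        rw [f1 x hx, g1 x hx]
      · intro q hq hq'
        rw [f2 q (fun b hb => ⟨fun _ => by omega, fun _ => by omega⟩) hq', g2 q hq hq']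
      · intro q u hu hq hq'
        rw [f3 q u hu (by omega), g3 q u hu hq hq']
      · intro k' hk' hk6
        by_cases hkk : k' = k
        · subst hkk; exact hent
        · have old := g4 k' (by omega) hk6
          refine ⟨fun hT b hb => ?_, fun hT b hb => ?_⟩
          · rw [f2 _ (fun b' hb' => ⟨fun _ => by omega, fun _ => by omega⟩) (by omega)]
            exact old.1 hT b hb
          · rw [f2 _ (fun b' hb' => ⟨fun _ => by omega, fun _ => by omega⟩) (by omega),
              f2 _ (fun b' hb' => ⟨fun _ => by omega, fun _ => by omega⟩) (by omega)]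
            exact old.2 hT b hb)
    (by
      rintro s' ⟨g1, g2, g3, g4⟩
      rw [hlen] at g4
      refine ⟨g1, g2, g3, fun a ha b hb => ?_⟩
      have e1 := (g4 (2 * a + 1) (by omega) (by omega)).1 (by omega) b hb
      have e0 := (g4 (2 * a) (by omega) (by omega)).2 (by omega) b hb
      have d1 : (2 * a + 1) / 2 = a := by omega
      have d0 : (2 * a) / 2 = a := by omega
      rw [d1] at e1
      rw [d0] at e0
      exact ⟨e1, e0.2, e0.1⟩)
  rw [hlen] at key
  exact Ht.mono key (cost_le _) (fun _ h => h)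

end Pool.Agent.L7h11.UM
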