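import Mathlib
import Pool.Agent.L7h11.UM.Rec

set_option autoImplicit false

namespace Pool.Agent.L7h11.UM

section Minimal

variable {n : ℕ} {G : SimpleGraph (Fin n)}

theorem closedSum_eq (f : Fin n → ℤ) (v : Fin n) :
    closedSum G f v = ∑ x, open Classical in if x = v ∨ G.Adj v x then f x else 0 := by
  classical
  unfold closedSum
  have : ∀ x, (if x = v ∨ G.Adj v x then f x else 0) =
      (if x = v then f x else 0) + (if G.Adj v x then f x else 0) := by
    intro x
    by_cases h1 : x = v
    · subst h1; simp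
    · by_cases h2 : G.Adj v x <;> simp [h1, h2]
  rw [Finset.sum_congr rfl fun x _ => this x, Finset.sum_add_distrib, Finset.sum_ite_eq',
    Finset.sum_filter]
  simp

theorem closedSum_lt {f g : Fin n → ℤ} (h : ∀ v, g v ≤ f v) {u v : Fin n} (hv : g v < f v)
    (hu : u = v ∨ G.Adj u v) : closedSum G g u < closedSum G f u := by
  classical
  rw [closedSum_eq, closedSum_eq]
  refine Finset.sum_lt_sum (fun x _ => ?_) ⟨v, Finset.mem_univ _, ?_⟩
  · split_ifs
    · exact h x
    · exact le_rfl
  · have : v = u ∨ G.Adj u v := hu.imp Eq.symm id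
    rw [if_pos this, if_pos this]
    exact hv

theorem minimal_iff {f : Fin n → ℤ} : IsMinimalMinusDominating G f ↔ IsMinusDominating G f ∧
    ∀ v, 0 ≤ f v → ∃ u, (u = v ∨ G.Adj u v) ∧ closedSum G f u = 1 := by
  classical
  constructor
  · rintro ⟨h1, h2⟩
    refine ⟨h1, fun v hv => ?_⟩
    by_contra hcon
    push Not at hcon
    have hg : IsMinusDominating G (Function.update f v (f v - 1)) := by
      constructor
      · intro x
        by_cases hx : x = v
        · subst hx
          rw [Function.update_self]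
          rcases h1.1 x with h | h | h <;> omega
        · rw [Function.update_of_ne hx]; exact h1.1 x
      · intro u
        have hd : closedSum G f u - closedSum G (Function.update f v (f v - 1)) u =
            if u = v ∨ G.Adj u v then 1 else 0 := by
          rw [closedSum_eq, closedSum_eq, ← Finset.sum_sub_distrib, Finset.sum_eq_single v]
          · by_cases h3 : u = v ∨ G.Adj u v
            · have h4 : v = u ∨ G.Adj u v := h3.imp Eq.symm id
              simp [h3, h4]
            · have h4 : ¬ (v = u ∨ G.Adj u v) := fun h => h3 (h.imp Eq.symm id)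
              simp [h3, h4]
          · intro x _ hx
            rw [Function.update_of_ne hx]
            simp
          · intro h; exact absurd (Finset.mem_univ _) h
        have h3 := h1.2 u
        by_cases h4 : u = v ∨ G.Adj u v
        · rw [if_pos h4] at hd
          have := hcon u h4
          omega
        · rw [if_neg h4] at hd
          omega
    have := h2 _ hg (fun x => by
      by_cases hx : x = v
      · subst hx; rw [Function.update_self]; omega
      · rw [Function.update_of_ne hx])
    have := congrFun this v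
    rw [Function.update_self] at this
    omega
  · rintro ⟨h1, h2⟩
    refine ⟨h1, fun g hg hle => ?_⟩
    by_contra hne
    obtain ⟨v, hv⟩ := Function.ne_iff.1 hne
    have hlt : g v < f v := lt_of_le_of_ne (hle v) hv
    have h0 : 0 ≤ f v := by
      rcases hg.1 v with h | h | h <;> omega
    obtain ⟨u, hu, hu1⟩ := h2 v h0
    have := closedSum_lt hle hlt hu
    have := hg.2 u
    omega

/-- A minimal function of nonnegative weight. -/
theorem exists_minimal : ∃ f : Fin n → ℤ, IsMinimalMinusDominating G f ∧ 0 ≤ ∑ v, f v := by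
  classical
  obtain ⟨S, hS, hmax⟩ := Finset.exists_max_image
    (Finset.univ.filter (fun S : Finset (Fin n) => ∀ u ∈ S, ∀ v ∈ S, ¬ G.Adj u v)) Finset.card
    ⟨∅, by simp⟩
  rw [Finset.mem_filter] at hS
  have hS' := hS.2
  have hdom : ∀ v, v ∉ S → ∃ u ∈ S, G.Adj u v := by
    intro v hv
    by_contra hcon
    push Not at hcon
    have := hmax (insert v S) (by
      rw [Finset.mem_filter]
      refine ⟨Finset.mem_univ _, fun a ha b hb => ?_⟩
      rw [Finset.mem_insert] at ha hb
      rcases ha with rfl | ha <;> rcases hb with rfl | hb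
      · exact G.irrefl
      · exact fun h => hcon b hb h.symm
      · exact hcon a ha
      · exact hS' a ha b hb)
    rw [Finset.card_insert_of_notMem hv] at this
    omega
  have hone : ∀ v ∈ S, closedSum G (fun v => if v ∈ S then (1 : ℤ) else 0) v = 1 := by
    intro v hv
    rw [closedSum_eq, Finset.sum_eq_single v]
    · simp [hv]
    · intro x _ hx
      by_cases h1 : x = v ∨ G.Adj v x
      · rcases h1 with h1 | h1
        · exact absurd h1 hx
        · have : x ∉ S := fun h => hS' v hv x h h1
          simp [this]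
      · simp [h1]
    · intro h; exact absurd (Finset.mem_univ _) h
  refine ⟨fun v => if v ∈ S then 1 else 0, minimal_iff.2 ⟨⟨fun v => ?_, fun v => ?_⟩,
    fun v _ => ?_⟩, ?_⟩
  · by_cases h : v ∈ S <;> simp [h]
  · by_cases h : v ∈ S
    · rw [hone v h]
    · obtain ⟨u, hu, huv⟩ := hdom v h
      rw [closedSum_eq]
      have h1 : (fun x => if x = v ∨ G.Adj v x then (if x ∈ S then (1 : ℤ) else 0) else 0) u ≤
          ∑ x, if x = v ∨ G.Adj v x then (if x ∈ S then (1 : ℤ) else 0) else 0 :=
        Finset.single_le_sum (f := fun x => if x = v ∨ G.Adj v x then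
          (if x ∈ S then (1 : ℤ) else 0) else 0) (fun x _ => by
            split_ifs <;> norm_num) (Finset.mem_univ u)
      simpa [hu, huv.symm] using h1
  · by_cases h : v ∈ S
    · exact ⟨v, Or.inl rfl, hone v h⟩
    · obtain ⟨u, hu, huv⟩ := hdom v h
      exact ⟨u, Or.inr huv, hone u hu⟩
  · exact Finset.sum_nonneg fun v _ => by split_ifs <;> norm_num

end Minimal

section Translate

variable {n : ℕ} {G : SimpleGraph (Fin n)} {ord par : ℕ → ℕ} (hR : Rooting n ord par)
  (hA : AdjPar n G par)

include hR hA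

theorem nb_eq {f : Fin n → ℤ} {f' : ℕ → ℕ} (h1 : ∀ v : Fin n, (f' v : ℤ) = f v + 1)
    (h2 : f' n = 1) (v : Fin n) :
    (nb n par f' v : ℤ) = closedSum G f v + (kids n par v).card + 2 := by
  classical
  obtain ⟨idx, i1, i2⟩ := hR.exists_idx
  have hpar : par v < n ∨ par v = n := by
    by_cases h0 : (v : ℕ) = 0
    · right; rw [h0, hR.par_zero]
    · left; exact (hR.par_idx i1 i2 v.2 (Or.inr h0)).2.1
  let e : ℕ → ℤ := fun u => if u < n then (f' u : ℤ) - 1 else 0
  have he : ∀ u : Fin n, e u = f u := by
    intro u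
    have := h1 u
    simp only [e, u.2, if_true]
    omega
  have hsum : ∑ u ∈ Finset.univ.filter (fun u => G.Adj v u), f u =
      e (par v) + ∑ c ∈ kids n par v, e c := by
    rw [Finset.sum_filter]
    have hterm : ∀ u : Fin n, (if G.Adj v u then f u else 0) =
        (fun u : ℕ => (if par v = u then e u else 0) + (if par u = v then e u else 0)) u := by
      intro u
      have hadj := hA v u
      by_cases a1 : par v = u
      · have a2 : ¬ par u = v := by
          intro a2
          have b1 := (hR.par_idx i1 i2 v.2 (Or.inl (by rw [a1]; exact u.2))).2.2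
          have b2 := (hR.par_idx i1 i2 u.2 (Or.inl (by rw [a2]; exact v.2))).2.2
          rw [a1] at b1
          rw [a2] at b2
          omega
        simp only [hadj.2 (Or.inl a1), a1, a2, if_true, if_false, add_zero]
        exact (he u).symm
      · by_cases a2 : par u = v
        · simp only [hadj.2 (Or.inr a2), a1, a2, if_true, if_false, zero_add]
          exact (he u).symm
        · have : ¬ G.Adj v u := fun h => by
            rcases hadj.1 h with h | h
            · exact a1 h
            · exact a2 h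
          simp [this, a1, a2]
    rw [Finset.sum_congr rfl fun u _ => hterm u,
      Fin.sum_univ_eq_sum_range (fun u : ℕ => (if par v = u then e u else 0) +
        (if par u = v then e u else 0)) n, Finset.sum_add_distrib]
    congr 1
    · rw [Finset.sum_ite_eq]
      split_ifs with h
      · rfl
      · simp only [Finset.mem_range] at h
        simp [e, h]
    · unfold kids
      rw [Finset.sum_filter]
  have hc : closedSum G f v = e v + e (par v) + ∑ c ∈ kids n par v, e c := by
    unfold closedSum
    rw [hsum, he v]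
    ring
  have e1 : (f' v : ℤ) = e v + 1 := by rw [he, h1]
  have e2 : (f' (par v) : ℤ) = e (par v) + 1 := by
    rcases hpar with h | h
    · simp [e, h]
    · rw [h, h2]; simp [e]
  have e3 : ((∑ c ∈ kids n par v, f' c : ℕ) : ℤ) =
      ∑ c ∈ kids n par v, e c + (kids n par v).card := by
    push_cast
    rw [Finset.card_eq_sum_ones]
    push_cast
    rw [← Finset.sum_add_distrib]
    refine Finset.sum_congr rfl fun c hc => ?_
    have := (mem_kids.1 hc).1
    simp [e, this]
  unfold nb
  push_cast
  push_cast at e3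
  rw [e1, e2, e3, hc]
  ring

theorem covd_iff {f : Fin n → ℤ} {f' : ℕ → ℕ} (h1 : ∀ v : Fin n, (f' v : ℤ) = f v + 1)
    (h2 : f' n = 1) (v : Fin n) :
    Covd n par f' v ↔ ∃ u, (u = v ∨ G.Adj u v) ∧ closedSum G f u = 1 := by
  have ht : ∀ u : Fin n, Tight n par f' u ↔ closedSum G f u = 1 := by
    intro u
    have := nb_eq hR hA h1 h2 u
    unfold Tight
    omega
  constructor
  · rintro (h | ⟨h3, h4⟩ | ⟨c, hc, h⟩)
    · exact ⟨v, Or.inl rfl, (ht v).1 h⟩
    · exact ⟨⟨par v, h3⟩, Or.inr ((hA _ _).2 (Or.inr rfl)), (ht ⟨par v, h3⟩).1 h4⟩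
    · obtain ⟨c1, c2⟩ := mem_kids.1 hc
      exact ⟨⟨c, c1⟩, Or.inr ((hA _ _).2 (Or.inl c2)), (ht ⟨c, c1⟩).1 h⟩
  · rintro ⟨u, rfl | hu, h⟩
    · exact Or.inl ((ht u).2 h)
    · rcases (hA _ _).1 hu with h3 | h3
      · exact Or.inr (Or.inr ⟨u, mem_kids.2 ⟨u.2, h3⟩, (ht u).2 h⟩)
      · exact Or.inr (Or.inl ⟨by rw [h3]; exact u.2, by rw [h3]; exact (ht u).2 h⟩)

theorem minimal_trans {f : Fin n → ℤ} {f' : ℕ → ℕ} (h1 : ∀ v : Fin n, (f' v : ℤ) = f v + 1)
    (h2 : f' n = 1) : IsMinimalMinusDominating G f ↔
      ∀ v < n, f' v ≤ 2 ∧ Good n par f' v ∧ (1 ≤ f' v → Covd n par f' v) := by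
  rw [minimal_iff]
  constructor
  · rintro ⟨⟨g1, g2⟩, g3⟩ v hv
    have e1 := h1 ⟨v, hv⟩
    have e2 := nb_eq hR hA h1 h2 ⟨v, hv⟩
    have e3 := g2 ⟨v, hv⟩
    simp only at e1 e2
    refine ⟨?_, ?_, ?_⟩
    · rcases g1 ⟨v, hv⟩ with h | h | h <;> omega
    · unfold Good; omega
    · intro h
      exact (covd_iff hR hA h1 h2 ⟨v, hv⟩).2 (g3 ⟨v, hv⟩ (by omega))
  · intro h
    refine ⟨⟨fun v => ?_, fun v => ?_⟩, fun v hv => ?_⟩
    · have e1 := h1 v
      have := (h v v.2).1
      omega
    · have e2 := nb_eq hR hA h1 h2 v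
      have := (h v v.2).2.1
      unfold Good at this
      omega
    · have e1 := h1 v
      exact (covd_iff hR hA h1 h2 v).1 ((h v v.2).2.2 (by omega))

end Translate

theorem s_root : S_ROOT := by
  intro n G ord par hR hA
  set A := (Finset.range 3).sup (fun a => max (tabP n par 0 a 1) (tabQ n par 0 0 a 1)) with hAdef
  have hwt : ∀ f' : ℕ → ℕ, wt n par 0 f' = ∑ u ∈ Finset.range n, f' u := by
    intro f'
    unfold wt
    congr 1
    ext u
    rw [mem_descF, Finset.mem_range]
    exact ⟨fun h => h.1, fun h => ⟨h, desc_zero hR u h⟩⟩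
  have h0n := hR.pos
  have hup : ∀ f : Fin n → ℤ, IsMinimalMinusDominating G f → ∑ v, f v + n + 1 ≤ (A : ℤ) := by
    intro f hf
    let f' : ℕ → ℕ := fun u => if h : u < n then (f ⟨u, h⟩ + 1).toNat else 1
    have h1 : ∀ v : Fin n, (f' v : ℤ) = f v + 1 := by
      intro v
      have hv := hf.1.1 v
      simp only [f', v.2, dif_pos, Fin.eta]
      rw [Int.toNat_of_nonneg (by rcases hv with h | h | h <;> omega)]
    have h2 : f' n = 1 := by simp [f']
    have h3 := (minimal_trans hR hA h1 h2).1 hf
    have hb : Below n par 0 (f' 0) 1 f' := by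
      refine ⟨rfl, by rw [hR.par_zero]; exact h2, fun u hu => ?_⟩
      obtain ⟨g1, g2, g3⟩ := h3 u (hu.lt h0n)
      exact ⟨g1, g2, fun _ => g3⟩
    have hw : (wt n par 0 f' : ℤ) = ∑ v, f v + n := by
      rw [hwt]
      push_cast
      rw [← Fin.sum_univ_eq_sum_range (fun u : ℕ => (f' u : ℤ)) n]
      rw [Finset.sum_congr rfl fun v _ => h1 v, Finset.sum_add_distrib]
      simp
    have hle : wt n par 0 f' + 1 ≤ A := by
      have hmem : f' 0 ∈ Finset.range 3 := by
        rw [Finset.mem_range]; have := (h3 0 h0n).1; omega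
      have hsup := Finset.le_sup (f := fun a => max (tabP n par 0 a 1) (tabQ n par 0 0 a 1)) hmem
      refine le_trans ?_ hsup
      by_cases ht : Tight n par f' 0
      · exact (le_tabP hb ht).trans (le_max_left _ _)
      · refine (le_tabQ hb ht ?_).trans (le_max_right _ _)
        intro _ h4
        rcases (h3 0 h0n).2.2 h4 with h | ⟨h, _⟩ | h
        · exact absurd h ht
        · rw [hR.par_zero] at h; omega
        · exact h
    have : (wt n par 0 f' : ℤ) + 1 ≤ A := by exact_mod_cast hle
    linarith
  obtain ⟨f0, hf0, hw0⟩ := exists_minimal (G := G)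
  have hAn : n + 1 ≤ A := by
    have := hup f0 hf0
    omega
  refine ⟨hAn, ?_, ?_⟩
  · -- attained
    obtain ⟨m, hm⟩ : ∃ m, A = m + 1 := ⟨A - 1, by omega⟩
    obtain ⟨a, ha, he⟩ := Finset.exists_mem_eq_sup (Finset.range 3) (by simp)
      (fun a => max (tabP n par 0 a 1) (tabQ n par 0 0 a 1))
    rw [Finset.mem_range] at ha
    rw [← hAdef, hm] at he
    have hex : ∃ f', Below n par 0 a 1 f' ∧ (1 ≤ a → Covd n par f' 0) ∧ m = wt n par 0 f' := by
      rcases max_choice (tabP n par 0 a 1) (tabQ n par 0 0 a 1) with hmx | hmx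
      · rw [hmx] at he
        obtain ⟨f', g1, g2, g3⟩ := tabP_spec he.symm
        exact ⟨f', g1, fun _ => Or.inl g2, g3⟩
      · rw [hmx] at he
        obtain ⟨f', g1, g2, g3⟩ := tabQ_spec he.symm
        exact ⟨f', g1, fun h => Or.inr (Or.inr (g2.2 rfl h)), g3⟩
    obtain ⟨f', hb, hcv, hw⟩ := hex
    have h1 : ∀ v : Fin n, (f' v : ℤ) = (fun v : Fin n => (f' v : ℤ) - 1) v + 1 := by
      intro v; simp
    have h2 : f' n = 1 := by
      have := hb.2.1
      rwa [hR.par_zero] at this
    have hmin : IsMinimalMinusDominating G (fun v : Fin n => (f' v : ℤ) - 1) := by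
      rw [minimal_trans hR hA h1 h2]
      intro v hv
      obtain ⟨g1, g2, g3⟩ := hb.2.2 v (desc_zero hR v hv)
      refine ⟨g1, g2, fun h => ?_⟩
      by_cases hv0 : v = 0
      · subst hv0
        exact hcv (by rw [← hb.1]; exact h)
      · exact g3 hv0 h
    refine ⟨_, hmin, ?_⟩
    have hw' : (wt n par 0 f' : ℤ) = ∑ v : Fin n, (f' v : ℤ) := by
      rw [hwt]
      push_cast
      rw [← Fin.sum_univ_eq_sum_range (fun u : ℕ => (f' u : ℤ)) n]
    rw [Finset.sum_sub_distrib, ← hw', ← hw]
    simp
    omega
  · rintro w ⟨f, hf, rfl⟩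
    have := hup f hf
    omega

end Pool.Agent.L7h11.UM
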