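import Mathlib
import Pool.Agent.L7h11.UM.Asm
import Pool.Agent.L7h11.UM.Root
import Pool.Agent.L7h11.UM.Dpd
import Pool.Agent.L7h53.UM.Comp
import Pool.Agent.L7h53.UM.Ph2
import Pool.Agent.L7h53.UM.Ph4
import Pool.Agent.L7h53.UM.Ph5
import Pool.Agent.L7h86.UM.Ph1
import Pool.Agent.L7h86.UM.Adj
import Pool.Agent.L7h86.UM.Ini

set_option autoImplicit false

namespace Pool.Agent.L7h11.UM

theorem thm_of_swe (h : S_SWE) : S_THM :=
  s_asm Pool.Agent.L7h53.UM.s_COMP s_root s_siz Pool.Agent.L7h86.UM.s_ADJ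
    Pool.Agent.L7h86.UM.s_PH1 Pool.Agent.L7h53.UM.s_PH2
    (Pool.Agent.L7h53.UM.s_PH4 Pool.Agent.L7h86.UM.s_INI h s_dpv s_siz)
    Pool.Agent.L7h53.UM.s_PH5

end Pool.Agent.L7h11.UM
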